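import Pool.Agent.Lib_helper91.FR.GZ

/-! Block A0c: congruences for `C(2n,n)`.
`k = k0 + p k1`; `2k0 = b p + r`, `b ∈ {0,1}`: `C(2k,k) = p^b C(2k1,k1) (2k1+1)^b UU(2k)/UU(k)²`,
`UU(2k)/UU(k)² ≡ UU(2k0)/UU(k0)² (1 + 2 p k1 h')`, `h' = HU(2k0) - HU(k0)`, `H_{2k0} - H_{k0} = h' + b/p`. -/

namespace Pool.Agent.Lib_helper91.FR

open PowerSeries Finset

variable (p : ℕ) [Fact p.Prime]

/-- `(n+1) ⋯ (n+b)` -/
def A0c_pi (n : ℕ) : ℕ → ℕ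
  | 0 => 1
  | b + 1 => A0c_pi n b * (n + b + 1)

/-- the `(b-1)`-st elementary symmetric function of `n+1, ..., n+b` -/
def A0c_sg (n : ℕ) : ℕ → ℕ
  | 0 => 0
  | b + 1 => (n + b + 1) * A0c_sg n b + A0c_pi n b

theorem A0c_fact (n b : ℕ) : (n + b).factorial = n.factorial * A0c_pi n b := by
  induction b with
  | zero => simp [A0c_pi]
  | succ b ih =>
    rw [← add_assoc, Nat.factorial_succ, ih, A0c_pi]
    ring

theorem A0c_harm {K : Type} [Field K] [CharZero K] (n b : ℕ) :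
    (A0c_pi n b : K) * (Hn K (n + b) - Hn K n) = (A0c_sg n b : K) := by
  induction b with
  | zero => simp [A0c_sg]
  | succ b ih =>
    have h1 : Hn K (n + (b + 1)) = Hn K (n + b) + (((n + b + 1 : ℕ)) : K)⁻¹ := by
      unfold Hn
      rw [← add_assoc, Finset.sum_Ioc_succ_top (Nat.zero_le (n + b))]
    have h2 : (((n + b + 1 : ℕ)) : K) ≠ 0 := Nat.cast_ne_zero.2 (by omega)
    rw [h1, A0c_pi, A0c_sg]
    push_cast at h2 ⊢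
    have h3 : ((n : K) + b + 1) * ((n : K) + b + 1)⁻¹ = 1 := mul_inv_cancel₀ h2
    linear_combination ((n : K) + b + 1) * ih + (A0c_pi n b : K) * h3

/-- `x` is integral with reduction `r` mod `p²` -/
def A0c_Rep (x : ℚ_[p]) (r : ZMod (p ^ 2)) : Prop :=
  ∃ y : ℤ_[p], (y : ℚ_[p]) = x ∧ PadicInt.toZModPow 2 y = r

variable {p}

theorem A0c_Rep_nat (n : ℕ) : A0c_Rep p (n : ℚ_[p]) (n : ZMod (p ^ 2)) :=
  ⟨(n : ℤ_[p]), by push_cast; rfl, map_natCast _ n⟩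

theorem A0c_Rep_one : A0c_Rep p (1 : ℚ_[p]) 1 := ⟨1, by push_cast; rfl, map_one _⟩

theorem A0c_Rep_add {x x' : ℚ_[p]} {r r' : ZMod (p ^ 2)} (h : A0c_Rep p x r) (h' : A0c_Rep p x' r') :
    A0c_Rep p (x + x') (r + r') := by
  obtain ⟨y, rfl, rfl⟩ := h
  obtain ⟨y', rfl, rfl⟩ := h'
  exact ⟨y + y', by push_cast; rfl, map_add _ _ _⟩

theorem A0c_Rep_sub {x x' : ℚ_[p]} {r r' : ZMod (p ^ 2)} (h : A0c_Rep p x r) (h' : A0c_Rep p x' r') :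
    A0c_Rep p (x - x') (r - r') := by
  obtain ⟨y, rfl, rfl⟩ := h
  obtain ⟨y', rfl, rfl⟩ := h'
  exact ⟨y - y', by push_cast; rfl, map_sub _ _ _⟩

theorem A0c_Rep_mul {x x' : ℚ_[p]} {r r' : ZMod (p ^ 2)} (h : A0c_Rep p x r) (h' : A0c_Rep p x' r') :
    A0c_Rep p (x * x') (r * r') := by
  obtain ⟨y, rfl, rfl⟩ := h
  obtain ⟨y', rfl, rfl⟩ := h'
  exact ⟨y * y', by push_cast; rfl, map_mul _ _ _⟩

theorem A0c_Rep_pow {x : ℚ_[p]} {r : ZMod (p ^ 2)} (h : A0c_Rep p x r) (n : ℕ) :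
    A0c_Rep p (x ^ n) (r ^ n) := by
  obtain ⟨y, rfl, rfl⟩ := h
  exact ⟨y ^ n, by push_cast; rfl, map_pow _ _ _⟩

theorem A0c_exists {x : ℚ_[p]} (h : PI 0 x) : ∃ r, A0c_Rep p x r := by
  obtain ⟨y, hy⟩ := (PI_zero_iff_exists x).1 h
  exact ⟨_, y, hy, rfl⟩

theorem A0c_PI_two {x : ℚ_[p]} {r : ZMod (p ^ 2)} (h : A0c_Rep p x r) (hr : r = 0) : PI 2 x := by
  obtain ⟨y, rfl, rfl⟩ := h
  exact (PI_zmod 2 y).2 hr

theorem A0c_zero_of_PI {x : ℚ_[p]} {r : ZMod (p ^ 2)} (h : A0c_Rep p x r) (hx : PI 2 x) : r = 0 := by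
  obtain ⟨y, rfl, rfl⟩ := h
  exact (PI_zmod 2 y).1 hx

omit [Fact p.Prime] in
theorem A0c_pp : (p : ZMod (p ^ 2)) ^ 2 = 0 := by
  have := ZMod.natCast_self (p ^ 2)
  push_cast at this
  exact this

/-- the reduction of `p x` only depends on `x` mod `p` -/
theorem A0c_p_mul {x x' : ℚ_[p]} {r r' : ZMod (p ^ 2)} (h : A0c_Rep p x r) (h' : A0c_Rep p x' r')
    (hx : PI 1 (x - x')) : (p : ZMod (p ^ 2)) * r = (p : ZMod (p ^ 2)) * r' := by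
  have h1 : PI 2 ((p : ℚ_[p]) * (x - x')) := PI_mul PI_p hx
  have h2 := A0c_zero_of_PI (A0c_Rep_mul (A0c_Rep_nat p) (A0c_Rep_sub h h')) h1
  linear_combination h2

/-- `U2` in `ℤ/p²` -/
theorem A0c_U2 (h3 : 3 ≤ p) (n0 t : ℕ) {a : ZMod (p ^ 2)} (ha : A0c_Rep p (HU p n0) a) :
    ((UU p (n0 + p * t) : ℕ) : ZMod (p ^ 2)) =
      ((UU p p : ℕ) : ZMod (p ^ 2)) ^ t * ((UU p n0 : ℕ) : ZMod (p ^ 2)) *
        (1 + (p : ZMod (p ^ 2)) * (t : ZMod (p ^ 2)) * a) := by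
  have h1 := A0c_zero_of_PI (A0c_Rep_sub (A0c_Rep_nat (UU p (n0 + p * t)))
    (A0c_Rep_mul (A0c_Rep_mul (A0c_Rep_pow (A0c_Rep_nat (UU p p)) t) (A0c_Rep_nat (UU p n0)))
      (A0c_Rep_add A0c_Rep_one (A0c_Rep_mul (A0c_Rep_mul (A0c_Rep_nat p) (A0c_Rep_nat t)) ha))))
    (U2 p h3 n0 t)
  exact sub_eq_zero.1 h1

theorem A0c_cb_eq (k : ℕ) : (2 * k).factorial = Nat.centralBinom k * k.factorial ^ 2 := by
  have h := Nat.choose_mul_factorial_mul_factorial (n := 2 * k) (k := k) (by omega)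
  rw [show 2 * k - k = k by omega] at h
  rw [Nat.centralBinom, ← h]
  ring

/-- the basic formula for `C(2k,k)`, `k = k0 + p k1` -/
theorem A0c_bb (k0 k1 : ℕ) (h0 : k0 < p) :
    Nat.centralBinom (k0 + p * k1) * UU p (k0 + p * k1) ^ 2 =
      p ^ (2 * k0 / p) * Nat.centralBinom k1 * A0c_pi (2 * k1) (2 * k0 / p) *
        UU p (2 * k0 + p * (2 * k1)) := by
  have hp : p.Prime := Fact.out
  set b := 2 * k0 / p with hb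
  have e1 : (k0 + p * k1) / p = k1 := by
    rw [Nat.add_mul_div_left _ _ hp.pos, Nat.div_eq_of_lt h0, zero_add]
  have e2 : (2 * k0 + p * (2 * k1)) / p = 2 * k1 + b := by
    rw [Nat.add_mul_div_left _ _ hp.pos, ← hb, add_comm]
  have e3 : 2 * (k0 + p * k1) = 2 * k0 + p * (2 * k1) := by ring
  have f1 := A0c_cb_eq (k0 + p * k1)
  rw [e3, U1 p (k0 + p * k1), U1 p (2 * k0 + p * (2 * k1)), e1, e2, A0c_fact, A0c_cb_eq k1] at f1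
  have hpos : 0 < (p ^ k1) ^ 2 * k1.factorial ^ 2 :=
    Nat.mul_pos (Nat.pow_pos (Nat.pow_pos hp.pos)) (Nat.pow_pos (Nat.factorial_pos _))
  apply Nat.eq_of_mul_eq_mul_left hpos
  calc (p ^ k1) ^ 2 * k1.factorial ^ 2 * (Nat.centralBinom (k0 + p * k1) * UU p (k0 + p * k1) ^ 2)
      = Nat.centralBinom (k0 + p * k1) * (p ^ k1 * k1.factorial * UU p (k0 + p * k1)) ^ 2 := by ring
    _ = p ^ (2 * k1 + b) * (Nat.centralBinom k1 * k1.factorial ^ 2 * A0c_pi (2 * k1) b) *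
        UU p (2 * k0 + p * (2 * k1)) := f1.symm
    _ = _ := by ring

theorem A0c_HU_zero : Hn ℚ_[p] 0 = 0 := by simp [Hn]

/-- `2 (H_{2k} - H_k)` -/
noncomputable def A0c_hh (K : Type) [Field K] (k : ℕ) : K := 2 * (Hn K (2 * k) - Hn K k)

theorem A0c_hh_eq (k0 k1 : ℕ) (h0 : k0 < p) :
    (p : ℚ_[p]) * A0c_hh ℚ_[p] (k0 + p * k1) =
      2 * (p : ℚ_[p]) * (HU p (2 * k0 + p * (2 * k1)) - HU p (k0 + p * k1)) +
        (2 * (Hn ℚ_[p] (2 * k1 + 2 * k0 / p) - Hn ℚ_[p] (2 * k1)) + A0c_hh ℚ_[p] k1) := by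
  have hp : p.Prime := Fact.out
  have hp0 : (p : ℚ_[p]) ≠ 0 := by exact_mod_cast hp.ne_zero
  have e1 : (k0 + p * k1) / p = k1 := by
    rw [Nat.add_mul_div_left _ _ hp.pos, Nat.div_eq_of_lt h0, zero_add]
  have e2 : (2 * k0 + p * (2 * k1)) / p = 2 * k1 + 2 * k0 / p := by
    rw [Nat.add_mul_div_left _ _ hp.pos, add_comm]
  have e3 : 2 * (k0 + p * k1) = 2 * k0 + p * (2 * k1) := by ring
  rw [A0c_hh, A0c_hh, e3, U3 p (k0 + p * k1), U3 p (2 * k0 + p * (2 * k1)), e1, e2]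
  field_simp
  ring

theorem A0c_PI_hh (k : ℕ) (h : 2 * k < p) : PI 0 (A0c_hh ℚ_[p] k) := by
  have h2 : PI 0 (2 : ℚ_[p]) := by simpa using PI_natCast (p := p) 2
  have h3 := PI_mul h2 (PI_sub (PI_Hn p (2 * k) h) (PI_Hn p k (by omega)))
  simpa [A0c_hh] using h3

/-- the four integral relations used below -/
theorem A0c_rel0 (k0 : ℕ) (h0 : k0 < p) :
    (Nat.centralBinom k0 : ℚ_[p]) * (UU p k0 : ℚ_[p]) ^ 2 =
      (p : ℚ_[p]) ^ (2 * k0 / p) * (A0c_pi 0 (2 * k0 / p) : ℚ_[p]) * (UU p (2 * k0) : ℚ_[p]) ∧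
    (p : ℚ_[p]) * ((Nat.centralBinom k0 : ℚ_[p]) * A0c_hh ℚ_[p] k0) * (UU p k0 : ℚ_[p]) ^ 2 =
      (p : ℚ_[p]) ^ (2 * k0 / p) * (UU p (2 * k0) : ℚ_[p]) *
        (2 * (p : ℚ_[p]) * (HU p (2 * k0) - HU p k0) * (A0c_pi 0 (2 * k0 / p) : ℚ_[p]) +
          2 * (A0c_sg 0 (2 * k0 / p) : ℚ_[p])) := by
  have h1 := congrArg (Nat.cast (R := ℚ_[p])) (A0c_bb k0 0 h0)
  have h2 := A0c_hh_eq k0 0 h0
  have h3 := A0c_harm (K := ℚ_[p]) 0 (2 * k0 / p)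
  have hb0 : Nat.centralBinom 0 = 1 := by simp
  have hh0 : A0c_hh ℚ_[p] 0 = 0 := by simp [A0c_hh]
  simp only [mul_zero, add_zero, zero_add, hb0, mul_one, hh0] at h1 h2 h3
  push_cast at h1
  rw [A0c_HU_zero, sub_zero] at h2 h3
  refine ⟨h1, ?_⟩
  have e : (p : ℚ_[p]) * ((Nat.centralBinom k0 : ℚ_[p]) * A0c_hh ℚ_[p] k0) * (UU p k0 : ℚ_[p]) ^ 2 =
      ((Nat.centralBinom k0 : ℚ_[p]) * (UU p k0 : ℚ_[p]) ^ 2) * ((p : ℚ_[p]) * A0c_hh ℚ_[p] k0) := by ring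
  rw [e, h1, h2, ← h3]
  ring

variable (p)

theorem A0c_cbd (K : Type) [Field K] (k : ℕ) : cbd K k = (Nat.centralBinom k : K) * A0c_hh K k := rfl

theorem cb_A (hp : 3 < p) (k0 k1 : ℕ) (h0 : k0 < p) :
    PI 2 (((Nat.centralBinom (k0 + p * k1) : ℕ) : ℚ_[p])
      - ((Nat.centralBinom k1 : ℕ) : ℚ_[p]) * (((Nat.centralBinom k0 : ℕ) : ℚ_[p])
        + (p : ℚ_[p]) * (k1 : ℚ_[p]) * cbd ℚ_[p] k0)) := by
  rw [A0c_cbd]
  obtain ⟨r1, r2⟩ := A0c_rel0 k0 h0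
  have r3 := congrArg (Nat.cast (R := ℚ_[p])) (A0c_bb k0 k1 h0)
  push_cast at r3
  have hu : ‖((UU p (k0 + p * k1) : ℕ) : ℚ_[p]) ^ 2 * ((UU p k0 : ℕ) : ℚ_[p]) ^ 2‖ = 1 := by
    rw [norm_mul, norm_pow, norm_pow, norm_natCast_eq_one _ (UU_not_dvd p _),
      norm_natCast_eq_one _ (UU_not_dvd p _)]
    norm_num
  apply PI_of_unit_mul hu
  obtain ⟨a, ha⟩ := A0c_exists (PI_HU p k0)
  obtain ⟨a', ha'⟩ := A0c_exists (PI_HU p (2 * k0))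
  set b := 2 * k0 / p with hb
  have e : ((UU p (k0 + p * k1) : ℕ) : ℚ_[p]) ^ 2 * ((UU p k0 : ℕ) : ℚ_[p]) ^ 2 *
      ((Nat.centralBinom (k0 + p * k1) : ℚ_[p]) - (Nat.centralBinom k1 : ℚ_[p]) *
        ((Nat.centralBinom k0 : ℚ_[p]) +
        (p : ℚ_[p]) * (k1 : ℚ_[p]) * ((Nat.centralBinom k0 : ℚ_[p]) * A0c_hh ℚ_[p] k0))) =
      (p : ℚ_[p]) ^ b * (Nat.centralBinom k1 : ℚ_[p]) * (A0c_pi (2 * k1) b : ℚ_[p]) *
        (UU p (2 * k0 + p * (2 * k1)) : ℚ_[p]) * (UU p k0 : ℚ_[p]) ^ 2 -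
      (Nat.centralBinom k1 : ℚ_[p]) * ((p : ℚ_[p]) ^ b * (A0c_pi 0 b : ℚ_[p]) *
        (UU p (2 * k0) : ℚ_[p]) +
        (k1 : ℚ_[p]) * ((p : ℚ_[p]) ^ b * (UU p (2 * k0) : ℚ_[p]) *
        (((2 : ℕ) : ℚ_[p]) * (p : ℚ_[p]) * (HU p (2 * k0) - HU p k0) * (A0c_pi 0 b : ℚ_[p]) +
          ((2 : ℕ) : ℚ_[p]) * (A0c_sg 0 b : ℚ_[p])))) * (UU p (k0 + p * k1) : ℚ_[p]) ^ 2 := by
    push_cast
    rw [← r3, ← r1, ← r2]
    ring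
  rw [e]
  refine A0c_PI_two (A0c_Rep_sub
    (A0c_Rep_mul (A0c_Rep_mul (A0c_Rep_mul (A0c_Rep_mul (A0c_Rep_pow (A0c_Rep_nat p) b)
      (A0c_Rep_nat (Nat.centralBinom k1))) (A0c_Rep_nat _)) (A0c_Rep_nat _))
      (A0c_Rep_pow (A0c_Rep_nat _) 2))
    (A0c_Rep_mul (A0c_Rep_mul (A0c_Rep_nat (Nat.centralBinom k1)) (A0c_Rep_add
      (A0c_Rep_mul (A0c_Rep_mul (A0c_Rep_pow (A0c_Rep_nat p) b) (A0c_Rep_nat _)) (A0c_Rep_nat _))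
      (A0c_Rep_mul (A0c_Rep_nat k1) (A0c_Rep_mul
        (A0c_Rep_mul (A0c_Rep_pow (A0c_Rep_nat p) b) (A0c_Rep_nat _))
        (A0c_Rep_add (A0c_Rep_mul (A0c_Rep_mul (A0c_Rep_mul (A0c_Rep_nat 2) (A0c_Rep_nat p))
          (A0c_Rep_sub ha' ha)) (A0c_Rep_nat _)) (A0c_Rep_mul (A0c_Rep_nat 2) (A0c_Rep_nat _)))))))
      (A0c_Rep_pow (A0c_Rep_nat _) 2))) ?_
  have hpp := A0c_pp (p := p)
  have u1 := A0c_U2 (p := p) (by omega) k0 k1 ha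
  have u2 := A0c_U2 (p := p) (by omega) (2 * k0) (2 * k1) ha'
  rw [u1, u2]
  have hpow : (((UU p p : ℕ) : ZMod (p ^ 2))) ^ (2 * k1) =
      ((((UU p p : ℕ) : ZMod (p ^ 2))) ^ k1) ^ 2 := by
    rw [← pow_mul, mul_comm k1 2]
  rw [hpow]
  generalize (((UU p p : ℕ) : ZMod (p ^ 2))) ^ k1 = T
  generalize ((UU p k0 : ℕ) : ZMod (p ^ 2)) = u
  generalize ((UU p (2 * k0) : ℕ) : ZMod (p ^ 2)) = v
  have hb3 : b < 2 := by
    rw [hb, Nat.div_lt_iff_lt_mul (by omega)]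
    omega
  clear_value b
  push_cast
  generalize (Nat.centralBinom k1 : ZMod (p ^ 2)) = B
  generalize (p : ZMod (p ^ 2)) = P at hpp ⊢
  interval_cases b
  · simp only [A0c_pi, A0c_sg]
    push_cast
    linear_combination (-(T ^ 2 * v * u ^ 2 * B * (k1 : ZMod (p ^ 2)) ^ 2 * (4 * (a' - a) * a +
      (1 + 2 * P * k1 * (a' - a)) * a ^ 2))) * hpp
  · simp only [A0c_pi, A0c_sg]
    push_cast
    linear_combination (T ^ 2 * v * u ^ 2 * B * ((2 * (k1 : ZMod (p ^ 2)) + 1) * 2 * k1 * a' -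
      2 * k1 * (a' - a) * (1 + P * k1 * a) ^ 2 - (1 + 2 * k1) * k1 * a * (2 + P * k1 * a))) * hpp

theorem cb_B (hp : 3 < p) (k0 k1 : ℕ) (h0 : k0 < p) (h1 : 2 * k1 < p) :
    PI 2 ((p : ℚ_[p]) * cbd ℚ_[p] (k0 + p * k1)
      - (cbd ℚ_[p] k1 * ((Nat.centralBinom k0 : ℕ) : ℚ_[p])
        + (p : ℚ_[p]) * cbd ℚ_[p] k0
          * (((Nat.centralBinom k1 : ℕ) : ℚ_[p]) + (k1 : ℚ_[p]) * cbd ℚ_[p] k1))) := by
  rw [A0c_cbd, A0c_cbd, A0c_cbd]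
  obtain ⟨r1, r2⟩ := A0c_rel0 k0 h0
  have r3 := congrArg (Nat.cast (R := ℚ_[p])) (A0c_bb k0 k1 h0)
  push_cast at r3
  have r4 := A0c_hh_eq k0 k1 h0
  have r5 := A0c_harm (K := ℚ_[p]) (2 * k1) (2 * k0 / p)
  have hu : ‖((UU p (k0 + p * k1) : ℕ) : ℚ_[p]) ^ 2 * ((UU p k0 : ℕ) : ℚ_[p]) ^ 2‖ = 1 := by
    rw [norm_mul, norm_pow, norm_pow, norm_natCast_eq_one _ (UU_not_dvd p _),
      norm_natCast_eq_one _ (UU_not_dvd p _)]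
    norm_num
  apply PI_of_unit_mul hu
  obtain ⟨a, ha⟩ := A0c_exists (PI_HU p k0)
  obtain ⟨a', ha'⟩ := A0c_exists (PI_HU p (2 * k0))
  obtain ⟨c, hc⟩ := A0c_exists (PI_HU p (k0 + p * k1))
  obtain ⟨c', hc'⟩ := A0c_exists (PI_HU p (2 * k0 + p * (2 * k1)))
  obtain ⟨h, hh1⟩ := A0c_exists (A0c_PI_hh k1 h1)
  have hca := A0c_p_mul hc ha (HU_block p (by omega) k0 k1)
  have hca' := A0c_p_mul hc' ha' (HU_block p (by omega) (2 * k0) (2 * k1))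
  set b := 2 * k0 / p with hb
  have e : ((UU p (k0 + p * k1) : ℕ) : ℚ_[p]) ^ 2 * ((UU p k0 : ℕ) : ℚ_[p]) ^ 2 *
      ((p : ℚ_[p]) * ((Nat.centralBinom (k0 + p * k1) : ℚ_[p]) * A0c_hh ℚ_[p] (k0 + p * k1))
      - ((Nat.centralBinom k1 : ℚ_[p]) * A0c_hh ℚ_[p] k1 * (Nat.centralBinom k0 : ℚ_[p])
        + (p : ℚ_[p]) * ((Nat.centralBinom k0 : ℚ_[p]) * A0c_hh ℚ_[p] k0)
          * ((Nat.centralBinom k1 : ℚ_[p]) +
            (k1 : ℚ_[p]) * ((Nat.centralBinom k1 : ℚ_[p]) * A0c_hh ℚ_[p] k1)))) =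
      (p : ℚ_[p]) ^ b * (Nat.centralBinom k1 : ℚ_[p]) * (UU p (2 * k0 + p * (2 * k1)) : ℚ_[p]) *
        ((A0c_pi (2 * k1) b : ℚ_[p]) * (((2 : ℕ) : ℚ_[p]) * (p : ℚ_[p]) *
          (HU p (2 * k0 + p * (2 * k1)) - HU p (k0 + p * k1)) + A0c_hh ℚ_[p] k1) +
          ((2 : ℕ) : ℚ_[p]) * (A0c_sg (2 * k1) b : ℚ_[p])) * (UU p k0 : ℚ_[p]) ^ 2 -
      ((Nat.centralBinom k1 : ℚ_[p]) * A0c_hh ℚ_[p] k1 *
        ((p : ℚ_[p]) ^ b * (A0c_pi 0 b : ℚ_[p]) * (UU p (2 * k0) : ℚ_[p])) +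
        ((p : ℚ_[p]) ^ b * (UU p (2 * k0) : ℚ_[p]) *
        (((2 : ℕ) : ℚ_[p]) * (p : ℚ_[p]) * (HU p (2 * k0) - HU p k0) * (A0c_pi 0 b : ℚ_[p]) +
          ((2 : ℕ) : ℚ_[p]) * (A0c_sg 0 b : ℚ_[p]))) *
        ((Nat.centralBinom k1 : ℚ_[p]) +
          (k1 : ℚ_[p]) * ((Nat.centralBinom k1 : ℚ_[p]) * A0c_hh ℚ_[p] k1))) *
        (UU p (k0 + p * k1) : ℚ_[p]) ^ 2 := by
    have e1 : (p : ℚ_[p]) * ((Nat.centralBinom (k0 + p * k1) : ℚ_[p]) *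
        A0c_hh ℚ_[p] (k0 + p * k1)) * ((UU p (k0 + p * k1) : ℕ) : ℚ_[p]) ^ 2 =
        (p : ℚ_[p]) ^ b * (Nat.centralBinom k1 : ℚ_[p]) *
          (UU p (2 * k0 + p * (2 * k1)) : ℚ_[p]) *
        ((A0c_pi (2 * k1) b : ℚ_[p]) * (2 * (p : ℚ_[p]) *
          (HU p (2 * k0 + p * (2 * k1)) - HU p (k0 + p * k1)) + A0c_hh ℚ_[p] k1) +
          2 * (A0c_sg (2 * k1) b : ℚ_[p])) := by
      rw [← r5]
      linear_combination ((p : ℚ_[p]) * A0c_hh ℚ_[p] (k0 + p * k1)) * r3 +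
        ((p : ℚ_[p]) ^ b * (Nat.centralBinom k1 : ℚ_[p]) * (A0c_pi (2 * k1) b : ℚ_[p]) *
          (UU p (2 * k0 + p * (2 * k1)) : ℚ_[p])) * r4
    push_cast
    rw [← e1, ← r1, ← r2]
    ring
  rw [e]
  refine A0c_PI_two (A0c_Rep_sub
    (A0c_Rep_mul (A0c_Rep_mul (A0c_Rep_mul (A0c_Rep_mul (A0c_Rep_pow (A0c_Rep_nat p) b)
      (A0c_Rep_nat (Nat.centralBinom k1))) (A0c_Rep_nat _))
      (A0c_Rep_add (A0c_Rep_mul (A0c_Rep_nat _)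
        (A0c_Rep_add (A0c_Rep_mul (A0c_Rep_mul (A0c_Rep_nat 2) (A0c_Rep_nat p)) (A0c_Rep_sub hc' hc))
          hh1)) (A0c_Rep_mul (A0c_Rep_nat 2) (A0c_Rep_nat _)))) (A0c_Rep_pow (A0c_Rep_nat _) 2))
    (A0c_Rep_mul (A0c_Rep_add (A0c_Rep_mul (A0c_Rep_mul (A0c_Rep_nat (Nat.centralBinom k1)) hh1)
      (A0c_Rep_mul (A0c_Rep_mul (A0c_Rep_pow (A0c_Rep_nat p) b) (A0c_Rep_nat _)) (A0c_Rep_nat _)))
      (A0c_Rep_mul (A0c_Rep_mul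
        (A0c_Rep_mul (A0c_Rep_pow (A0c_Rep_nat p) b) (A0c_Rep_nat _))
        (A0c_Rep_add (A0c_Rep_mul (A0c_Rep_mul (A0c_Rep_mul (A0c_Rep_nat 2) (A0c_Rep_nat p))
          (A0c_Rep_sub ha' ha)) (A0c_Rep_nat _)) (A0c_Rep_mul (A0c_Rep_nat 2) (A0c_Rep_nat _))))
        (A0c_Rep_add (A0c_Rep_nat (Nat.centralBinom k1)) (A0c_Rep_mul (A0c_Rep_nat k1)
          (A0c_Rep_mul (A0c_Rep_nat (Nat.centralBinom k1)) hh1)))))
      (A0c_Rep_pow (A0c_Rep_nat _) 2))) ?_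
  have hpp := A0c_pp (p := p)
  have u1 := A0c_U2 (p := p) (by omega) k0 k1 ha
  have u2 := A0c_U2 (p := p) (by omega) (2 * k0) (2 * k1) ha'
  rw [u1, u2]
  have hpow : (((UU p p : ℕ) : ZMod (p ^ 2))) ^ (2 * k1) =
      ((((UU p p : ℕ) : ZMod (p ^ 2))) ^ k1) ^ 2 := by
    rw [← pow_mul, mul_comm k1 2]
  rw [hpow]
  generalize (((UU p p : ℕ) : ZMod (p ^ 2))) ^ k1 = T
  generalize ((UU p k0 : ℕ) : ZMod (p ^ 2)) = u
  generalize ((UU p (2 * k0) : ℕ) : ZMod (p ^ 2)) = v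
  have hb3 : b < 2 := by
    rw [hb, Nat.div_lt_iff_lt_mul (by omega)]
    omega
  clear_value b
  push_cast
  generalize (Nat.centralBinom k1 : ZMod (p ^ 2)) = B
  generalize (p : ZMod (p ^ 2)) = P at hpp hca hca' ⊢
  have hcc : P * (c' - c) = P * (a' - a) := by linear_combination hca' - hca
  have hcc2 : ∀ x : ZMod (p ^ 2), 2 * P * (c' - c) + x = 2 * P * (a' - a) + x := by
    intro x
    linear_combination 2 * hcc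
  rw [hcc2]
  have hw : (T * u * (1 + P * (k1 : ZMod (p ^ 2)) * a)) ^ 2 =
      T ^ 2 * u ^ 2 * (1 + 2 * P * (k1 : ZMod (p ^ 2)) * a) := by
    linear_combination (T ^ 2 * u ^ 2 * (k1 : ZMod (p ^ 2)) ^ 2 * a ^ 2) * hpp
  rw [hw]
  interval_cases b
  · simp only [A0c_pi, A0c_sg]
    push_cast
    linear_combination (T ^ 2 * v * u ^ 2 * B * (4 * k1 * a' * (a' - a) -
      4 * k1 * a * (a' - a) * (1 + k1 * h))) * hpp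
  · simp only [A0c_pi, A0c_sg]
    push_cast
    linear_combination (T ^ 2 * v * u ^ 2 * B * ((1 + 2 * P * k1 * a') * (2 * k1 + 1) * 2 * (a' - a)
      + 2 * k1 * a' * ((2 * k1 + 1) * h + 2)
      - h * 2 * k1 * a - 2 * (a' - a) * (1 + k1 * h) * (1 + 2 * P * k1 * a)
      - 2 * (1 + k1 * h) * 2 * k1 * a)) * hpp

end Pool.Agent.Lib_helper91.FR
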