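import Pool.Agent.Lib_helper91.FR.A0f
import Pool.Agent.Lib_helper91.FR.A0c

/-! Block A0: product of A0f and A0c.  (`bb = C·fr`, `gg = cbd·fr + C·frd`; all of `frd k0`, `cbd k0`, `frd k1`, `cbd k1` are p-integral
in the ranges used.) -/

namespace Pool.Agent.Lib_helper91.FR

open PowerSeries Finset

variable (p : ℕ) [Fact p.Prime]

theorem A0a (hp : 3 < p) (k0 k1 : ℕ) (h0 : k0 < p) :
    PI 2 ((bb (k0 + p * k1) : ℚ_[p])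
      - (bb k1 : ℚ_[p]) * ((bb k0 : ℚ_[p]) + (p : ℚ_[p]) * (k1 : ℚ_[p]) * gg ℚ_[p] k0)) := by
  have hc := cb_A p hp k0 k1 h0
  have hf := fr_A p hp k0 k1 h0
  have ic := PI_cbd p k0 h0
  have jf := PI_frd p k0 h0
  have hpp : PI 2 ((p : ℚ_[p]) * (p : ℚ_[p])) := PI_mul PI_p PI_p
  have hA : PI 0 (((Nat.centralBinom k1 : ℕ) : ℚ_[p]) * (((Nat.centralBinom k0 : ℕ) : ℚ_[p])
        + (p : ℚ_[p]) * (k1 : ℚ_[p]) * cbd ℚ_[p] k0)) :=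
    PI_mul (PI_natCast _) (PI_add (PI_natCast _) (PI_mul (PI_mul (PI_natCast _) (PI_natCast _)) ic))
  have h1 := PI_mul hc (PI_natCast (p := p) (fr (k0 + p * k1)))
  have h2 := PI_mul hA hf
  have h3 := PI_mul hpp (PI_mul (PI_mul (PI_natCast (p := p) (k1 ^ 2 * Nat.centralBinom k1 * fr k1)) ic) jf)
  have h4 := PI_add (PI_add h1 h2) h3
  have e : (bb (k0 + p * k1) : ℚ_[p])
      - (bb k1 : ℚ_[p]) * ((bb k0 : ℚ_[p]) + (p : ℚ_[p]) * (k1 : ℚ_[p]) * gg ℚ_[p] k0) =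
      (((Nat.centralBinom (k0 + p * k1) : ℕ) : ℚ_[p])
      - ((Nat.centralBinom k1 : ℕ) : ℚ_[p]) * (((Nat.centralBinom k0 : ℕ) : ℚ_[p])
        + (p : ℚ_[p]) * (k1 : ℚ_[p]) * cbd ℚ_[p] k0)) * ((fr (k0 + p * k1) : ℕ) : ℚ_[p]) +
      (((Nat.centralBinom k1 : ℕ) : ℚ_[p]) * (((Nat.centralBinom k0 : ℕ) : ℚ_[p])
        + (p : ℚ_[p]) * (k1 : ℚ_[p]) * cbd ℚ_[p] k0)) * ((fr (k0 + p * k1) : ℚ_[p])
      - (fr k1 : ℚ_[p]) * ((fr k0 : ℚ_[p]) + (p : ℚ_[p]) * (k1 : ℚ_[p]) * frd ℚ_[p] k0)) +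
      (p : ℚ_[p]) * (p : ℚ_[p]) * (((k1 ^ 2 * Nat.centralBinom k1 * fr k1 : ℕ) : ℚ_[p]) *
        cbd ℚ_[p] k0 * frd ℚ_[p] k0) := by
    unfold bb gg
    push_cast
    ring
  rw [e]
  exact h4

theorem A0b (hp : 3 < p) (k0 k1 : ℕ) (h0 : k0 < p) (h1 : 2 * k1 < p) :
    PI 2 ((p : ℚ_[p]) * gg ℚ_[p] (k0 + p * k1)
      - (gg ℚ_[p] k1 * (bb k0 : ℚ_[p])
        + (p : ℚ_[p]) * gg ℚ_[p] k0 * ((bb k1 : ℚ_[p]) + (k1 : ℚ_[p]) * gg ℚ_[p] k1))) := by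
  have hc := cb_A p hp k0 k1 h0
  have hf := fr_A p hp k0 k1 h0
  have hc' := cb_B p hp k0 k1 h0 h1
  have hf' := fr_B p hp k0 k1 h0 (by omega)
  have ic := PI_cbd p k0 h0
  have jf := PI_frd p k0 h0
  have ic1 := PI_cbd p k1 (by omega)
  have jf1 := PI_frd p k1 (by omega)
  have hpp : PI 2 ((p : ℚ_[p]) * (p : ℚ_[p])) := PI_mul PI_p PI_p
  have hA2 : PI 0 (cbd ℚ_[p] k1 * ((Nat.centralBinom k0 : ℕ) : ℚ_[p])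
        + (p : ℚ_[p]) * cbd ℚ_[p] k0
          * (((Nat.centralBinom k1 : ℕ) : ℚ_[p]) + (k1 : ℚ_[p]) * cbd ℚ_[p] k1)) :=
    PI_add (PI_mul ic1 (PI_natCast _)) (PI_mul (PI_mul (PI_natCast _) ic)
      (PI_add (PI_natCast _) (PI_mul (PI_natCast _) ic1)))
  have hB2 : PI 0 (frd ℚ_[p] k1 * (fr k0 : ℚ_[p])
        + (p : ℚ_[p]) * frd ℚ_[p] k0 * ((fr k1 : ℚ_[p]) + (k1 : ℚ_[p]) * frd ℚ_[p] k1)) :=
    PI_add (PI_mul jf1 (PI_natCast _)) (PI_mul (PI_mul (PI_natCast _) jf)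
      (PI_add (PI_natCast _) (PI_mul (PI_natCast _) jf1)))
  have g1 := PI_mul hc' (PI_natCast (p := p) (fr (k0 + p * k1)))
  have g2 := PI_mul hA2 hf
  have g3 := PI_mul hc hB2
  have g4 := PI_mul (PI_natCast (p := p) (Nat.centralBinom (k0 + p * k1))) hf'
  have g5 : PI 2 ((p : ℚ_[p]) * (p : ℚ_[p]) * ((((fr k1 : ℕ) : ℚ_[p]) * (k1 : ℚ_[p])) *
      ((((Nat.centralBinom k1 : ℕ) : ℚ_[p]) + (k1 : ℚ_[p]) * cbd ℚ_[p] k1) *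
        (cbd ℚ_[p] k0 * frd ℚ_[p] k0)))) :=
    PI_mul hpp (PI_mul (PI_mul (PI_natCast _) (PI_natCast _))
      (PI_mul (PI_add (PI_natCast _) (PI_mul (PI_natCast _) ic1)) (PI_mul ic jf)))
  have g6 : PI 2 ((p : ℚ_[p]) * (p : ℚ_[p]) * ((((Nat.centralBinom k1 : ℕ) : ℚ_[p]) * (k1 : ℚ_[p])) *
      ((((fr k1 : ℕ) : ℚ_[p]) + (k1 : ℚ_[p]) * frd ℚ_[p] k1) *
        (cbd ℚ_[p] k0 * frd ℚ_[p] k0)))) :=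
    PI_mul hpp (PI_mul (PI_mul (PI_natCast _) (PI_natCast _))
      (PI_mul (PI_add (PI_natCast _) (PI_mul (PI_natCast _) jf1)) (PI_mul ic jf)))
  have g7 := PI_add (PI_add (PI_add (PI_add (PI_add g1 g2) g3) g4) g5) g6
  have e : (p : ℚ_[p]) * gg ℚ_[p] (k0 + p * k1)
      - (gg ℚ_[p] k1 * (bb k0 : ℚ_[p])
        + (p : ℚ_[p]) * gg ℚ_[p] k0 * ((bb k1 : ℚ_[p]) + (k1 : ℚ_[p]) * gg ℚ_[p] k1)) =
      ((p : ℚ_[p]) * cbd ℚ_[p] (k0 + p * k1)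
      - (cbd ℚ_[p] k1 * ((Nat.centralBinom k0 : ℕ) : ℚ_[p])
        + (p : ℚ_[p]) * cbd ℚ_[p] k0
          * (((Nat.centralBinom k1 : ℕ) : ℚ_[p]) + (k1 : ℚ_[p]) * cbd ℚ_[p] k1))) *
            ((fr (k0 + p * k1) : ℕ) : ℚ_[p]) +
      (cbd ℚ_[p] k1 * ((Nat.centralBinom k0 : ℕ) : ℚ_[p])
        + (p : ℚ_[p]) * cbd ℚ_[p] k0
          * (((Nat.centralBinom k1 : ℕ) : ℚ_[p]) + (k1 : ℚ_[p]) * cbd ℚ_[p] k1)) *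
        ((fr (k0 + p * k1) : ℚ_[p])
      - (fr k1 : ℚ_[p]) * ((fr k0 : ℚ_[p]) + (p : ℚ_[p]) * (k1 : ℚ_[p]) * frd ℚ_[p] k0)) +
      (((Nat.centralBinom (k0 + p * k1) : ℕ) : ℚ_[p])
      - ((Nat.centralBinom k1 : ℕ) : ℚ_[p]) * (((Nat.centralBinom k0 : ℕ) : ℚ_[p])
        + (p : ℚ_[p]) * (k1 : ℚ_[p]) * cbd ℚ_[p] k0)) *
        (frd ℚ_[p] k1 * (fr k0 : ℚ_[p])
        + (p : ℚ_[p]) * frd ℚ_[p] k0 * ((fr k1 : ℚ_[p]) + (k1 : ℚ_[p]) * frd ℚ_[p] k1)) +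
      ((Nat.centralBinom (k0 + p * k1) : ℕ) : ℚ_[p]) * ((p : ℚ_[p]) * frd ℚ_[p] (k0 + p * k1)
      - (frd ℚ_[p] k1 * (fr k0 : ℚ_[p])
        + (p : ℚ_[p]) * frd ℚ_[p] k0 * ((fr k1 : ℚ_[p]) + (k1 : ℚ_[p]) * frd ℚ_[p] k1))) +
      (p : ℚ_[p]) * (p : ℚ_[p]) * ((((fr k1 : ℕ) : ℚ_[p]) * (k1 : ℚ_[p])) *
      ((((Nat.centralBinom k1 : ℕ) : ℚ_[p]) + (k1 : ℚ_[p]) * cbd ℚ_[p] k1) *
        (cbd ℚ_[p] k0 * frd ℚ_[p] k0))) +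
      (p : ℚ_[p]) * (p : ℚ_[p]) * ((((Nat.centralBinom k1 : ℕ) : ℚ_[p]) * (k1 : ℚ_[p])) *
      ((((fr k1 : ℕ) : ℚ_[p]) + (k1 : ℚ_[p]) * frd ℚ_[p] k1) *
        (cbd ℚ_[p] k0 * frd ℚ_[p] k0))) := by
    unfold bb gg
    push_cast
    ring
  rw [e]
  exact g7

end Pool.Agent.Lib_helper91.FR
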