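import Pool.Agent.Lib_helper91.FR.Fran

/-! Block Z12: recurrences of `bb`, `gg`, the differential equations of `FF`, `GG` and the first integral of `FF`.
`(n+1) C(2n+2,n+1) = 2(2n+1) C(2n,n)` and its derivative `(n+1) cbd(n+1) + C(2n+2,n+1) = 2(2n+1) cbd n + 4 C(2n,n)`.
Z2: the theta-derivative of `PD (2F θ²F - (θF)²) - (28X+256X²) F θF - (8X+96X²) F²` is `2F` times Z1; constant coefficient 0 (th_ext). -/

namespace Pool.Agent.Lib_helper91.FR

open PowerSeries Finset

theorem Z12_cb (n : ℕ) : (n + 1) * Nat.centralBinom (n + 1) = 2 * (2 * n + 1) * Nat.centralBinom n :=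
  Nat.succ_mul_centralBinom_succ n

theorem bb_rec (n : ℕ) :
    (n + 2) ^ 3 * bb (n + 2) =
      2 * (2 * n + 3) * ((7 * (n + 1) ^ 2 + 7 * (n + 1) + 2) * bb (n + 1)
        + 16 * (n + 1) * (2 * n + 1) * bb n) := by
  unfold bb
  have h1 := Z12_cb n
  have h2 := Z12_cb (n + 1)
  have hf := fr_rec n
  have e2 : n + 1 + 1 = n + 2 := rfl
  rw [e2] at h2
  zify at h1 h2 hf ⊢
  linear_combination ((n : ℤ) + 2) ^ 2 * (fr (n + 2) : ℤ) * h2
    + 2 * (2 * (n : ℤ) + 3) * (Nat.centralBinom (n + 1) : ℤ) * hf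
    + 16 * (2 * (n : ℤ) + 3) * ((n : ℤ) + 1) * (fr n : ℤ) * h1

variable (K : Type) [Field K] [CharZero K]

omit [CharZero K] in
theorem Z12_Hn_succ (n : ℕ) : Hn K (n + 1) = Hn K n + ((n : K) + 1)⁻¹ := by
  unfold Hn
  rw [Finset.sum_Ioc_succ_top (Nat.zero_le n)]
  push_cast
  rfl

theorem Z12_cbK (n : ℕ) : ((n : K) + 1) * (Nat.centralBinom (n + 1) : K)
    = 2 * (2 * (n : K) + 1) * (Nat.centralBinom n : K) := by
  have h := Z12_cb n
  exact_mod_cast h

theorem Z12_cbd (n : ℕ) : ((n : K) + 1) * cbd K (n + 1) + (Nat.centralBinom (n + 1) : K)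
    = 2 * (2 * (n : K) + 1) * cbd K n + 4 * (Nat.centralBinom n : K) := by
  unfold cbd
  have h := Z12_cbK K n
  have hn : ((n : K) + 1) ≠ 0 := by exact_mod_cast Nat.succ_ne_zero n
  have hn2 : (2 * (n : K) + 1) ≠ 0 := by exact_mod_cast Nat.succ_ne_zero (2 * n)
  have e1 : 2 * (n + 1) = 2 * n + 1 + 1 := by ring
  have eH : Hn K (2 * (n + 1)) = Hn K (2 * n) + (2 * (n : K) + 1)⁻¹ + ((n : K) + 1)⁻¹ / 2 := by
    rw [e1, Z12_Hn_succ, Z12_Hn_succ]
    have e4 : ((2 * n + 1 : ℕ) : K) + 1 = 2 * ((n : K) + 1) := by push_cast; ring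
    have e5 : ((2 * n : ℕ) : K) + 1 = 2 * (n : K) + 1 := by push_cast; ring
    rw [e4, e5, mul_inv]
    ring
  rw [eH, Z12_Hn_succ K n]
  have hu := mul_inv_cancel₀ hn2
  have hv := mul_inv_cancel₀ hn
  generalize (2 * (n : K) + 1)⁻¹ = u at *
  generalize ((n : K) + 1)⁻¹ = v at *
  linear_combination (2 * (Hn K (2 * n) - Hn K n + u - v / 2) + v) * h
    + 4 * (Nat.centralBinom n : K) * hu - (Nat.centralBinom (n + 1) : K) * hv

/-- with `ν = n+1`: `A(ν) = 28ν³+42ν²+22ν+4`, `B(ν) = 128ν³-32ν` -/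
theorem gg_rec (n : ℕ) :
    ((n : K) + 2) ^ 3 * gg K (n + 2) + 3 * ((n : K) + 2) ^ 2 * (bb (n + 2) : K) =
      (28 * ((n : K) + 1) ^ 3 + 42 * ((n : K) + 1) ^ 2 + 22 * ((n : K) + 1) + 4) * gg K (n + 1)
        + (84 * ((n : K) + 1) ^ 2 + 84 * ((n : K) + 1) + 22) * (bb (n + 1) : K)
        + (128 * ((n : K) + 1) ^ 3 - 32 * ((n : K) + 1)) * gg K n
        + (384 * ((n : K) + 1) ^ 2 - 32) * (bb n : K) := by
  have hc1 := Z12_cbK K n
  have hc2 := Z12_cbK K (n + 1)
  have hd1 := Z12_cbd K n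
  have hd2 := Z12_cbd K (n + 1)
  have hf : ((n : K) + 2) ^ 2 * (fr (n + 2) : K) = (7 * ((n : K) + 1) ^ 2 + 7 * ((n : K) + 1) + 2) * (fr (n + 1) : K)
      + 8 * ((n : K) + 1) ^ 2 * (fr n : K) := by
    have h := fr_rec n
    exact_mod_cast h
  have hf' := frd_rec K n
  have e2 : n + 1 + 1 = n + 2 := rfl
  rw [e2] at hc2 hd2
  unfold gg bb
  push_cast at hc1 hc2 hd1 hd2 ⊢
  set c0 : K := (Nat.centralBinom n : K) with hc0
  set c1 : K := (Nat.centralBinom (n + 1) : K) with hc1'
  set c2 : K := (Nat.centralBinom (n + 2) : K) with hc2'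
  generalize cbd K n = d0 at *
  generalize cbd K (n + 1) = d1 at *
  generalize cbd K (n + 2) = d2 at *
  generalize (fr n : K) = f0 at *
  generalize (fr (n + 1) : K) = f1 at *
  generalize (fr (n + 2) : K) = f2 at *
  generalize frd K n = g0 at *
  generalize frd K (n + 1) = g1 at *
  generalize frd K (n + 2) = g2 at *
  generalize (n : K) = N at *
  clear_value c0 c1 c2
  linear_combination ((N + 2) ^ 2 * f2) * hd2 + (4 * c1 + 2 * (2 * N + 3) * d1) * hf
    + ((N + 2) ^ 2 * g2 + 2 * (N + 2) * f2) * hc2 + (2 * (2 * N + 3) * c1) * hf'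
    + (16 * (2 * N + 3) * (N + 1) * g0 + 32 * (N + 1) * f0 + 16 * (2 * N + 3) * f0) * hc1
    + (16 * (2 * N + 3) * (N + 1) * f0) * hd1

theorem Z1 : PD K * th (th (th (FF K))) =
    X * (42 * th (th (FF K)) + 22 * th (FF K) + 4 * FF K)
      + X ^ 2 * (384 * th (th (FF K)) + 352 * th (FF K) + 96 * FF K) := by
  have h : th (th (th (FF K))) = X * (C (28 : K) * th (th (th (FF K))) + C (42 : K) * th (th (FF K)) + C (22 : K) * th (FF K) + C (4 : K) * FF K)
      + X * (X * (C (128 : K) * th (th (th (FF K))) + C (384 : K) * th (th (FF K)) + C (352 : K) * th (FF K) + C (96 : K) * FF K)) := by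
    ext n
    rcases n with _ | _ | n
    · simp [coeff_th]
    · rw [map_add, coeff_succ_X_mul, coeff_succ_X_mul]
      simp only [map_add, coeff_C_mul, coeff_th, FF, coeff_mk, coeff_zero_X_mul]
      simp [bb, fr, Finset.sum_range_succ, Nat.centralBinom]
    · rw [map_add, coeff_succ_X_mul, coeff_succ_X_mul, coeff_succ_X_mul]
      simp only [map_add, coeff_C_mul, coeff_th, FF, coeff_mk]
      have h := bb_rec n
      have h' : ((n : K) + 2) ^ 3 * (bb (n + 2) : K) = 2 * (2 * (n : K) + 3) * ((7 * ((n : K) + 1) ^ 2 + 7 * ((n : K) + 1) + 2) * (bb (n + 1) : K)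
        + 16 * ((n : K) + 1) * (2 * (n : K) + 1) * (bb n : K)) := by
        exact_mod_cast h
      push_cast
      linear_combination h'
  have e128 : (128 : PowerSeries K) = C (128 : K) := (map_ofNat C 128).symm
  have e28 : (28 : PowerSeries K) = C (28 : K) := (map_ofNat C 28).symm
  have e42 : (42 : PowerSeries K) = C (42 : K) := (map_ofNat C 42).symm
  have e22 : (22 : PowerSeries K) = C (22 : K) := (map_ofNat C 22).symm
  have e4 : (4 : PowerSeries K) = C (4 : K) := (map_ofNat C 4).symm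
  have e384 : (384 : PowerSeries K) = C (384 : K) := (map_ofNat C 384).symm
  have e352 : (352 : PowerSeries K) = C (352 : K) := (map_ofNat C 352).symm
  have e96 : (96 : PowerSeries K) = C (96 : K) := (map_ofNat C 96).symm
  unfold PD
  rw [e128, e28, e42, e22, e4, e384, e352, e96]
  linear_combination h

theorem ZG : PD K * th (th (th (GG K))) =
    X * (42 * th (th (GG K)) + 22 * th (GG K) + 4 * GG K)
      + X ^ 2 * (384 * th (th (GG K)) + 352 * th (GG K) + 96 * GG K)
      - (3 * th (th (FF K)) - X * (84 * th (th (FF K)) + 84 * th (FF K) + 22 * FF K)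
        - X ^ 2 * (384 * th (th (FF K)) + 768 * th (FF K) + 352 * FF K)) := by
  have h : th (th (th (GG K))) = X * (C (28 : K) * th (th (th (GG K))) + C (42 : K) * th (th (GG K)) + C (22 : K) * th (GG K) + C (4 : K) * GG K
        + C (84 : K) * th (th (FF K)) + C (84 : K) * th (FF K) + C (22 : K) * FF K)
      + X * (X * (C (128 : K) * th (th (th (GG K))) + C (384 : K) * th (th (GG K)) + C (352 : K) * th (GG K) + C (96 : K) * GG K
        + C (384 : K) * th (th (FF K)) + C (768 : K) * th (FF K) + C (352 : K) * FF K))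
      - C (3 : K) * th (th (FF K)) := by
    ext n
    rcases n with _ | _ | n
    · simp [coeff_th, constantCoeff_th]
    · rw [map_sub, map_add, coeff_succ_X_mul, coeff_succ_X_mul]
      simp only [map_add, coeff_C_mul, coeff_th, FF, GG, coeff_mk, coeff_zero_X_mul]
      have h0 : Hn K 0 = 0 := by simp [Hn]
      have h1 : Hn K 1 = 1 := by simp [Hn]
      have h2 : Hn K 2 = 1 + 2⁻¹ := by
        rw [Z12_Hn_succ K 1, h1]
        norm_num
      simp [bb, fr, gg, cbd, frd, h0, h1, h2, Finset.sum_range_succ, Nat.centralBinom, Nat.choose]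
      norm_num
    · rw [map_sub, map_add, coeff_succ_X_mul, coeff_succ_X_mul, coeff_succ_X_mul]
      simp only [map_add, coeff_C_mul, coeff_th, FF, GG, coeff_mk]
      have h' := gg_rec K n
      push_cast
      linear_combination h'
  have e128 : (128 : PowerSeries K) = C (128 : K) := (map_ofNat C 128).symm
  have e28 : (28 : PowerSeries K) = C (28 : K) := (map_ofNat C 28).symm
  have e42 : (42 : PowerSeries K) = C (42 : K) := (map_ofNat C 42).symm
  have e22 : (22 : PowerSeries K) = C (22 : K) := (map_ofNat C 22).symm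
  have e4 : (4 : PowerSeries K) = C (4 : K) := (map_ofNat C 4).symm
  have e3 : (3 : PowerSeries K) = C (3 : K) := (map_ofNat C 3).symm
  have e384 : (384 : PowerSeries K) = C (384 : K) := (map_ofNat C 384).symm
  have e352 : (352 : PowerSeries K) = C (352 : K) := (map_ofNat C 352).symm
  have e96 : (96 : PowerSeries K) = C (96 : K) := (map_ofNat C 96).symm
  have e84 : (84 : PowerSeries K) = C (84 : K) := (map_ofNat C 84).symm
  have e768 : (768 : PowerSeries K) = C (768 : K) := (map_ofNat C 768).symm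
  unfold PD
  rw [e128, e28, e42, e22, e4, e384, e352, e96, e84, e768, e3]
  linear_combination h

theorem th_PD : th (PD K) = - (28 * X + 256 * X ^ 2) := by
  unfold PD
  simp only [th_mul, th_sub, th_pow, th_one, th_X, th_ofNat]
  push_cast
  simp only [pow_one]
  ring

theorem Z2 : PD K * (2 * FF K * th (th (FF K)) - (th (FF K)) ^ 2) =
    (28 * X + 256 * X ^ 2) * FF K * th (FF K) + (8 * X + 96 * X ^ 2) * (FF K) ^ 2 := by
  have h1 := Z1 K
  have h2 := th_PD K
  apply th_ext
  · simp only [th_mul, th_sub, th_add, th_pow, th_X, th_ofNat, h2]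
    push_cast
    simp only [pow_one]
    linear_combination (2 * FF K) * h1
  · simp [constantCoeff_th]

end Pool.Agent.Lib_helper91.FR
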