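import Pool.Agent.Lib_helper91.FR.POApi

/-! Block A5: first order Taylor expansion mod `p²`, composition with a multiple of `X^p`.
Coefficient `n < p n0` of `cmp f z` involves only `f_k`, `k < n0` (as `X^(pk) ∣ z^k`), and
`(1+pη)^k ≡ 1 + k p η mod p²` (`η` integral). -/

namespace Pool.Agent.Lib_helper91.FR

open PowerSeries Finset

variable (p : ℕ) [Fact p.Prime]

/-- the truncation of `f` -/
noncomputable def A5tr (n0 : ℕ) (f : PowerSeries ℚ_[p]) : PowerSeries ℚ_[p] :=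
  ∑ k ∈ range n0, C (coeff k f) * X ^ k

theorem A5_cmp_sum (s : Finset ℕ) (a : ℕ → ℚ_[p]) (z : PowerSeries ℚ_[p])
    (hz : constantCoeff z = 0) :
    cmp (∑ k ∈ s, C (a k) * X ^ k : PowerSeries ℚ_[p]) z = ∑ k ∈ s, C (a k) * z ^ k := by
  classical
  induction s using Finset.induction_on with
  | empty => simpa using cmp_zero z hz
  | insert i s hi ih =>
    rw [Finset.sum_insert hi, Finset.sum_insert hi, cmp_add _ _ _ hz, ih, cmp_mul _ _ _ hz,
      cmp_C _ _ hz, cmp_pow _ _ hz, cmp_X _ hz]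

theorem A5_th_sum (s : Finset ℕ) (a : ℕ → ℚ_[p]) :
    th (∑ k ∈ s, C (a k) * X ^ k : PowerSeries ℚ_[p]) =
      ∑ k ∈ s, C ((k : ℚ_[p]) * a k) * X ^ k := by
  classical
  induction s using Finset.induction_on with
  | empty => simpa using th_zero
  | insert i s hi ih =>
    rw [Finset.sum_insert hi, Finset.sum_insert hi, th_add, ih, th_C_mul, th_X_pow, map_mul,
      map_natCast]
    ring

theorem A5_coeff_tr (n0 : ℕ) (f : PowerSeries ℚ_[p]) (n : ℕ) (hn : n < n0) :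
    coeff n (A5tr p n0 f) = coeff n f := by
  unfold A5tr
  rw [map_sum, Finset.sum_eq_single n]
  · rw [coeff_C_mul, coeff_X_pow, if_pos rfl, mul_one]
  · intro b _ hb
    rw [coeff_C_mul, coeff_X_pow, if_neg (Ne.symm hb), mul_zero]
  · intro h
    exact absurd (Finset.mem_range.2 hn) h

theorem A5_sub_tr (j n0 : ℕ) (f : PowerSeries ℚ_[p]) : PO j n0 (f - A5tr p n0 f) := by
  intro n hn
  rw [map_sub, A5_coeff_tr p n0 f n hn, sub_self]
  exact PI_zero j

theorem A5_coeff_th_tr (j n0 : ℕ) (f : PowerSeries ℚ_[p]) :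
    PO j n0 (th f - th (A5tr p n0 f)) := by
  intro n hn
  rw [map_sub, coeff_th, coeff_th, A5_coeff_tr p n0 f n hn, sub_self]
  exact PI_zero j

theorem A5_binom (T : ℕ) (η : PowerSeries ℚ_[p]) (hη : PO 0 T η) (k : ℕ) :
    PO 2 T ((1 + (p : PowerSeries ℚ_[p]) * η) ^ k - 1
      - (k : PowerSeries ℚ_[p]) * ((p : PowerSeries ℚ_[p]) * η)) := by
  induction k with
  | zero => simpa using PO_zero (p := p) 2 T
  | succ k ih =>
    have e : (1 + (p : PowerSeries ℚ_[p]) * η) ^ (k + 1) - 1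
        - ((k + 1 : ℕ) : PowerSeries ℚ_[p]) * ((p : PowerSeries ℚ_[p]) * η)
        = ((1 + (p : PowerSeries ℚ_[p]) * η) ^ k - 1
            - (k : PowerSeries ℚ_[p]) * ((p : PowerSeries ℚ_[p]) * η))
            * (1 + (p : PowerSeries ℚ_[p]) * η)
          + (k : PowerSeries ℚ_[p]) * (((p : PowerSeries ℚ_[p]) * η)
            * ((p : PowerSeries ℚ_[p]) * η)) := by
      push_cast; ring
    rw [e]
    have hp1 : PO 1 T ((p : PowerSeries ℚ_[p]) * η) := PO_mul_right (PO_p T) hη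
    have hp0 : PO 0 T ((p : PowerSeries ℚ_[p]) * η) := PO_mono (Nat.zero_le 1) le_rfl hp1
    exact PO_add (PO_mul_right ih (PO_add (PO_one T) hp0))
      (PO_mul_left (PO_natCast k T) (PO_mul hp1 hp1))

theorem A5_const (z : PowerSeries ℚ_[p]) (hzX : X ^ p ∣ z) : constantCoeff z = 0 := by
  obtain ⟨w, rfl⟩ := hzX
  have hp : p ≠ 0 := Nat.Prime.ne_zero Fact.out
  rw [map_mul, map_pow, constantCoeff_X, zero_pow hp, zero_mul]

theorem A5 (f z η : PowerSeries ℚ_[p]) (n0 : ℕ) (hf : PO 0 n0 f) (hz : ∀ T, PO 0 T z)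
    (hη : ∀ T, PO 0 T η) (hzX : X ^ p ∣ z) :
    PO 2 (p * n0) (cmp f (z * (1 + (p : PowerSeries ℚ_[p]) * η))
      - (cmp f z + (p : PowerSeries ℚ_[p]) * η * cmp (th f) z)) := by
  have hz0 := A5_const p z hzX
  set w := z * (1 + (p : PowerSeries ℚ_[p]) * η) with hw
  have hwX : X ^ p ∣ w := Dvd.dvd.mul_right hzX _
  have hw0 := A5_const p w hwX
  have hpη : ∀ T, PO 0 T ((p : PowerSeries ℚ_[p]) * η) := fun T =>
    PO_mono (Nat.zero_le 1) le_rfl (PO_mul_right (PO_p T) (hη T))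
  have hwI : ∀ T, PO 0 T w := fun T =>
    PO_mul_left (hz T) (PO_add (PO_one T) (hpη T))
  -- replace `f` by its truncation
  have h1 : PO 2 (p * n0) (cmp (f - A5tr p n0 f) w) := PO_cmp' hwX (A5_sub_tr p 2 n0 f) (hwI _)
  have h2 : PO 2 (p * n0) (cmp (f - A5tr p n0 f) z) := PO_cmp' hzX (A5_sub_tr p 2 n0 f) (hz _)
  have h3 : PO 2 (p * n0) (cmp (th f - th (A5tr p n0 f)) z) :=
    PO_cmp' hzX (A5_coeff_th_tr p 2 n0 f) (hz _)
  rw [cmp_sub _ _ _ hw0] at h1
  rw [cmp_sub _ _ _ hz0] at h2 h3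
  have h4 : PO 2 (p * n0) (cmp (A5tr p n0 f) w - (cmp (A5tr p n0 f) z
      + (p : PowerSeries ℚ_[p]) * η * cmp (th (A5tr p n0 f)) z)) := by
    have e : cmp (A5tr p n0 f) w - (cmp (A5tr p n0 f) z
        + (p : PowerSeries ℚ_[p]) * η * cmp (th (A5tr p n0 f)) z)
        = ∑ k ∈ range n0, C (coeff k f) * (z ^ k * ((1 + (p : PowerSeries ℚ_[p]) * η) ^ k - 1
          - (k : PowerSeries ℚ_[p]) * ((p : PowerSeries ℚ_[p]) * η))) := by
      unfold A5tr
      rw [A5_th_sum, A5_cmp_sum p _ _ w hw0, A5_cmp_sum p _ _ z hz0, A5_cmp_sum p _ _ z hz0,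
        Finset.mul_sum, ← Finset.sum_add_distrib, ← Finset.sum_sub_distrib]
      apply Finset.sum_congr rfl
      intro k _
      rw [hw, mul_pow, map_mul, map_natCast]
      ring
    rw [e]
    apply PO_sum
    intro k hk
    refine PO_mul_left (PO_C (hf k (Finset.mem_range.1 hk))) (PO_mul_left (PO_pow (hz _) k) ?_)
    exact A5_binom p _ η (hη _) k
  have e : cmp f w - (cmp f z + (p : PowerSeries ℚ_[p]) * η * cmp (th f) z)
      = (cmp f w - cmp (A5tr p n0 f) w) - (cmp f z - cmp (A5tr p n0 f) z)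
        - (p : PowerSeries ℚ_[p]) * η * (cmp (th f) z - cmp (th (A5tr p n0 f)) z)
        + (cmp (A5tr p n0 f) w - (cmp (A5tr p n0 f) z
          + (p : PowerSeries ℚ_[p]) * η * cmp (th (A5tr p n0 f)) z)) := by ring
  rw [e]
  exact PO_add (PO_sub (PO_sub h1 h2) (PO_mul_left (hpη _) h3)) h4

theorem A5' (f z η : PowerSeries ℚ_[p]) (n0 : ℕ) (hf : PO 0 n0 f) (hz : ∀ T, PO 0 T z)
    (hη : ∀ T, PO 0 T η) (hzX : X ^ p ∣ z) :
    PO 1 (p * n0) (cmp f (z * (1 + (p : PowerSeries ℚ_[p]) * η)) - cmp f z) := by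
  have h1 := A5 p f z η n0 hf hz hη hzX
  have h2 : PO 1 (p * n0) ((p : PowerSeries ℚ_[p]) * η * cmp (th f) z) :=
    PO_mul_right (PO_mul_right (PO_p _) (hη _)) (PO_cmp' hzX (PO_th hf) (hz _))
  have e : cmp f (z * (1 + (p : PowerSeries ℚ_[p]) * η)) - cmp f z
      = (cmp f (z * (1 + (p : PowerSeries ℚ_[p]) * η))
        - (cmp f z + (p : PowerSeries ℚ_[p]) * η * cmp (th f) z))
        + (p : PowerSeries ℚ_[p]) * η * cmp (th f) z := by ring
  rw [e]
  exact PO_add (PO_mono (by norm_num) le_rfl h1) h2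

end Pool.Agent.Lib_helper91.FR
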