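import Pool.Agent.Lib_helper91.FR.A8

/-! Block A8b: the first integral Z2 for the truncation, mod p (all orders).
`F ≡ FT φF mod p` (A1), `θ(FT φF) ≡ θFT φF`, so Z2 gives `(φF)² [PD(2 FT θ²FT - (θFT)²) - ...] ≡ 0 mod p`; divide by the unit `(φF)²` (PO_of_mul). -/

namespace Pool.Agent.Lib_helper91.FR

open PowerSeries Finset

variable (p : ℕ) [Fact p.Prime]

theorem A8b_T (T : ℕ) : T ≤ p * T :=
  Nat.le_mul_of_pos_left T (Fact.out : p.Prime).pos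

theorem A8b_F (hp : 3 < p) (T : ℕ) :
    PO 1 T (FF ℚ_[p] - FT p * ph p ℚ_[p] (FF ℚ_[p])) := by
  have h1 := PO_mono (i := 1) (T := T) (by norm_num) le_rfl (A1 p hp T)
  have h2 : PO 1 T ((p : PowerSeries ℚ_[p]) * (GT p * ph p ℚ_[p] (th (FF ℚ_[p])))) := by
    apply A8_p
    exact PO_mul_left (PO_GT p _) (PO_ph (n0 := T) (A8b_T p T) (PO_th (PO_FF p _)))
  have h3 := PO_add h1 h2
  have e : FF ℚ_[p] - FT p * ph p ℚ_[p] (FF ℚ_[p]) =
      (FF ℚ_[p] - (FT p * ph p ℚ_[p] (FF ℚ_[p])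
      + (p : PowerSeries ℚ_[p]) * GT p * ph p ℚ_[p] (th (FF ℚ_[p])))) +
      (p : PowerSeries ℚ_[p]) * (GT p * ph p ℚ_[p] (th (FF ℚ_[p]))) := by ring
  rw [e]
  exact h3

theorem A8b_step (T : ℕ) {F G f g : PowerSeries ℚ_[p]} (iG : PO 0 T G) (ig : PO 0 T g)
    (hf : th f = (p : PowerSeries ℚ_[p]) * g) (h : PO 1 T (F - G * f)) :
    PO 1 T (th F - th G * f) := by
  have h1 := PO_th h
  rw [th_sub, th_mul, hf] at h1
  have h2 : PO 1 T ((p : PowerSeries ℚ_[p]) * (G * g)) := A8_p p T (PO_mul_left iG ig)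
  have e : th F - th G * f = (th F - (th G * f + G * ((p : PowerSeries ℚ_[p]) * g)))
      + (p : PowerSeries ℚ_[p]) * (G * g) := by ring
  rw [e]
  exact PO_add h1 h2

theorem A8b_cst1 (T : ℕ) : PO 0 T (28 * X + 256 * X ^ 2 : PowerSeries ℚ_[p]) := by
  have e : (28 * X + 256 * X ^ 2 : PowerSeries ℚ_[p]) =
      cst ℚ_[p] (28 * Polynomial.X + 256 * Polynomial.X ^ 2) := by
    simp only [map_add, map_mul, map_ofNat, cst_X, map_pow]
  rw [e]
  exact PO_cst _ _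

theorem A8b_cst2 (T : ℕ) : PO 0 T (8 * X + 96 * X ^ 2 : PowerSeries ℚ_[p]) := by
  have e : (8 * X + 96 * X ^ 2 : PowerSeries ℚ_[p]) =
      cst ℚ_[p] (8 * Polynomial.X + 96 * Polynomial.X ^ 2) := by
    simp only [map_add, map_mul, map_ofNat, cst_X, map_pow]
  rw [e]
  exact PO_cst _ _

theorem A8b (hp : 3 < p) (T : ℕ) :
    PO 1 T (PD ℚ_[p] * (2 * FT p * th (th (FT p)) - (th (FT p)) ^ 2)
      - ((28 * X + 256 * X ^ 2) * FT p * th (FT p) + (8 * X + 96 * X ^ 2) * (FT p) ^ 2)) := by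
  have hT := A8b_T p T
  have z2 := Z2 ℚ_[p]
  have h0 : constantCoeff (ph p ℚ_[p] (FF ℚ_[p])) = 1 := by
    rw [constantCoeff_ph, constantCoeff_FF]
  have hth : th (ph p ℚ_[p] (FF ℚ_[p])) =
      (p : PowerSeries ℚ_[p]) * ph p ℚ_[p] (th (FF ℚ_[p])) := th_ph p _
  have ig : PO 0 T (ph p ℚ_[p] (th (FF ℚ_[p]))) := PO_ph (n0 := T) hT (PO_th (PO_FF p _))
  have if' : PO 0 T (ph p ℚ_[p] (FF ℚ_[p])) := PO_ph (n0 := T) hT (PO_FF p _)
  have iF : PO 0 T (FF ℚ_[p]) := PO_FF p _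
  have iG : PO 0 T (FT p) := PO_FT p _
  have ha := A8b_F p hp T
  have hb := A8b_step p T iG ig hth ha
  have hc := A8b_step p T (PO_th iG) ig hth hb
  have iB : PO 0 T (PD ℚ_[p]) := A8_int p _
  have i1 := A8b_cst1 p T
  have i2 := A8b_cst2 p T
  generalize (28 * X + 256 * X ^ 2 : PowerSeries ℚ_[p]) = c1 at *
  generalize (8 * X + 96 * X ^ 2 : PowerSeries ℚ_[p]) = c2 at *
  have iF1 : PO 0 T (th (FF ℚ_[p])) := PO_th iF
  have iF2 : PO 0 T (th (th (FF ℚ_[p]))) := PO_th iF1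
  generalize PD ℚ_[p] = B at *
  generalize ph p ℚ_[p] (FF ℚ_[p]) = f at *
  generalize th (th (FF ℚ_[p])) = F2 at *
  generalize th (FF ℚ_[p]) = F1 at *
  generalize FF ℚ_[p] = F at *
  generalize th (th (FT p)) = G2 at *
  generalize th (FT p) = G1 at *
  generalize FT p = G at *
  obtain ⟨a, hae⟩ : ∃ a, a = F - G * f := ⟨_, rfl⟩
  obtain ⟨b, hbe⟩ : ∃ b, b = F1 - G1 * f := ⟨_, rfl⟩
  obtain ⟨c, hce⟩ : ∃ c, c = F2 - G2 * f := ⟨_, rfl⟩
  rw [← hae] at ha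
  rw [← hbe] at hb
  rw [← hce] at hc
  have ia : PO 0 T a := PO_mono (by norm_num) le_rfl ha
  have ib : PO 0 T b := PO_mono (by norm_num) le_rfl hb
  have i22 : PO 0 T (2 : PowerSeries ℚ_[p]) := by
    have := PO_natCast (p := p) 2 T
    exact_mod_cast this
  refine PO_of_mul (f := f ^ 2) (PO_pow if' 2) ?_ ?_
  · rw [map_pow, h0, one_pow, norm_one]
  have e : f ^ 2 * (B * (2 * G * G2 - G1 ^ 2) - (c1 * G * G1 + c2 * G ^ 2)) =
      (c1 * (F * b + a * (F1 - b)) + c2 * (a * (2 * F - a)))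
        - B * (2 * (c * (F - a) + a * F2) - b * (2 * F1 - b)) := by
    rw [hae, hbe, hce]
    linear_combination z2
  rw [e]
  refine PO_sub (PO_add (PO_mul_left i1 (PO_add (PO_mul_left iF hb)
    (PO_mul_right ha (PO_sub iF1 ib)))) (PO_mul_left i2 (PO_mul_right ha
    (PO_sub (PO_mul_left i22 iF) ia)))) (PO_mul_left iB (PO_sub (PO_mul_left i22
    (PO_add (PO_mul_right hc (PO_sub iF ia)) (PO_mul_right ha iF2)))
    (PO_mul_right hb (PO_sub (PO_mul_left i22 iF1) ib))))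

end Pool.Agent.Lib_helper91.FR
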