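import Pool.Agent.Lib_helper91.FR.Lead

/-! Block LD: `h₂ = X^{-d} u2`, `h₁ = X^{-1} u1`, `M = (U+VY)/(dW) = μ`.
H2: lead_evB for `S` (order `d`), `Q` (order `d-w`), `Y` (order `w`), and `hS0`; exists_unit.
H1: `H1 H2 = S² - Q² D` (`evB_D`) has pole order `d+1` and leading coefficient `κ²` (hNw, hN0); divide by H2.
R2: hUw, hVw, hU0, hWw, hW0.  R1: D2.
Integrality over `ℚ_p`: `u2`, `u1`, `μ` are products/quotients of integral series with unit leading coefficients. -/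

namespace Pool.Agent.Lib_helper91.FR

open PowerSeries Finset

namespace MD

variable (M : MD)

/-- expansions of `h₁, h₂, M` at the cusp -/
structure LDt (K : Type) [Field K] (P : M.LPt K) (u1 u2 μ : PowerSeries K) : Prop where
  c1 : constantCoeff u1 = 1
  c2 : constantCoeff u2 = 1
  cμ : constantCoeff μ = 1
  hH2 : P.toPt.ev M.H2 = cL K (C (M.kap : K)) * mon K (-(M.d : ℤ)) * cL K u2
  hH1 : P.toPt.ev M.H1 = cL K (C (M.kap : K)) * mon K (-1) * cL K u1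
  hW0 : P.toPt.evB M.W ≠ 0
  hR2 : P.toPt.ev M.R2 = cL K (C (M.d : K)) * P.toPt.evB M.W * cL K μ
  hR1 : cL K (C (M.d : K)) * P.toPt.ev M.R1 * cL K μ = P.toPt.evB M.W

theorem LD_field1 {F : Type} [Field F] (H1 H2 k m1 md N u v w : F) (h2 : H2 ≠ 0)
    (hH2 : H2 = k * md * u) (hN : H1 * H2 = N) (hN2 : N = k ^ 2 * (m1 * md) * v) (hw : w * u = v) :
    H1 = k * m1 * w := by
  apply mul_right_cancel₀ h2
  rw [hN, hN2, hH2, ← hw]
  ring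

theorem LD_leadY (hM : M.Valid) (K : Type) [Field K] (P : M.LPt K) (n m : ℕ) (hn : n = m + M.w)
    (b c : M.B) (hb : M.wd n b) (hc : M.wd m c) (l : ℤ) (hl : M.ld n b + M.ld m c * M.y0 = l) :
    OL (-(n : ℤ)) (P.toPt.evB b + P.toPt.evB c * P.Y) ∧
      (P.toPt.evB b + P.toPt.evB c * P.Y).coeff (-(n : ℤ)) = (l : K) := by
  obtain ⟨b1, b2⟩ := M.lead_evB hM K P n b hb
  obtain ⟨c1, c2⟩ := M.lead_evB hM K P m c hc
  have e1 : -(n : ℤ) = -(m : ℤ) + -(M.w : ℤ) := by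
    rw [hn]
    push_cast
    ring
  have d1 : OL (-(n : ℤ)) (P.toPt.evB c * P.Y) := by
    rw [e1]
    exact OL_mul c1 P.hYo
  have d2 : (P.toPt.evB c * P.Y).coeff (-(n : ℤ)) = (M.ld m c : K) * (M.y0 : K) := by
    rw [e1, coeff_mul_OL c1 P.hYo, c2, P.hYc]
  refine ⟨OL_add b1 d1, ?_⟩
  rw [HahnSeries.coeff_add, b2, d2, ← hl]
  push_cast
  rfl

theorem LD_H12 (K : Type) [Field K] (P : M.LPt K) :
    P.toPt.ev M.H1 * P.toPt.ev M.H2 = P.toPt.evB (M.S ^ 2 - M.Q ^ 2 * M.D) := by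
  rw [Pt.ev_H1, Pt.ev_H2, map_sub, map_mul, map_pow, map_pow, Pt.evB_D]
  ring

theorem exists_LD (hM : M.Valid) (K : Type) [Field K] [CharZero K] (P : M.LPt K) :
    ∃ u1 u2 μ : PowerSeries K, M.LDt K P u1 u2 μ := by
  have hwd := hM.hwd
  have hwom := hM.hwom
  have hkap : ((M.kap : ℤ) : K) ≠ 0 := by exact_mod_cast hM.nkap
  have hw0 : ((M.w0 : ℤ) : K) ≠ 0 := by exact_mod_cast hM.nw0
  have hd : ((M.d : ℕ) : K) ≠ 0 := by
    have := hM.hd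
    exact_mod_cast (by omega : M.d ≠ 0)
  -- H2
  obtain ⟨a1, a2⟩ := M.LD_leadY hM K P M.d (M.d - M.w) (by omega) M.S M.Q hM.hSw hM.hQw M.kap hM.hS0
  obtain ⟨u2, hu2, hH2⟩ := exists_unit a1 a2 hkap
  have hH2' : P.toPt.ev M.H2 = cL K (C (M.kap : K)) * mon K (-(M.d : ℤ)) * cL K u2 := hH2
  -- H1 H2
  obtain ⟨b1, b2⟩ := M.lead_evB hM K P (M.d + 1) _ hM.hNw
  rw [hM.hN0] at b2
  have hkap2 : (((M.kap ^ 2 : ℤ)) : K) ≠ 0 := by
    rw [Int.cast_pow]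
    exact pow_ne_zero 2 hkap
  obtain ⟨v, hv, hN⟩ := exists_unit b1 b2 hkap2
  have cu2 : constantCoeff u2 ≠ 0 := by rw [hu2]; exact one_ne_zero
  have hcu2 : cL K u2 ≠ 0 := by
    intro h0
    have : u2 = 0 := cL_injective (by rw [h0, map_zero])
    rw [this, map_zero] at cu2
    exact cu2 rfl
  have hck : cL K (C (M.kap : K)) ≠ 0 := by
    intro h0
    have h1 : C (M.kap : K) = (0 : PowerSeries K) := cL_injective (by rw [h0, map_zero])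
    have h2 : constantCoeff (C (M.kap : K)) = 0 := by rw [h1, map_zero]
    rw [constantCoeff_C] at h2
    exact hkap h2
  have hH2ne : P.toPt.ev M.H2 ≠ 0 := by
    rw [hH2']
    exact mul_ne_zero (mul_ne_zero hck (mon_ne_zero _)) hcu2
  have hH1 : P.toPt.ev M.H1 = cL K (C (M.kap : K)) * mon K (-1) * cL K (v * u2⁻¹) := by
    apply LD_field1 _ (P.toPt.ev M.H2) _ _ (mon K (-(M.d : ℤ))) _ (cL K u2) (cL K v) _ hH2ne hH2'
      (M.LD_H12 K P)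
    · rw [hN, ← mon_add, ← map_pow, ← map_pow, Int.cast_pow]
      have e : -(((M.d + 1 : ℕ)) : ℤ) = -1 + -(M.d : ℤ) := by push_cast; ring
      rw [e]
    · rw [← map_mul, mul_assoc, PowerSeries.inv_mul_cancel _ cu2, mul_one]
  -- W
  obtain ⟨w1, w2⟩ := M.lead_evB hM K P M.om M.W hM.hWw
  rw [hM.hW0] at w2
  have hW0 : P.toPt.evB M.W ≠ 0 := by
    intro h0
    rw [h0, HahnSeries.coeff_zero] at w2
    exact hw0 w2.symm
  obtain ⟨ω, hω, hW⟩ := exists_unit w1 w2 hw0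
  have cω : constantCoeff ω ≠ 0 := by rw [hω]; exact one_ne_zero
  -- R2
  obtain ⟨r1, r2⟩ := M.LD_leadY hM K P M.om (M.om - M.w) (by omega) M.U M.V hM.hUw hM.hVw
    (M.d * M.w0) hM.hU0
  have hdw : (((M.d * M.w0 : ℤ)) : K) ≠ 0 := by
    rw [Int.cast_mul, Int.cast_natCast]
    exact mul_ne_zero hd hw0
  obtain ⟨ρ, hρ, hR⟩ := exists_unit r1 r2 hdw
  have hR2 : P.toPt.ev M.R2 = cL K (C (M.d : K)) * P.toPt.evB M.W * cL K (ρ * ω⁻¹) := by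
    have h1 : P.toPt.ev M.R2 = cL K (C (((M.d * M.w0 : ℤ)) : K)) * mon K (-(M.om : ℤ)) * cL K ρ := hR
    have h2 : cL K ρ = cL K ω * cL K (ρ * ω⁻¹) := by
      rw [← map_mul]
      congr 1
      rw [mul_comm ρ, ← mul_assoc, PowerSeries.mul_inv_cancel _ cω, one_mul]
    have h3 : cL K (C (((M.d * M.w0 : ℤ)) : K)) = cL K (C (M.d : K)) * cL K (C (M.w0 : K)) := by
      rw [← map_mul, ← map_mul, Int.cast_mul, Int.cast_natCast]
    rw [h1, h2, h3, hW]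
    ring
  have hD2 : P.toPt.ev M.R2 * P.toPt.ev M.R1 = P.toPt.evB M.W ^ 2 := by
    rw [← map_mul, hM.D2, map_pow, Pt.ev_iB]
  refine ⟨v * u2⁻¹, u2, ρ * ω⁻¹, ?_, hu2, ?_, hH2', hH1, hW0, hR2, ?_⟩
  · rw [map_mul, PowerSeries.constantCoeff_inv, hv, hu2]
    simp
  · rw [map_mul, PowerSeries.constantCoeff_inv, hρ, hω]
    simp
  · apply mul_right_cancel₀ hW0
    rw [← sq, ← hD2, hR2]
    ring

theorem LD_IL_evB (p : ℕ) [Fact p.Prime] (P : M.LPt ℚ_[p]) (iη : IL 0 P.η) (b : M.B) :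
    IL 0 (P.toPt.evB b) := by
  have h : IL 0 (Lead_ae (mon ℚ_[p] (-2)) b.re + Lead_ae (mon ℚ_[p] (-2)) b.im * P.η) :=
    IL_add (Lead_IL_aeval p _) (IL_mul_left (Lead_IL_aeval p _) iη)
  rw [← P.hx] at h
  exact h

theorem LD_norm (p : ℕ) [Fact p.Prime] (a : ℤ) (h : ¬ (p : ℤ) ∣ a) : ‖(a : ℚ_[p])‖ = 1 := by
  have h4 : ¬ ‖(a : ℚ_[p])‖ < 1 := by
    rw [Padic.norm_intCast_lt_one_iff]
    exact h
  have h5 : ‖(a : ℚ_[p])‖ ≤ 1 := Padic.norm_int_le_one a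
  linarith [not_lt.1 h4]

theorem LD_IL_C (p : ℕ) [Fact p.Prime] (a : ℚ_[p]) (h : PI 0 a) : IL 0 (cL ℚ_[p] (C a)) :=
  IL_cL (fun _ => PO_C h)

/-- cancel a unit constant and a monomial -/
theorem LD_unit (p : ℕ) [Fact p.Prime] (k : ℚ_[p]) (hk : ‖k‖ = 1) (n : ℤ)
    (H : LaurentSeries ℚ_[p]) (hH : IL 0 H) (u : PowerSeries ℚ_[p])
    (h : H = cL ℚ_[p] (C k) * mon ℚ_[p] (-n) * cL ℚ_[p] u) : ∀ T, PO 0 T u := by
  have hk0 : k ≠ 0 := by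
    intro h0
    rw [h0, norm_zero] at hk
    exact zero_ne_one hk
  have h1 : cL ℚ_[p] u = cL ℚ_[p] (C k⁻¹) * (mon ℚ_[p] n * H) := by
    have e1 : cL ℚ_[p] (C k⁻¹) * cL ℚ_[p] (C k) = 1 := by
      rw [← map_mul, ← map_mul, inv_mul_cancel₀ hk0, map_one, map_one]
    have e2 : mon ℚ_[p] n * mon ℚ_[p] (-n) = 1 := by
      rw [← mon_add, add_neg_cancel, mon_zero]
    rw [h]
    calc cL ℚ_[p] u = (cL ℚ_[p] (C k⁻¹) * cL ℚ_[p] (C k)) * (mon ℚ_[p] n * mon ℚ_[p] (-n)) *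
          cL ℚ_[p] u := by rw [e1, e2, one_mul, one_mul]
      _ = _ := by ring
  intro T
  apply PO_of_IL_cL
  rw [h1]
  exact IL_mul_left (LD_IL_C p _ (PI_inv hk)) (IL_mul_left (IL_mon _) hH)

theorem LD_int (hM : M.Valid) (p : ℕ) [Fact p.Prime] (hG : M.Good p) (P : M.LPt ℚ_[p])
    (iη : IL 0 P.η) (iY : IL 0 P.Y) (u1 u2 μ : PowerSeries ℚ_[p]) (h : M.LDt ℚ_[p] P u1 u2 μ) :
    (∀ T, PO 0 T u1) ∧ (∀ T, PO 0 T u2) ∧ (∀ T, PO 0 T μ) := by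
  have hk := LD_norm p M.kap hG.hkap
  have hd : ‖(M.d : ℚ_[p])‖ = 1 := by
    have := LD_norm p (M.d : ℤ) hG.hd
    rwa [Int.cast_natCast] at this
  have i1 : IL 0 (P.toPt.ev M.H1) := by
    rw [Pt.ev_H1]
    exact IL_sub (M.LD_IL_evB p P iη _) (IL_mul_left (M.LD_IL_evB p P iη _) iY)
  have i2 : IL 0 (P.toPt.ev M.H2) :=
    IL_add (M.LD_IL_evB p P iη _) (IL_mul_left (M.LD_IL_evB p P iη _) iY)
  have i3 : IL 0 (P.toPt.ev M.R2) :=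
    IL_add (M.LD_IL_evB p P iη _) (IL_mul_left (M.LD_IL_evB p P iη _) iY)
  refine ⟨LD_unit p _ hk 1 _ i1 u1 h.hH1, LD_unit p _ hk M.d _ i2 u2 h.hH2, ?_⟩
  obtain ⟨w1, w2⟩ := M.lead_evB hM ℚ_[p] P M.om M.W hM.hWw
  rw [hM.hW0] at w2
  have hWn : ‖(P.toPt.evB M.W).coeff (-(M.om : ℤ))‖ = 1 := by
    rw [w2]
    exact LD_norm p M.w0 hG.hw0
  obtain ⟨hi, -⟩ := exists_unit_int (M.LD_IL_evB p P iη M.W) w1 hWn
  have hRW : (P.toPt.evB M.W)⁻¹ * P.toPt.ev M.R2 =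
      cL ℚ_[p] (C (M.d : ℚ_[p])) * mon ℚ_[p] (-0) * cL ℚ_[p] μ := by
    rw [h.hR2, neg_zero, mon_zero]
    have e : (P.toPt.evB M.W)⁻¹ * (cL ℚ_[p] (C (M.d : ℚ_[p])) * P.toPt.evB M.W * cL ℚ_[p] μ) =
        ((P.toPt.evB M.W)⁻¹ * P.toPt.evB M.W) * (cL ℚ_[p] (C (M.d : ℚ_[p])) * 1 * cL ℚ_[p] μ) := by
      ring
    rw [e, inv_mul_cancel₀ h.hW0, one_mul]
  exact LD_unit p _ hd 0 _ (IL_mul_left hi i3) μ hRW

end MD

end Pool.Agent.Lib_helper91.FR
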