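import Pool.Agent.Lib_helper91.FR.HF

/-! Block JCO: Taylor coefficients 0, 1, 2 of the functional equation (pure algebra over a commutative ring with `p² = 0`).
With `a_i = ∑ c_k z_i^k`: `dX a_i = (∑ k c_k z_i^k) λ_i`, `λ_i = dX z_i * h_i = - z_i dX h_i`, so `λ_i(0) = L_i`; `Ψ z2^p - 1 ∈ p` (hΨ3).
order 0: `f0 (tM0 + e0 tM1) - M0 f0 + c3(0) ((Ψ(0) v^p - 1) f0 + p g0) = 0`, `v^{p-1} = 1 - pm`, `(m - e0 m tL2) v^p - 1 = -pm - e0 tL2`; multiply by `tL2`, use hc.
order 1: `dX(Ψ z2^p) (0) = p GΨ(0) v^p + p Ψ(0) v^p L2 = p (L2 - tL2)`.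
order 2: multiply by `p`: `p c3 (..) = 0`, `p dX Φ = 0`;  `p dX² a_i (0) = p L_i² f2` when `p f1 = 0`. -/

namespace Pool.Agent.Lib_helper91.FR

open PowerSeries Finset

theorem JCO_dpow {K0 : Type} [CommRing K0] (z l : PowerSeries K0) (h : dX z = z * l) (k : ℕ) :
    dX (z ^ k) = (k : PowerSeries K0) * z ^ k * l := by
  induction k with
  | zero => rw [pow_zero, isDer_dX.one]; simp
  | succ k ih =>
    rw [pow_succ, isDer_dX.mul, ih, h]
    push_cast
    ring

theorem JCO_dnat {K0 : Type} [CommRing K0] (k : ℕ) : dX ((k : ℕ) : PowerSeries K0) = 0 := by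
  rw [← map_natCast (C (R := K0)) k, dX_C]

theorem JCO_dsum {K0 : Type} [CommRing K0] (s : Finset ℕ) (f : ℕ → PowerSeries K0) :
    dX (∑ k ∈ s, f k) = ∑ k ∈ s, dX (f k) := by
  simp only [dX, map_sum]

theorem JCO_dsm {K0 : Type} [CommRing K0] (p j : ℕ) (c : ℕ → ℕ) (z l : PowerSeries K0)
    (h : dX z = z * l) : dX (sm p j c z) = sm p (j + 1) c z * l := by
  unfold sm
  rw [JCO_dsum, Finset.sum_mul]
  refine Finset.sum_congr rfl fun k _ => ?_
  have h1 : ((k : ℕ) : PowerSeries K0) ^ j * (c k : PowerSeries K0) =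
      ((k ^ j * c k : ℕ) : PowerSeries K0) := by push_cast; ring
  rw [isDer_dX.mul, h1, JCO_dnat, JCO_dpow z l h]
  push_cast
  ring

theorem JCO_csm {K0 : Type} [CommRing K0] (p j : ℕ) (c : ℕ → ℕ) (z : PowerSeries K0) :
    constantCoeff (sm p j c z) = sm p j c (constantCoeff z) := by
  unfold sm
  simp only [map_sum, map_mul, map_pow, map_natCast]

theorem JCO_sm0 {K0 : Type} [CommRing K0] (p : ℕ) (c : ℕ → ℕ) (z : PowerSeries K0) :
    ∑ k ∈ range p, (c k : PowerSeries K0) * z ^ k = sm p 0 c z := by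
  unfold sm
  simp only [pow_zero, one_mul]

theorem JCO {K0 : Type} [CommRing K0] (p : ℕ) (hp : 3 < p) (hp2 : (p : K0) ^ 2 = 0) (c g : ℕ → ℕ)
    (h1 h2 z1 z2 Mm Φ Ψ c3 GΦ GΨ G3 Gc : PowerSeries K0)
    (v m pm q e0 e' tM0 tM1 tL2 M0 M1 L1 L2 f0 f1 f2 g0 g1 : K0)
    (hz1 : z1 * h1 = 1) (hz2 : z2 * h2 = 1) (hm1 : constantCoeff h1 = m) (hm2 : constantCoeff h2 = m)
    (hv : v * m = 1) (hpm : m ^ (p - 1) = 1 + pm) (hq : pm = (p : K0) * q) (he : e0 = (p : K0) * e')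
    (hΦ0 : constantCoeff Φ = tM0 + e0 * tM1) (hΦ1 : dX Φ = (p : PowerSeries K0) * GΦ)
    (hΦ2 : (p : K0) * constantCoeff GΦ = (p : K0) * tM1)
    (hΨ0 : constantCoeff Ψ = m - e0 * (m * tL2)) (hΨ1 : dX Ψ = (p : PowerSeries K0) * GΨ)
    (hΨ2 : (p : K0) * constantCoeff GΨ = -((p : K0) * (m * tL2)))
    (hΨ3 : Ψ = h2 ^ p + (p : PowerSeries K0) * G3)
    (hc : (p : K0) * constantCoeff c3 * tL2 = (p : K0) * tM1)
    (hc1 : dX c3 = (p : PowerSeries K0) * Gc)
    (hM0 : M0 = constantCoeff Mm) (hM1 : M1 = constantCoeff (dX Mm))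
    (hL1 : L1 = -v * constantCoeff (dX h1)) (hL2 : L2 = -v * constantCoeff (dX h2))
    (hf0 : f0 = sm p 0 c v) (hf1 : f1 = sm p 1 c v) (hf2 : f2 = sm p 2 c v)
    (hg0 : g0 = sm p 0 g v) (hg1 : g1 = sm p 1 g v)
    (hJ : (∑ k ∈ range p, (c k : PowerSeries K0) * z2 ^ k) * Φ
        - Mm * (∑ k ∈ range p, (c k : PowerSeries K0) * z1 ^ k)
        + c3 * ((Ψ * z2 ^ p - 1) * (∑ k ∈ range p, (c k : PowerSeries K0) * z2 ^ k)
            + (p : PowerSeries K0) * (∑ k ∈ range p, (g k : PowerSeries K0) * z2 ^ k)) = 0) :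
    tL2 * (f0 * (tM0 - M0)) + tM1 * ((p : K0) * g0 - pm * f0) = 0 ∧
    tL2 * (f1 * (L2 * tM0 - L1 * M0) - M1 * f0)
      + tM1 * L2 * ((p : K0) * f0 + (p : K0) * g1 - pm * f1) = 0 ∧
    ((p : K0) * f0 = 0 → (p : K0) * f1 = 0 →
      (p : K0) * (f2 * (L2 ^ 2 * tM0 - L1 ^ 2 * M0)) = 0) := by
  have hpS : (p : PowerSeries K0) ^ 2 = 0 := by
    have h := congrArg (C (R := K0)) hp2
    rw [map_pow, map_natCast, map_zero] at h
    exact h
  rw [JCO_sm0, JCO_sm0, JCO_sm0] at hJ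
  obtain ⟨l1, hl1, hl1'⟩ : ∃ l : PowerSeries K0, dX z1 = z1 * l ∧ l = -z1 * dX h1 := by
    refine ⟨_, ?_, rfl⟩
    have h := isDer_dX.mul z1 h1
    rw [hz1, isDer_dX.one] at h
    linear_combination (-z1) * h - dX z1 * hz1
  obtain ⟨l2, hl2, hl2'⟩ : ∃ l : PowerSeries K0, dX z2 = z2 * l ∧ l = -z2 * dX h2 := by
    refine ⟨_, ?_, rfl⟩
    have h := isDer_dX.mul z2 h2
    rw [hz2, isDer_dX.one] at h
    linear_combination (-z2) * h - dX z2 * hz2
  have cz1 : constantCoeff z1 = v := by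
    have h := congrArg constantCoeff hz1
    rw [map_mul, map_one, hm1] at h
    linear_combination v * h - constantCoeff z1 * hv
  have cz2 : constantCoeff z2 = v := by
    have h := congrArg constantCoeff hz2
    rw [map_mul, map_one, hm2] at h
    linear_combination v * h - constantCoeff z2 * hv
  have cl1 : constantCoeff l1 = L1 := by
    rw [hl1', map_mul, map_neg, cz1, hL1]
  have cl2 : constantCoeff l2 = L2 := by
    rw [hl2', map_mul, map_neg, cz2, hL2]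
  set A1 := sm p 0 c z1 with hA1
  set A2 := sm p 0 c z2 with hA2
  set B2 := sm p 0 g z2 with hB2
  set A1' := sm p 1 c z1 with hA1'
  set A2' := sm p 1 c z2 with hA2'
  set B2' := sm p 1 g z2 with hB2'
  set A1'' := sm p 2 c z1 with hA1''
  set A2'' := sm p 2 c z2 with hA2''
  have dA1 : dX A1 = A1' * l1 := JCO_dsm p 0 c z1 l1 hl1
  have dA2 : dX A2 = A2' * l2 := JCO_dsm p 0 c z2 l2 hl2
  have dB2 : dX B2 = B2' * l2 := JCO_dsm p 0 g z2 l2 hl2
  have dA1' : dX A1' = A1'' * l1 := JCO_dsm p 1 c z1 l1 hl1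
  have dA2' : dX A2' = A2'' * l2 := JCO_dsm p 1 c z2 l2 hl2
  have cA1 : constantCoeff A1 = f0 := by rw [hA1, JCO_csm, cz1, hf0]
  have cA2 : constantCoeff A2 = f0 := by rw [hA2, JCO_csm, cz2, hf0]
  have cB2 : constantCoeff B2 = g0 := by rw [hB2, JCO_csm, cz2, hg0]
  have cA1' : constantCoeff A1' = f1 := by rw [hA1', JCO_csm, cz1, hf1]
  have cA2' : constantCoeff A2' = f1 := by rw [hA2', JCO_csm, cz2, hf1]
  have cB2' : constantCoeff B2' = g1 := by rw [hB2', JCO_csm, cz2, hg1]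
  have cA1'' : constantCoeff A1'' = f2 := by rw [hA1'', JCO_csm, cz1, hf2]
  have cA2'' : constantCoeff A2'' = f2 := by rw [hA2'', JCO_csm, cz2, hf2]
  have hzp : (h2 * z2) ^ p = 1 := by rw [mul_comm, hz2, one_pow]
  rw [mul_pow] at hzp
  have hT : Ψ * z2 ^ p - 1 = (p : PowerSeries K0) * (G3 * z2 ^ p) := by
    rw [hΨ3]
    linear_combination hzp
  have pp1 : p = (p - 1) + 1 := by omega
  have hvp : v ^ p = v ^ (p - 1) * v := by
    conv_lhs => rw [pp1, pow_succ]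
  have hpm2 : pm ^ 2 = 0 := by
    rw [hq]
    linear_combination q ^ 2 * hp2
  have hvp1 : v ^ (p - 1) = 1 - pm := by
    have h : v ^ (p - 1) * m ^ (p - 1) = 1 := by rw [← mul_pow, hv, one_pow]
    rw [hpm] at h
    linear_combination (1 - pm) * h + v ^ (p - 1) * hpm2
  have hmv : m * v ^ p = 1 - pm := by
    rw [hvp, hvp1]
    linear_combination (1 - pm) * hv
  have hpe : (p : K0) * e0 = 0 := by
    rw [he]
    linear_combination e' * hp2
  have hppm : (p : K0) * pm = 0 := by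
    rw [hq]
    linear_combination q * hp2
  have hepm : e0 * pm = 0 := by
    rw [he, hq]
    linear_combination e' * q * hp2
  have cT : constantCoeff Ψ * v ^ p - 1 = -pm - e0 * tL2 := by
    rw [hΨ0]
    linear_combination (1 - e0 * tL2) * hmv + tL2 * hepm
  have ccz2p : constantCoeff (z2 ^ p) = v ^ p := by rw [map_pow, cz2]
  refine ⟨?_, ?_, ?_⟩
  · have h := congrArg constantCoeff hJ
    simp only [map_add, map_sub, map_mul, map_one, map_zero, map_natCast, ccz2p] at h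
    rw [cA1, cA2, cB2, ← hM0, hΦ0, cT] at h
    rw [he, hq] at h
    rw [hq]
    linear_combination tL2 * h - ((-q - e' * tL2) * f0 + g0) * hc
  · have h := congrArg dX hJ
    rw [isDer_dX.add, isDer_dX.sub, isDer_dX.mul, isDer_dX.mul, isDer_dX.mul, isDer_dX.add,
      isDer_dX.mul, isDer_dX.sub, isDer_dX.mul Ψ, isDer_dX.mul (p : PowerSeries K0), JCO_dnat,
      isDer_dX.zero, isDer_dX.one, JCO_dpow z2 l2 hl2, hΦ1, hΨ1, hc1, dA1, dA2, dB2] at h
    have h' := congrArg constantCoeff h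
    simp only [map_add, map_sub, map_mul, map_one, map_zero, map_natCast, ccz2p] at h'
    rw [cA1, cA2, cB2, cA1', cA2', cB2', cl1, cl2, ← hM0, ← hM1, hΦ0, cT] at h'
    have e1 : (p : K0) * constantCoeff Ψ = (p : K0) * m := by
      rw [hΨ0]
      linear_combination (-m * tL2) * hpe
    have e2 : (p : K0) * (m * v ^ p) = (p : K0) := by
      rw [hmv]
      linear_combination (-1 : K0) * hppm
    rw [he, hq] at h'
    rw [hq]
    linear_combination tL2 * h' - tL2 * f0 * hΦ2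
      - (tL2 * constantCoeff Gc * ((-q - e' * tL2) * f0 + g0)) * hp2
      - constantCoeff c3 * tL2 * f0 * v ^ p * hΨ2
      - constantCoeff c3 * tL2 * f0 * v ^ p * L2 * e1
      - constantCoeff c3 * tL2 * f0 * (L2 - tL2) * e2
      - (f0 * (L2 - tL2) + (-q - e' * tL2) * f1 * L2 + g1 * L2) * hc
  · intro p0 p1
    have h : (p : PowerSeries K0) * (A2 * Φ - Mm * A1) = 0 := by
      rw [hT] at hJ
      linear_combination (p : PowerSeries K0) * hJ - c3 * ((G3 * z2 ^ p) * A2 + B2) * hpS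
    have h' := congrArg dX h
    rw [isDer_dX.mul, JCO_dnat, isDer_dX.zero, isDer_dX.sub, isDer_dX.mul, isDer_dX.mul, hΦ1, dA1,
      dA2] at h'
    have h'' : (p : PowerSeries K0) * (A2' * l2 * Φ - (dX Mm * A1 + Mm * (A1' * l1))) = 0 := by
      linear_combination h' - A2 * GΦ * hpS
    have k := congrArg dX h''
    rw [isDer_dX.mul, JCO_dnat, isDer_dX.zero, isDer_dX.sub, isDer_dX.mul, isDer_dX.mul,
      isDer_dX.add, isDer_dX.mul, isDer_dX.mul Mm, isDer_dX.mul A1', hΦ1, dA1, dA1', dA2'] at k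
    have k' := congrArg constantCoeff k
    simp only [map_add, map_sub, map_mul, map_one, map_zero, map_natCast] at k'
    rw [cA1, cA1', cA2', cA1'', cA2'', cl1, cl2, ← hM0, ← hM1, hΦ0] at k'
    linear_combination k' - (constantCoeff (dX l2) * (tM0 + e0 * tM1) - 2 * M1 * L1
        - M0 * constantCoeff (dX l1)) * p1 + constantCoeff (dX (dX Mm)) * p0
      - f2 * L2 ^ 2 * tM1 * hpe - f1 * L2 * constantCoeff GΦ * hp2


end Pool.Agent.Lib_helper91.FR
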