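import Pool.Agent.Lib_helper91.FR.JPT
import Pool.Agent.Lib_helper91.FR.JCO
import Pool.Agent.Lib_helper91.FR.FIN
import Pool.Agent.Lib_helper91.FR.BIGJ
import Pool.Agent.Lib_helper91.FR.SS

/-! Block BIG: the congruence for large primes.  χ = (D0/p): `D0^{(p-1)/2} = ±1` in `ZMod p`.
JPT with `hJ = Jh_dvd`; CMN; JCO with `K0 = QK`, `v = iK v`, `c = bb`, `g = gl p`, `pm = m^{p-1} - 1`, `e0 = x0^p - x0` (divisible by `p`),
`sm p j a (iK v) = iK (sm p j a v)`; FIN with `χP = (1-28v-128v²)^{(p-1)/2}`, SSW and SS at the image of `v` in `ZMod p`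
(`p x = 0` in `ZMod p²` iff `x ↦ 0` in `ZMod p`).  Finally `(m-32)(m+4) = m² (1-28v-128v²)`, `p m^{p-1} = p`, `p D0^{(p-1)/2} = p χ`. -/

namespace Pool.Agent.Lib_helper91.FR

open PowerSeries Finset

/-- reduction mod `p` -/
noncomputable def BIG_pi (p : ℕ) : ZMod (p ^ 2) →+* ZMod p :=
  ZMod.castHom (dvd_pow_self p two_ne_zero) (ZMod p)

theorem BIG_pi_iff (p : ℕ) [hp : Fact p.Prime] (x : ZMod (p ^ 2)) :
    (p : ZMod (p ^ 2)) * x = 0 ↔ BIG_pi p x = 0 := by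
  have : NeZero (p ^ 2) := ⟨pow_ne_zero 2 hp.out.ne_zero⟩
  obtain ⟨n, rfl⟩ : ∃ n : ℕ, (n : ZMod (p ^ 2)) = x := ⟨x.val, ZMod.natCast_zmod_val x⟩
  rw [BIG_pi, map_natCast, ← Nat.cast_mul, ZMod.natCast_eq_zero_iff, ZMod.natCast_eq_zero_iff, pow_two]
  exact Nat.mul_dvd_mul_iff_left hp.out.pos

theorem BIG_sub (p : ℕ) [hp : Fact p.Prime] (x y : ZMod (p ^ 2)) (h : BIG_pi p x = BIG_pi p y) :
    (p : ZMod (p ^ 2)) * x = (p : ZMod (p ^ 2)) * y := by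
  have h1 : (p : ZMod (p ^ 2)) * (x - y) = 0 := by
    rw [BIG_pi_iff, map_sub, h, sub_self]
  rwa [mul_sub, sub_eq_zero] at h1

theorem BIG_sm {R T : Type} [CommRing R] [CommRing T] (f : R →+* T) (p j : ℕ) (a : ℕ → ℕ) (v : R) :
    f (sm p j a v) = sm p j a (f v) := by
  simp only [sm, map_sum, map_mul, map_pow, map_natCast]

/-- integers killed mod `p` -/
theorem BIG_fermat (p : ℕ) [hp : Fact p.Prime] (x : ℤ) : (p : ℤ) ∣ x ^ p - x := by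
  rw [← ZMod.intCast_zmod_eq_zero_iff_dvd]
  push_cast
  rw [ZMod.pow_card, sub_self]

theorem BIG_fermat' (p : ℕ) [hp : Fact p.Prime] (x : ℤ) (h : ¬ (p : ℤ) ∣ x) : (p : ℤ) ∣ x ^ (p - 1) - 1 := by
  rw [← ZMod.intCast_zmod_eq_zero_iff_dvd]
  push_cast
  rw [ZMod.pow_card_sub_one_eq_one, sub_self]
  rwa [Ne, ZMod.intCast_zmod_eq_zero_iff_dvd]

/-- the number-theoretic end of the proof, given the Taylor coefficients -/
theorem BIG_end (p : ℕ) [Fact p.Prime] (h3 : 3 < p) (D0 χ : ℤ) (hχ : χ = 1 ∨ χ = -1)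
    (hχD : ((D0 : ℤ) : ZMod p) ^ ((p - 1) / 2) = ((χ : ℤ) : ZMod p))
    (m a b d s : ℤ) (hm : ¬ (p : ℤ) ∣ m) (hP : ¬ (p : ℤ) ∣ (m - 32) * (m + 4))
    (e0 : ℤ) (he : (p : ℤ) ∣ e0)
    (v : ZMod (p ^ 2)) (hv : v * ((m : ℤ) : ZMod (p ^ 2)) = 1)
    (h1 h2 z1 z2 Mm Φ Ψ c3 : PowerSeries (QK p D0))
    (hm1 : constantCoeff h1 = ((m : ℤ) : QK p D0)) (hm2 : constantCoeff h2 = ((m : ℤ) : QK p D0))
    (hN : MD.Num p D0 a b d s (-(iK p D0 v) * constantCoeff (dX h1)) (-(iK p D0 v) * constantCoeff (dX h2))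
      (constantCoeff Mm) (constantCoeff (dX Mm)))
    (hz1 : z1 * h1 = 1) (hz2 : z2 * h2 = 1)
    (HM : HF p D0 χ e0 Mm Φ) (HH : HF p D0 χ e0 h2 Ψ)
    (hc1 : ∃ Gc : PowerSeries (QK p D0), dX c3 = (p : PowerSeries (QK p D0)) * Gc)
    (hc : (p : QK p D0) * constantCoeff c3
          * tau p D0 χ (-(constantCoeff z2) * constantCoeff (dX h2))
        = (p : QK p D0) * tau p D0 χ (constantCoeff (dX Mm)))
    (hJ : (∑ k ∈ range p, (bb k : PowerSeries (QK p D0)) * z2 ^ k) * Φ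
        - Mm * (∑ k ∈ range p, (bb k : PowerSeries (QK p D0)) * z1 ^ k)
        + c3 * ((Ψ * z2 ^ p - 1)
              * (∑ k ∈ range p, (bb k : PowerSeries (QK p D0)) * z2 ^ k)
            + (p : PowerSeries (QK p D0))
              * (∑ k ∈ range p, (gl p k : PowerSeries (QK p D0)) * z2 ^ k)) = 0) :
    (a : ZMod (p ^ 2)) * sm p 1 bb v + (b : ZMod (p ^ 2)) * sm p 0 bb v
      = (b : ZMod (p ^ 2)) * (p : ZMod (p ^ 2))
        * (((m - 32) * (m + 4) * D0 : ℤ) : ZMod (p ^ 2)) ^ ((p - 1) / 2) := by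
  have hpp : p.Prime := Fact.out
  -- numbers in QK
  have hvK : iK p D0 v * ((m : ℤ) : QK p D0) = 1 := by
    rw [← map_intCast (iK p D0) m, ← map_mul, hv, map_one]
  obtain ⟨t, ht⟩ := BIG_fermat' p m hm
  obtain ⟨e', he'⟩ := he
  have tv : tau p D0 χ (iK p D0 v) = iK p D0 v := tau_iK p D0 χ v
  have hz20 : constantCoeff z2 = iK p D0 v := by
    have h := congrArg constantCoeff hz2
    rw [map_mul, hm2, map_one] at h
    calc constantCoeff z2 = constantCoeff z2 * (((m : ℤ) : QK p D0) * iK p D0 v) := by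
          rw [mul_comm ((m : ℤ) : QK p D0), hvK, mul_one]
      _ = iK p D0 v := by rw [← mul_assoc, h, one_mul]
  have tneg : ∀ x : QK p D0, tau p D0 χ (-x) = - tau p D0 χ x := by
    intro x
    unfold tau
    ext <;> simp
  have tL2 : ((m : ℤ) : QK p D0) * tau p D0 χ (-(iK p D0 v) * constantCoeff (dX h2))
      = - tau p D0 χ (constantCoeff (dX h2)) := by
    rw [neg_mul, tneg, tau_mul p D0 χ hχ, tv]
    linear_combination (-tau p D0 χ (constantCoeff (dX h2))) * hvK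
  have tm : tau p D0 χ ((m : ℤ) : QK p D0) = ((m : ℤ) : QK p D0) := by
    rw [← map_intCast (iK p D0) m, tau_iK]
  obtain ⟨GΦ, hGΦ1, hGΦ2⟩ := HM.c1
  obtain ⟨GΨ, hGΨ1, hGΨ2⟩ := HH.c1
  obtain ⟨G3, hG3⟩ := HH.c2
  obtain ⟨Gc, hGc⟩ := hc1
  set pmZ : ZMod (p ^ 2) := ((m : ℤ) : ZMod (p ^ 2)) ^ (p - 1) - 1 with hpmZ
  have hq : pmZ = (p : ZMod (p ^ 2)) * ((t : ℤ) : ZMod (p ^ 2)) := by
    rw [hpmZ]
    have := congrArg (Int.cast : ℤ → ZMod (p ^ 2)) ht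
    push_cast at this
    exact this
  obtain ⟨J0, J1, J2⟩ := JCO (K0 := QK p D0) p h3 (QK_p_sq p D0) bb (gl p) h1 h2 z1 z2 Mm Φ Ψ c3 GΦ GΨ
    G3 Gc (iK p D0 v) ((m : ℤ) : QK p D0) (iK p D0 pmZ) (iK p D0 ((t : ℤ) : ZMod (p ^ 2)))
    ((e0 : ℤ) : QK p D0) ((e' : ℤ) : QK p D0) (tau p D0 χ (constantCoeff Mm))
    (tau p D0 χ (constantCoeff (dX Mm))) (tau p D0 χ (-(iK p D0 v) * constantCoeff (dX h2)))
    (constantCoeff Mm) (constantCoeff (dX Mm)) (-(iK p D0 v) * constantCoeff (dX h1))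
    (-(iK p D0 v) * constantCoeff (dX h2)) (iK p D0 (sm p 0 bb v)) (iK p D0 (sm p 1 bb v))
    (iK p D0 (sm p 2 bb v)) (iK p D0 (sm p 0 (gl p) v)) (iK p D0 (sm p 1 (gl p) v))
    hz1 hz2 hm1 hm2 hvK
    (by rw [hpmZ, map_sub, map_pow, map_intCast, map_one]; ring)
    (by rw [hq, map_mul, map_natCast])
    (by rw [he']; push_cast; ring)
    HM.c0 hGΦ1 hGΦ2
    (by rw [HH.c0, hm2, tm, tL2]; ring)
    hGΨ1
    (by rw [hGΨ2, tL2]; ring)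
    hG3
    (by rw [← hz20]; exact hc)
    hGc rfl rfl rfl rfl
    (BIG_sm _ _ _ _ _) (BIG_sm _ _ _ _ _) (BIG_sm _ _ _ _ _) (BIG_sm _ _ _ _ _) (BIG_sm _ _ _ _ _)
    hJ
  -- the image of `v`
  have hvp : BIG_pi p v * ((m : ℤ) : ZMod p) = 1 := by
    rw [← map_intCast (BIG_pi p) m, ← map_mul, hv, map_one]
  have hv0 : BIG_pi p v ≠ 0 := by
    intro h
    rw [h, zero_mul] at hvp
    exact zero_ne_one hvp
  have hm0 : ((m : ℤ) : ZMod p) ≠ 0 := by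
    rwa [Ne, ZMod.intCast_zmod_eq_zero_iff_dvd]
  have hPP : ((m : ℤ) : ZMod p) ^ 2 * (1 - 28 * BIG_pi p v - 128 * BIG_pi p v ^ 2)
      = (((m - 32) * (m + 4) : ℤ) : ZMod p) := by
    push_cast
    linear_combination (-28 * ((m : ℤ) : ZMod p) - 128 * (BIG_pi p v * ((m : ℤ) : ZMod p) + 1)) * hvp
  have hP0 : 1 - 28 * BIG_pi p v - 128 * BIG_pi p v ^ 2 ≠ 0 := by
    intro h
    rw [h, mul_zero] at hPP
    exact hP ((ZMod.intCast_zmod_eq_zero_iff_dvd _ p).1 hPP.symm)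
  set χP : ZMod (p ^ 2) := (1 - 28 * v - 128 * v ^ 2) ^ ((p - 1) / 2) with hχP
  have hπP : BIG_pi p χP = (1 - 28 * BIG_pi p v - 128 * BIG_pi p v ^ 2) ^ ((p - 1) / 2) := by
    rw [hχP]
    simp only [map_pow, map_sub, map_mul, map_one, map_ofNat]
  have fin := FIN p h3 D0 χ hχ a b d s _ _ _ _ hN (sm p 0 bb v) (sm p 1 bb v) (sm p 2 bb v)
    (sm p 0 (gl p) v) (sm p 1 (gl p) v) χP pmZ ((t : ℤ) : ZMod (p ^ 2)) hq J0 J1 J2
    (by
      rw [BIG_pi_iff]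
      simp only [map_sub, map_add, map_mul, map_pow, BIG_sm, hπP]
      have h := SSW p h3 (BIG_pi p v)
      linear_combination h)
    (by
      intro h0
      rw [BIG_pi_iff, BIG_sm] at h0
      obtain ⟨q1, q2, q3, q4⟩ := SS p h3 (BIG_pi p v) hv0 hP0 h0
      refine ⟨?_, ?_, ?_, ?_⟩
      · rw [BIG_pi_iff, BIG_sm]; exact q1
      · rw [BIG_pi_iff, BIG_sm]; exact q2
      · rw [BIG_pi_iff, map_add, BIG_sm, q3, hπP]; ring
      · rw [Ne, BIG_pi_iff, BIG_sm]; exact q4)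
  rw [fin]
  have hfin : (p : ZMod (p ^ 2)) * (χP * ((χ : ℤ) : ZMod (p ^ 2)))
      = (p : ZMod (p ^ 2)) * (((m - 32) * (m + 4) * D0 : ℤ) : ZMod (p ^ 2)) ^ ((p - 1) / 2) := by
    apply BIG_sub
    rw [map_mul, hπP, map_pow, map_intCast, map_intCast, ← hχD]
    have h2 : ((m : ℤ) : ZMod p) ^ (p - 1) = 1 := ZMod.pow_card_sub_one_eq_one hm0
    have heven : 2 * ((p - 1) / 2) = p - 1 := by
      rcases hpp.eq_two_or_odd with h | h <;> omega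
    have e1 : (((m - 32) * (m + 4) * D0 : ℤ) : ZMod p)
        = ((m : ℤ) : ZMod p) ^ 2 * (1 - 28 * BIG_pi p v - 128 * BIG_pi p v ^ 2) * ((D0 : ℤ) : ZMod p) := by
      rw [hPP]
      push_cast
      ring
    rw [e1, mul_pow, mul_pow, ← pow_mul, heven, h2, one_mul]
  linear_combination ((b : ℤ) : ZMod (p ^ 2)) * hfin

theorem MD.big (M : MD) (p : ℕ) [Fact p.Prime] (hM : M.Valid) (hG : M.Good p) (hB : M.Big p)
    {x0 n0 m a b s : ℤ} (hpt : M.Point x0 n0 m a b s) (hg : M.GoodPt x0 n0 m b p)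
    (v : ZMod (p ^ 2)) (hv : v * ((m : ℤ) : ZMod (p ^ 2)) = 1) :
    (a : ZMod (p ^ 2)) * sm p 1 bb v + (b : ZMod (p ^ 2)) * sm p 0 bb v
      = (b : ZMod (p ^ 2)) * (p : ZMod (p ^ 2))
        * (((m - 32) * (m + 4) * M.evI x0 n0 M.D : ℤ) : ZMod (p ^ 2)) ^ ((p - 1) / 2) := by
  have hpp : p.Prime := Fact.out
  have h3 : 3 < p := hG.h3
  obtain ⟨P⟩ := M.exists_PPt p h3 hpt hg
  -- the character of D0
  have hD0 : ((M.evI x0 n0 M.D : ℤ) : ZMod p) ≠ 0 := by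
    rw [Ne, ZMod.intCast_zmod_eq_zero_iff_dvd]
    exact hg.hD
  have hodd : (p - 1) / 2 = p / 2 := by
    rcases hpp.eq_two_or_odd with h | h <;> omega
  obtain ⟨χ, hχ, hχD⟩ : ∃ χ : ℤ, (χ = 1 ∨ χ = -1) ∧
      ((M.evI x0 n0 M.D : ℤ) : ZMod p) ^ ((p - 1) / 2) = ((χ : ℤ) : ZMod p) := by
    rw [hodd]
    rcases ZMod.pow_div_two_eq_neg_one_or_one p hD0 with h | h
    · exact ⟨1, Or.inl rfl, by rw [h]; simp⟩
    · exact ⟨-1, Or.inr rfl, by rw [h]; simp⟩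
  obtain ⟨h1, h2, z1, z2, Mm, Φ, Ψ, c3, hh1, hh2, hz1, hz2, hMm, HM, HH, hc1, hc, hJ⟩ :=
    M.JPT p hM hG hpt hg P χ hχ hχD (M.Jh_dvd p hM hG hB)
  have hvK : iK p (M.evI x0 n0 M.D) v * ((m : ℤ) : QK p (M.evI x0 n0 M.D)) = 1 := by
    rw [← map_intCast (iK p (M.evI x0 n0 M.D)) m, ← map_mul, hv, map_one]
  obtain ⟨hm1, hm2, hN⟩ := M.CMN p hM hG hpt hg P h1 h2 Mm (iK p (M.evI x0 n0 M.D) v) hvK hh1 hh2 hMm
  exact BIG_end p h3 (M.evI x0 n0 M.D) χ hχ hχD m a b M.d s hg.hm hg.hP (x0 ^ p - x0) (BIG_fermat p x0)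
    v hv h1 h2 z1 z2 Mm Φ Ψ c3 hm1 hm2 hN hz1 hz2 HM HH hc1 hc hJ

end Pool.Agent.Lib_helper91.FR
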