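import Pool.Agent.Lib_helper91.FR.Small

/-! Block Chars: the characters.  `jacobiSym.at_neg_one`, `jacobiSym.quadratic_reciprocity`, `legendreSym.to_jacobiSym`, `jacobiSym.mod_left`;
`(-3/p) = (p/3)`, `(-7/p) = (p/7)`, `(-31/p) = (p/31)`: QR, then `(p/3)` depends on `p % 3` (`jacobiSym` of residues by `decide`/`norm_num`).
e1..e31: Euler's criterion (`ZMod.euler_criterion`, `legendreSym.eq_pow`), squares prime to `p` dropped. -/

namespace Pool.Agent.Lib_helper91.FR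

theorem Chars_odd {p : ℕ} (hp : p.Prime) (h3 : 3 < p) : Odd p :=
  hp.odd_of_ne_two (by omega)

theorem Chars_res {p : ℕ} (hp : p.Prime) {q : ℕ} (hq : 1 < q) (h : p ≠ q) : p % q ≠ 0 := by
  intro h0
  rcases (Nat.dvd_prime hp).1 (Nat.dvd_of_mod_eq_zero h0) with h1 | h1
  · omega
  · exact h h1.symm

theorem Chars_qr {q p : ℕ} (hq : q % 4 = 3) (hp : Odd p) :
    jacobiSym (-(q : ℤ)) p = jacobiSym (p : ℤ) q := by
  rw [jacobiSym.neg _ hp]
  have hq' : Odd q := by rw [Nat.odd_iff]; omega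
  have hp' : p % 2 = 1 := Nat.odd_iff.1 hp
  rcases (show p % 4 = 1 ∨ p % 4 = 3 by omega) with h | h
  · rw [jacobiSym.quadratic_reciprocity_one_mod_four' hq' h, ZMod.χ₄_nat_one_mod_four h, one_mul]
  · rw [jacobiSym.quadratic_reciprocity_three_mod_four hq h, ZMod.χ₄_nat_three_mod_four h]
    ring

theorem jac_neg_one (p : ℕ) (hp : p.Prime) (h3 : 3 < p) : jacobiSym (-1) p = ch1 p := by
  rw [jacobiSym.at_neg_one (Chars_odd hp h3), ZMod.χ₄_nat_eq_if_mod_four, ch1]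
  have h2 : p % 2 = 1 := Nat.odd_iff.1 (Chars_odd hp h3)
  rw [if_neg (by omega)]

theorem jac3 (p : ℕ) (hp : p.Prime) (h3 : 3 < p) : jacobiSym (p : ℤ) 3 = ch3 p := by
  have h0 := Chars_res hp (q := 3) (by norm_num) (by omega)
  have hlt : p % 3 < 3 := Nat.mod_lt _ (by norm_num)
  rw [jacobiSym.mod_left, ch3]
  have e : (p : ℤ) % (3 : ℕ) = ((p % 3 : ℕ) : ℤ) := (Int.natCast_mod p 3).symm
  rw [e]
  generalize p % 3 = r at h0 hlt
  interval_cases r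
  · exact absurd rfl h0
  · norm_num
  · norm_num

theorem jac7 (p : ℕ) (hp : p.Prime) (h3 : 3 < p) (h7 : p ≠ 7) : jacobiSym (p : ℤ) 7 = ch7 p := by
  have h0 := Chars_res hp (q := 7) (by norm_num) h7
  have hlt : p % 7 < 7 := Nat.mod_lt _ (by norm_num)
  rw [jacobiSym.mod_left, ch7]
  have e : (p : ℤ) % (7 : ℕ) = ((p % 7 : ℕ) : ℤ) := (Int.natCast_mod p 7).symm
  rw [e]
  generalize p % 7 = r at h0 hlt
  interval_cases r
  · exact absurd rfl h0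
  all_goals norm_num

theorem jac31 (p : ℕ) (hp : p.Prime) (h3 : 3 < p) (h31 : p ≠ 31) : jacobiSym (-31) p = ch31 p := by
  have h := Chars_qr (q := 31) (p := p) (by norm_num) (Chars_odd hp h3)
  have e0 : (-((31 : ℕ) : ℤ)) = -31 := by norm_num
  rw [e0] at h
  rw [h]
  have h0 := Chars_res hp (q := 31) (by norm_num) h31
  have hlt : p % 31 < 31 := Nat.mod_lt _ (by norm_num)
  rw [jacobiSym.mod_left, ch31]
  have e : (p : ℤ) % (31 : ℕ) = ((p % 31 : ℕ) : ℤ) := (Int.natCast_mod p 31).symm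
  rw [e]
  generalize p % 31 = r at h0 hlt
  interval_cases r
  · exact absurd rfl h0
  all_goals norm_num

variable (p : ℕ) [Fact p.Prime]

theorem Chars_eul (h3 : 3 < p) {s : ℤ} (hs : ¬ (p : ℤ) ∣ s) {d c : ℤ} (h : jacobiSym d p = c) :
    (((d * s ^ 2 : ℤ)) : ZMod p) ^ ((p - 1) / 2) = ((c : ℤ) : ZMod p) := by
  have hp : p.Prime := Fact.out
  have hodd : p % 2 = 1 := Nat.odd_iff.1 (Chars_odd hp h3)
  have h1 := legendreSym.eq_pow p (d * s ^ 2)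
  have h2 : p / 2 = (p - 1) / 2 := by omega
  rw [h2] at h1
  rw [← h1, jacobiSym.legendreSym.to_jacobiSym, jacobiSym.mul_left]
  have hg : s.gcd p = 1 := by
    have hc : IsCoprime (p : ℤ) s :=
      (Prime.coprime_iff_not_dvd (Nat.prime_iff_prime_int.1 hp)).2 hs
    exact Int.isCoprime_iff_gcd_eq_one.1 hc.symm
  rw [jacobiSym.sq_one' hg, mul_one, h]

theorem eul1 (h3 : 3 < p) (s : ℤ) (hs : ¬ (p : ℤ) ∣ s) :
    (((-1 * s ^ 2 : ℤ)) : ZMod p) ^ ((p - 1) / 2) = ((ch1 p : ℤ) : ZMod p) :=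
  Chars_eul p h3 hs (jac_neg_one p Fact.out h3)

theorem eul3 (h3 : 3 < p) (s : ℤ) (hs : ¬ (p : ℤ) ∣ s) :
    (((-3 * s ^ 2 : ℤ)) : ZMod p) ^ ((p - 1) / 2) = ((ch3 p : ℤ) : ZMod p) := by
  have h := Chars_qr (q := 3) (p := p) (by norm_num) (Chars_odd Fact.out h3)
  have e0 : (-((3 : ℕ) : ℤ)) = -3 := by norm_num
  rw [e0] at h
  exact Chars_eul p h3 hs (h.trans (jac3 p Fact.out h3))

theorem eul7 (h3 : 3 < p) (h7 : p ≠ 7) (s : ℤ) (hs : ¬ (p : ℤ) ∣ s) :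
    (((-7 * s ^ 2 : ℤ)) : ZMod p) ^ ((p - 1) / 2) = ((ch7 p : ℤ) : ZMod p) := by
  have h := Chars_qr (q := 7) (p := p) (by norm_num) (Chars_odd Fact.out h3)
  have e0 : (-((7 : ℕ) : ℤ)) = -7 := by norm_num
  rw [e0] at h
  exact Chars_eul p h3 hs (h.trans (jac7 p Fact.out h3 h7))

theorem eul31 (h3 : 3 < p) (h31 : p ≠ 31) (s : ℤ) (hs : ¬ (p : ℤ) ∣ s) :
    (((-31 * s ^ 2 : ℤ)) : ZMod p) ^ ((p - 1) / 2) = ((ch31 p : ℤ) : ZMod p) :=
  Chars_eul p h3 hs (jac31 p Fact.out h3 h31)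

end Pool.Agent.Lib_helper91.FR
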