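import Pool.Agent.Lib_helper91.FR.Defs

/-! Modular correspondence data of degrees 5, 11, 17 on `X_0(6)+` (checked in ChkV). -/

namespace Pool.Agent.Lib_helper91.FR

/-- data as lists of coefficients (constant term first); a pair stands for `re + im η` -/
structure LDat where
  d : ℕ
  e : ℕ
  w : ℕ
  om : ℕ
  e0 : ℤ
  y0 : ℤ
  w0 : ℤ
  kap : ℤ
  E : List ℤ
  D : List ℤ × List ℤ
  S : List ℤ × List ℤ
  Q : List ℤ × List ℤ
  U : List ℤ × List ℤ
  V : List ℤ × List ℤ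
  W : List ℤ × List ℤ
  L : List ℤ × List ℤ
  Ld : List ℤ × List ℤ
  Mt : List ℤ × List ℤ
  Nt : List ℤ × List ℤ

/-- the data with polynomials -/
noncomputable def LDat.toMD (T : LDat) : MD where
  d := T.d
  e := T.e
  w := T.w
  om := T.om
  e0 := T.e0
  y0 := T.y0
  w0 := T.w0
  kap := T.kap
  E := pl T.E
  D := ⟨pl T.D.1, pl T.D.2⟩
  S := ⟨pl T.S.1, pl T.S.2⟩
  Q := ⟨pl T.Q.1, pl T.Q.2⟩
  U := ⟨pl T.U.1, pl T.U.2⟩
  V := ⟨pl T.V.1, pl T.V.2⟩
  W := ⟨pl T.W.1, pl T.W.2⟩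
  L := ⟨pl T.L.1, pl T.L.2⟩
  Ld := ⟨pl T.Ld.1, pl T.Ld.2⟩
  Mt := ⟨pl T.Mt.1, pl T.Mt.2⟩
  Nt := ⟨pl T.Nt.1, pl T.Nt.2⟩

/-- degree 5 -/
def T5 : LDat where
  d := 5
  e := 1
  w := 2
  om := 3
  e0 := 1
  y0 := 1
  w0 := 5
  kap := 2
  E := [0, 1]
  D := ([-36, -7, 1], [-48, 6])
  S := ([-56, -50, 10], [-149, 20, 1])
  Q := ([-15, 7], [7, 1])
  U := ([-23, 95], [139, 13])
  V := ([44], [12])
  W := ([265, 55], [235, 5])
  L := ([1060, 220], [940, 20])
  Ld := ([5], [1])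
  Mt := ([384, 128], [376, 8])
  Nt := ([53, 11], [47, 1])

/-- degree 5 -/
noncomputable def M5 : MD := T5.toMD

/-- degree 11 -/
def T11 : LDat where
  d := 11
  e := 1
  w := 3
  om := 6
  e0 := 1
  y0 := 1
  w0 := 11
  kap := 2
  E := [0, 1]
  D := ([-84, 41, -10, 1], [-72, 32, -4])
  S := ([-224, 1056, -935, 209, 33, -11], [144, -726, 781, -297, 33, 1])
  Q := ([0, 78, -101, 22, 1], [-72, 69, 12, -9])
  U := ([1120, -998, 73, 61], [-1392, 1277, -301])
  V := ([56, -184], [100, 60])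
  W := ([-1232, 462, 55, 11], [792, -429, -11])
  L := ([2464, -1100, 44], [-352, 308, 44])
  Ld := ([-1], [1])
  Mt := ([2688, -1976, 336, 40], [-176, 792, -304, 8])
  Nt := ([-112, 42, 5, 1], [72, -39, -1])

/-- degree 11 -/
noncomputable def M11 : MD := T11.toMD

/-- degree 17 -/
def T17 : LDat where
  d := 17
  e := 3
  w := 4
  om := 11
  e0 := 2
  y0 := 2
  w0 := 34
  kap := 8
  E := [9, -6, -7, 4]
  D := ([-270, 124, 30, -32, 4], [-70, 26, -4])
  S := ([1300, -1224, -4182, 4454, 1598, -2788, 646, 102, -34], [420, -220, -1314, 920, 278, -286, 40, 2])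
  Q := ([0, 150, -115, -160, 130, 10, -15], [0, 46, -13, -43, 17, 1])
  U := ([-12585, 23965, -6386, -9710, 6235, -1007], [-4125, 6658, -2244, -274, 145])
  V := ([-450, -164, 898, -364], [-170, -10, 72])
  W := ([16575, -21131, 2142, 4794, -1309, 17], [5355, -4590, 476, 102, 17])
  L := ([-269280, 307904, -46784, -39168, 11424, 1088], [-84320, 54944, -7072, 1632])
  Ld := ([1], [])
  Mt := ([68160, -108864, 26016, 36928, -21632, 2048, 416], [23360, -29056, 9504, 1824, -928, 32])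
  Nt := ([-325, 306, 60, -74, 1], [-105, 55, 9, 1])

/-- degree 17 -/
noncomputable def M17 : MD := T17.toMD

end Pool.Agent.Lib_helper91.FR
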