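import Pool.Agent.Lib_helper91.FR.AlgApi
import Pool.Agent.Lib_helper91.FR.Data

/-! Block ChkP: the CM points and the unit conditions for large `p`.
All numbers in `GoodPt`, `Good` have prime factors in {2,3,5,7,11,13,17,19,29,31,109}, except that `109 ∣ b` for `m = -2704` (threshold 113).
Values (evI): for `m = -16`: D0 = -36, δQ, δS powers of 2, U,V,W = 64, 8, -80.  Evaluate by `simp [pl, Polynomial.derivative...]`/`norm_num`, or
through list evaluation.  A number `N` with `p ∣ N`, `p ≥ 67`: factor `N` and use `Nat.Prime.dvd_mul`, `Nat.le_of_dvd`. -/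

namespace Pool.Agent.Lib_helper91.FR

/-- value of a list of coefficients -/
def ChkP_l : List ℤ → ℤ → ℤ
  | [], _ => 0
  | a :: l, x => a + x * ChkP_l l x

/-- value of the derivative of a list of coefficients -/
def ChkP_d : List ℤ → ℤ → ℤ
  | [], _ => 0
  | _ :: l, x => ChkP_l l x + x * ChkP_d l x

theorem ChkP_pl (l : List ℤ) (x : ℤ) : (pl l).eval x = ChkP_l l x := by
  induction l with
  | nil => simp [pl, ChkP_l]
  | cons a l ih => simp [pl, ChkP_l, ih]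

theorem ChkP_dl (l : List ℤ) (x : ℤ) :
    (Polynomial.derivative (pl l)).eval x = ChkP_d l x := by
  induction l with
  | nil => simp [pl, ChkP_d]
  | cons a l ih => simp [pl, ChkP_d, ih, ChkP_pl]

/-- value of a pair -/
def ChkP_e (b : List ℤ × List ℤ) (x n : ℤ) : ℤ := ChkP_l b.1 x + ChkP_l b.2 x * n

/-- value of the derivative of a pair -/
def ChkP_b (E : List ℤ) (b : List ℤ × List ℤ) (x n : ℤ) : ℤ :=
  2 * ChkP_l E x * ChkP_d b.2 x + ChkP_l b.2 x * ChkP_d E x + 2 * ChkP_d b.1 x * n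

theorem ChkP_evI (T : LDat) (b : List ℤ × List ℤ) (x n : ℤ) :
    T.toMD.evI x n (⟨pl b.1, pl b.2⟩ : T.toMD.B) = ChkP_e b x n := by
  simp only [MD.evI, ChkP_e, ChkP_pl]

theorem ChkP_evdB (T : LDat) (b : List ℤ × List ℤ) (x n : ℤ) :
    T.toMD.evI x n (T.toMD.dB (⟨pl b.1, pl b.2⟩ : T.toMD.B)) = ChkP_b T.E b x n := by
  have hE : T.toMD.E = pl T.E := rfl
  simp only [MD.evI, MD.dB, dq, ChkP_b, hE, Polynomial.eval_add, Polynomial.eval_mul,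
    ChkP_pl, ChkP_dl, Polynomial.eval_ofNat]

/-- the check of a point on lists -/
def ChkP_pt (T : LDat) (x0 n0 m a b s : ℤ) : Prop :=
  n0 ^ 2 = ChkP_l T.E x0 ∧ ChkP_e T.Q x0 n0 = 0 ∧ ChkP_e T.S x0 n0 = T.kap * m ∧
  a * ChkP_e T.Mt x0 n0 * m * T.kap =
    4 * b * ChkP_e T.Nt x0 n0 * ChkP_e T.D x0 n0 * ChkP_b T.E T.Q x0 n0 ∧
  (s = 1 ∨ s = -1) ∧
  ChkP_b T.E T.S x0 n0 * ChkP_e T.W x0 n0 =
    s * (ChkP_b T.E T.S x0 n0 * ChkP_e T.U x0 n0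
      - ChkP_b T.E T.Q x0 n0 * ChkP_e T.V x0 n0 * ChkP_e T.D x0 n0) ∧
  ChkP_b T.E T.Q x0 n0 * ChkP_e T.W x0 n0 =
    s * (ChkP_b T.E T.S x0 n0 * ChkP_e T.V x0 n0 - ChkP_b T.E T.Q x0 n0 * ChkP_e T.U x0 n0)

theorem ChkP_point (T : LDat) (x0 n0 m a b s : ℤ) (h : ChkP_pt T x0 n0 m a b s) :
    T.toMD.Point x0 n0 m a b s := by
  obtain ⟨h1, h2, h3, h4, h5, h6, h7⟩ := h
  have eE : T.toMD.E.eval x0 = ChkP_l T.E x0 := ChkP_pl _ _
  have eQ : T.toMD.evI x0 n0 T.toMD.Q = ChkP_e T.Q x0 n0 := ChkP_evI T T.Q x0 n0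
  have eS : T.toMD.evI x0 n0 T.toMD.S = ChkP_e T.S x0 n0 := ChkP_evI T T.S x0 n0
  have eM : T.toMD.evI x0 n0 T.toMD.Mt = ChkP_e T.Mt x0 n0 := ChkP_evI T T.Mt x0 n0
  have eN : T.toMD.evI x0 n0 T.toMD.Nt = ChkP_e T.Nt x0 n0 := ChkP_evI T T.Nt x0 n0
  have eD : T.toMD.evI x0 n0 T.toMD.D = ChkP_e T.D x0 n0 := ChkP_evI T T.D x0 n0
  have eU : T.toMD.evI x0 n0 T.toMD.U = ChkP_e T.U x0 n0 := ChkP_evI T T.U x0 n0
  have eV : T.toMD.evI x0 n0 T.toMD.V = ChkP_e T.V x0 n0 := ChkP_evI T T.V x0 n0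
  have eW : T.toMD.evI x0 n0 T.toMD.W = ChkP_e T.W x0 n0 := ChkP_evI T T.W x0 n0
  have edQ : T.toMD.evI x0 n0 (T.toMD.dB T.toMD.Q) = ChkP_b T.E T.Q x0 n0 := ChkP_evdB T T.Q x0 n0
  have edS : T.toMD.evI x0 n0 (T.toMD.dB T.toMD.S) = ChkP_b T.E T.S x0 n0 := ChkP_evdB T T.S x0 n0
  have ek : T.toMD.kap = T.kap := rfl
  refine ⟨?_, ?_, ?_, ?_, h5, ?_, ?_⟩
  · rw [eE]; exact h1
  · rw [eQ]; exact h2
  · rw [eS, ek]; exact h3
  · rw [eM, eN, eD, edQ, ek]; exact h4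
  · rw [edS, edQ, eW, eU, eV, eD]; exact h6
  · rw [edS, edQ, eW, eU, eV]; exact h7

theorem P5a : M5.Point 9 (-3) (-16) 3 1 1 := by
  refine ChkP_point T5 _ _ _ _ _ _ ?_
  unfold ChkP_pt
  decide

theorem P5b : M5.Point 1 1 (-112) 9 2 (-1) := by
  refine ChkP_point T5 _ _ _ _ _ _ ?_
  unfold ChkP_pt
  decide

theorem P11a : M11.Point 16 4 (-2704) 855 109 (-1) := by
  refine ChkP_point T11 _ _ _ _ _ _ ?_
  unfold ChkP_pt
  decide

theorem P17a : M17.Point 2 (-1) (-49) 15 4 (-1) := by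
  refine ChkP_point T17 _ _ _ _ _ _ ?_
  unfold ChkP_pt
  decide

theorem P17b : M17.Point (-1) 2 (-400) 99 17 1 := by
  refine ChkP_point T17 _ _ _ _ _ _ ?_
  unfold ChkP_pt
  decide

theorem P17c : M17.Point 9 48 (-24304) 585 58 (-1) := by
  refine ChkP_point T17 _ _ _ _ _ _ ?_
  unfold ChkP_pt
  decide

theorem D5a : M5.evI 9 (-3) M5.D = -36 := by
  refine (ChkP_evI T5 T5.D _ _).trans ?_
  decide

theorem D5b : M5.evI 1 1 M5.D = -84 := by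
  refine (ChkP_evI T5 T5.D _ _).trans ?_
  decide

theorem D11a : M11.evI 16 4 M11.D = -228 := by
  refine (ChkP_evI T11 T11.D _ _).trans ?_
  decide

theorem D17a : M17.evI 2 (-1) M17.D = -60 := by
  refine (ChkP_evI T17 T17.D _ _).trans ?_
  decide

theorem D17b : M17.evI (-1) 2 M17.D = -528 := by
  refine (ChkP_evI T17 T17.D _ _).trans ?_
  decide

theorem D17c : M17.evI 9 48 M17.D = -1488 := by
  refine (ChkP_evI T17 T17.D _ _).trans ?_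
  decide

/-- product of the small primes which occur -/
def ChkP_R : ℕ := 2 * 3 * 5 * 7 * 11 * 13 * 17 * 19 * 29 * 31

theorem ChkP_nd (p : ℕ) (hp : p.Prime) (h : 67 ≤ p) (N : ℤ) (hN : N.natAbs ∣ ChkP_R ^ 12) :
    ¬ (p : ℤ) ∣ N := by
  intro hd
  have h1 : p ∣ N.natAbs := by
    have := Int.natAbs_dvd_natAbs.mpr hd
    simpa using this
  have h2 : p ∣ ChkP_R := hp.dvd_of_dvd_pow (h1.trans hN)
  unfold ChkP_R at h2
  simp only [hp.dvd_mul] at h2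
  rcases h2 with ((((((((h2 | h2) | h2) | h2) | h2) | h2) | h2) | h2) | h2) | h2 <;>
  · have := Nat.le_of_dvd (by norm_num) h2
    omega

theorem ChkP_nd' (p : ℕ) (hp : p.Prime) (h : 113 ≤ p) (N : ℤ)
    (hN : N.natAbs ∣ (ChkP_R * 109) ^ 12) :
    ¬ (p : ℤ) ∣ N := by
  intro hd
  have h1 : p ∣ N.natAbs := by
    have := Int.natAbs_dvd_natAbs.mpr hd
    simpa using this
  have h2 : p ∣ ChkP_R * 109 := hp.dvd_of_dvd_pow (h1.trans hN)
  unfold ChkP_R at h2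
  simp only [hp.dvd_mul] at h2
  rcases h2 with (((((((((h2 | h2) | h2) | h2) | h2) | h2) | h2) | h2) | h2) | h2) | h2 <;>
  · have := Nat.le_of_dvd (by norm_num) h2
    omega

/-- the divisibility conditions of a point on lists -/
def ChkP_gp (R : ℕ) (T : LDat) (x0 n0 m b : ℤ) : Prop :=
  x0.natAbs ∣ R ∧ n0.natAbs ∣ R ∧ m.natAbs ∣ R ∧ b.natAbs ∣ R ∧
  ((m - 32) * (m + 4)).natAbs ∣ R ∧ (ChkP_e T.D x0 n0).natAbs ∣ R ∧
  (ChkP_b T.E T.Q x0 n0).natAbs ∣ R ∧ (ChkP_b T.E T.S x0 n0).natAbs ∣ R ∧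
  (ChkP_e T.V x0 n0).natAbs ∣ R ∧ (ChkP_e T.W x0 n0).natAbs ∣ R ∧ (ChkP_e T.Nt x0 n0).natAbs ∣ R

theorem ChkP_goodpt (R : ℕ) (T : LDat) (x0 n0 m b : ℤ) (p : ℕ)
    (hR : ∀ N : ℤ, N.natAbs ∣ R → ¬ (p : ℤ) ∣ N) (h : ChkP_gp R T x0 n0 m b) :
    T.toMD.GoodPt x0 n0 m b p := by
  obtain ⟨h1, h2, h3, h4, h5, h6, h7, h8, h9, h10, h11⟩ := h
  have eN : T.toMD.evI x0 n0 T.toMD.Nt = ChkP_e T.Nt x0 n0 := ChkP_evI T T.Nt x0 n0
  have eD : T.toMD.evI x0 n0 T.toMD.D = ChkP_e T.D x0 n0 := ChkP_evI T T.D x0 n0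
  have eV : T.toMD.evI x0 n0 T.toMD.V = ChkP_e T.V x0 n0 := ChkP_evI T T.V x0 n0
  have eW : T.toMD.evI x0 n0 T.toMD.W = ChkP_e T.W x0 n0 := ChkP_evI T T.W x0 n0
  have edQ : T.toMD.evI x0 n0 (T.toMD.dB T.toMD.Q) = ChkP_b T.E T.Q x0 n0 := ChkP_evdB T T.Q x0 n0
  have edS : T.toMD.evI x0 n0 (T.toMD.dB T.toMD.S) = ChkP_b T.E T.S x0 n0 := ChkP_evdB T T.S x0 n0
  refine ⟨hR _ h1, hR _ h2, hR _ h3, hR _ h4, hR _ h5, ?_, ?_, ?_, ?_, ?_, ?_⟩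
  · rw [eD]; exact hR _ h6
  · rw [edQ]; exact hR _ h7
  · rw [edS]; exact hR _ h8
  · rw [eV]; exact hR _ h9
  · rw [eW]; exact hR _ h10
  · rw [eN]; exact hR _ h11

variable (p : ℕ) (hp : p.Prime)

include hp

theorem good5 (h : 67 ≤ p) : M5.Good p := by
  refine ⟨by omega, ?_, ?_, ?_, ?_, ?_⟩
  · exact ChkP_nd p hp h ((5 : ℕ) : ℤ) (by decide)
  · exact ChkP_nd p hp h 1 (by decide)
  · exact ChkP_nd p hp h 1 (by decide)
  · exact ChkP_nd p hp h 5 (by decide)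
  · exact ChkP_nd p hp h 2 (by decide)

theorem good11 (h : 113 ≤ p) : M11.Good p := by
  refine ⟨by omega, ?_, ?_, ?_, ?_, ?_⟩
  · exact ChkP_nd p hp (by omega) ((11 : ℕ) : ℤ) (by decide)
  · exact ChkP_nd p hp (by omega) 1 (by decide)
  · exact ChkP_nd p hp (by omega) 1 (by decide)
  · exact ChkP_nd p hp (by omega) 11 (by decide)
  · exact ChkP_nd p hp (by omega) 2 (by decide)

theorem good17 (h : 199 ≤ p) : M17.Good p := by
  refine ⟨by omega, ?_, ?_, ?_, ?_, ?_⟩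
  · exact ChkP_nd p hp (by omega) ((17 : ℕ) : ℤ) (by decide)
  · exact ChkP_nd p hp (by omega) 2 (by decide)
  · exact ChkP_nd p hp (by omega) 2 (by decide)
  · exact ChkP_nd p hp (by omega) 34 (by decide)
  · exact ChkP_nd p hp (by omega) 8 (by decide)

theorem G5a (h : 67 ≤ p) : M5.GoodPt 9 (-3) (-16) 1 p := by
  refine ChkP_goodpt (ChkP_R ^ 12) T5 _ _ _ _ p (ChkP_nd p hp h) ?_
  unfold ChkP_gp
  decide

theorem G5b (h : 67 ≤ p) : M5.GoodPt 1 1 (-112) 2 p := by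
  refine ChkP_goodpt (ChkP_R ^ 12) T5 _ _ _ _ p (ChkP_nd p hp h) ?_
  unfold ChkP_gp
  decide

theorem G11a (h : 113 ≤ p) : M11.GoodPt 16 4 (-2704) 109 p := by
  refine ChkP_goodpt ((ChkP_R * 109) ^ 12) T11 _ _ _ _ p (ChkP_nd' p hp h) ?_
  unfold ChkP_gp
  decide

theorem G17a (h : 199 ≤ p) : M17.GoodPt 2 (-1) (-49) 4 p := by
  refine ChkP_goodpt (ChkP_R ^ 12) T17 _ _ _ _ p (ChkP_nd p hp (by omega)) ?_
  unfold ChkP_gp
  decide

theorem G17b (h : 199 ≤ p) : M17.GoodPt (-1) 2 (-400) 17 p := by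
  refine ChkP_goodpt (ChkP_R ^ 12) T17 _ _ _ _ p (ChkP_nd p hp (by omega)) ?_
  unfold ChkP_gp
  decide

theorem G17c (h : 199 ≤ p) : M17.GoodPt 9 48 (-24304) 58 p := by
  refine ChkP_goodpt (ChkP_R ^ 12) T17 _ _ _ _ p (ChkP_nd p hp (by omega)) ?_
  unfold ChkP_gp
  decide

theorem big5 (h : 67 ≤ p) : M5.Big p := by
  have h1 : M5.tot = 31 := by decide
  have h2 : M5.om = 3 := rfl
  unfold MD.Big T0 nz
  rw [h1, h2]
  have h3 : 34 ≤ (p + 1) / 2 := by omega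
  have h4 := Nat.mul_le_mul_left p h3
  omega

theorem big11 (h : 113 ≤ p) : M11.Big p := by
  have h1 : M11.tot = 55 := by decide
  have h2 : M11.om = 6 := rfl
  unfold MD.Big T0 nz
  rw [h1, h2]
  have h3 : 57 ≤ (p + 1) / 2 := by omega
  have h4 := Nat.mul_le_mul_left p h3
  omega

theorem big17 (h : 199 ≤ p) : M17.Big p := by
  have h1 : M17.tot = 99 := by decide
  have h2 : M17.om = 11 := rfl
  unfold MD.Big T0 nz
  rw [h1, h2]
  have h3 : 100 ≤ (p + 1) / 2 := by omega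
  have h4 := Nat.mul_le_mul_left p h3
  omega

end Pool.Agent.Lib_helper91.FR
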