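import Pool.Agent.Lib_helper91.FR.AlgApi
import Pool.Agent.Lib_helper91.FR.Data

/-! Block ChkV: the conditions `Valid` for the three data sets, by kernel computation with lists of integers.
`ChkV_Alg` is a computable model of a ring with a derivation; `ChkV_Alg.quad` is the model of the quadratic extension with the
derivation `dq`.  Level 0: lists (polynomials); level 1: `B`; level 2: `A`. -/

namespace Pool.Agent.Lib_helper91.FR

/-! ### Lists -/

/-- cons, dropping a trailing zero -/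
def ChkV_cons (a : ℤ) : List ℤ → List ℤ
  | [] => if a == 0 then [] else [a]
  | b :: m => a :: b :: m

def ChkV_add : List ℤ → List ℤ → List ℤ
  | [], b => b
  | a :: l, [] => a :: l
  | a :: l, b :: m => ChkV_cons (a + b) (ChkV_add l m)

def ChkV_sm (c : ℤ) : List ℤ → List ℤ
  | [] => []
  | a :: l => (c * a) :: ChkV_sm c l

def ChkV_mul0 : List ℤ → List ℤ → List ℤ
  | [], _ => []
  | a :: l, m => ChkV_add (ChkV_sm a m) (0 :: ChkV_mul0 l m)

def ChkV_mul (l : List ℤ) : List ℤ → List ℤ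
  | [] => []
  | b :: m => ChkV_mul0 l (b :: m)

def ChkV_der : List ℤ → List ℤ
  | [] => []
  | _ :: l => ChkV_add l (0 :: ChkV_der l)

def ChkV_all0 : List ℤ → Bool
  | [] => true
  | a :: l => (a == 0) && ChkV_all0 l

theorem ChkV_pl_cons (a : ℤ) (l : List ℤ) :
    pl (ChkV_cons a l) = Polynomial.C a + Polynomial.X * pl l := by
  cases l with
  | nil =>
    by_cases h : a = 0
    · subst h
      simp [ChkV_cons, pl]
    · simp [ChkV_cons, pl, h]
  | cons b m => rfl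

theorem ChkV_pl_add : ∀ a b : List ℤ, pl (ChkV_add a b) = pl a + pl b
  | [], b => by simp [ChkV_add, pl]
  | a :: l, [] => by simp [ChkV_add, pl]
  | a :: l, b :: m => by
      simp only [ChkV_add, ChkV_pl_cons, pl, ChkV_pl_add l m, map_add]
      ring

theorem ChkV_pl_sm (c : ℤ) : ∀ a : List ℤ, pl (ChkV_sm c a) = Polynomial.C c * pl a
  | [] => by simp [ChkV_sm, pl]
  | a :: l => by
      simp only [ChkV_sm, pl, ChkV_pl_sm c l, map_mul]
      ring

theorem ChkV_pl_mul0 : ∀ a b : List ℤ, pl (ChkV_mul0 a b) = pl a * pl b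
  | [], b => by simp [ChkV_mul0, pl]
  | a :: l, m => by
      simp only [ChkV_mul0, pl, ChkV_pl_add, ChkV_pl_sm, ChkV_pl_mul0 l m, map_zero]
      ring

theorem ChkV_pl_mul (a b : List ℤ) : pl (ChkV_mul a b) = pl a * pl b := by
  cases b with
  | nil => simp [ChkV_mul, pl]
  | cons b m => exact ChkV_pl_mul0 a (b :: m)

theorem ChkV_pl_der : ∀ l : List ℤ, pl (ChkV_der l) = Polynomial.derivative (pl l)
  | [] => by simp [ChkV_der, pl]
  | a :: l => by
      simp only [ChkV_der, pl, ChkV_pl_add, ChkV_pl_der l, map_zero, map_add,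
        Polynomial.derivative_mul, Polynomial.derivative_C, Polynomial.derivative_X]
      ring

theorem ChkV_pl_all0 : ∀ l : List ℤ, ChkV_all0 l = true → pl l = 0
  | [], _ => rfl
  | a :: l, h => by
      rw [ChkV_all0, Bool.and_eq_true] at h
      have h1 : a = 0 := by simpa using h.1
      rw [pl, ChkV_pl_all0 l h.2, h1]
      simp

theorem ChkV_ne_zero : ∀ l : List ℤ, ChkV_all0 l = false → pl l ≠ 0
  | [], h => by simp [ChkV_all0] at h
  | a :: l, h => by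
      intro h0
      rw [ChkV_all0, Bool.and_eq_false_iff] at h
      rw [pl] at h0
      have ha : a = 0 := by
        have := congrArg (fun f => Polynomial.coeff f 0) h0
        simpa using this
      have hl : pl l = 0 := by
        rw [ha] at h0
        simpa using h0
      rcases h with h | h
      · rw [ha] at h
        simp at h
      · exact ChkV_ne_zero l h hl

/-- coefficients -/
def ChkV_co : List ℤ → ℕ → ℤ
  | [], _ => 0
  | a :: _, 0 => a
  | _ :: l, n + 1 => ChkV_co l n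

theorem ChkV_coeff : ∀ (l : List ℤ) (n : ℕ), (pl l).coeff n = ChkV_co l n
  | [], n => by simp [pl, ChkV_co]
  | a :: l, 0 => by simp [pl, ChkV_co]
  | a :: l, n + 1 => by
      rw [pl, Polynomial.coeff_add, Polynomial.coeff_C_succ, Polynomial.coeff_X_mul, zero_add,
        ChkV_coeff l n, ChkV_co]

/-- degree bound: all coefficients of index `> n` vanish -/
def ChkV_deg : ℕ → List ℤ → Bool
  | _, [] => true
  | 0, _ :: l => ChkV_all0 l
  | n + 1, _ :: l => ChkV_deg n l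

theorem ChkV_natDegree : ∀ (n : ℕ) (l : List ℤ), ChkV_deg n l = true → (pl l).natDegree ≤ n
  | n, [], _ => by simp [pl]
  | 0, a :: l, h => by
      rw [pl, ChkV_pl_all0 l h]
      simp
  | n + 1, a :: l, h => by
      have ih := ChkV_natDegree n l h
      rw [pl]
      refine (Polynomial.natDegree_add_le _ _).trans (max_le ?_ ?_)
      · simp
      · refine (Polynomial.natDegree_mul_le).trans ?_
        rw [Polynomial.natDegree_X]
        omega

/-! ### Models -/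

/-- a computable ring with derivation -/
structure ChkV_Alg (α : Type) where
  add : α → α → α
  mul : α → α → α
  neg : α → α
  der : α → α
  cst : ℤ → α
  isz : α → Bool

/-- correctness -/
structure ChkV_Alg.Ok {α : Type} (M : ChkV_Alg α) {R : Type} [CommRing R] (D : R → R) (f : α → R) :
    Prop where
  add : ∀ a b, f (M.add a b) = f a + f b
  mul : ∀ a b, f (M.mul a b) = f a * f b
  neg : ∀ a, f (M.neg a) = -f a
  der : ∀ a, f (M.der a) = D (f a)
  cst : ∀ c : ℤ, f (M.cst c) = (c : R)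
  isz : ∀ a, M.isz a = true → f a = 0

/-- the quadratic extension -/
def ChkV_Alg.quad {α : Type} (M : ChkV_Alg α) (a : α) : ChkV_Alg (α × α) where
  add x y := (M.add x.1 y.1, M.add x.2 y.2)
  mul x y := (M.add (M.mul x.1 y.1) (M.mul a (M.mul x.2 y.2)), M.add (M.mul x.1 y.2) (M.mul x.2 y.1))
  neg x := (M.neg x.1, M.neg x.2)
  der x := (M.add (M.mul (M.cst 2) (M.mul a (M.der x.2))) (M.mul x.2 (M.der a)),
    M.mul (M.cst 2) (M.der x.1))
  cst c := (M.cst c, M.cst 0)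
  isz x := M.isz x.1 && M.isz x.2

theorem ChkV_Alg.Ok.quad {α : Type} {M : ChkV_Alg α} {R : Type} [CommRing R] {D : R → R} {f : α → R}
    (h : M.Ok D f) (a : α) :
    (M.quad a).Ok (dq D (f a)) (fun x => (⟨f x.1, f x.2⟩ : QuadraticAlgebra R (f a) 0)) where
  add x y := by
    ext
    · simp [ChkV_Alg.quad, h.add]
    · simp [ChkV_Alg.quad, h.add]
  mul x y := by
    ext
    · simp [ChkV_Alg.quad, h.add, h.mul, mul_assoc]
    · simp [ChkV_Alg.quad, h.add, h.mul]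
  neg x := by
    ext
    · simp [ChkV_Alg.quad, h.neg]
    · simp [ChkV_Alg.quad, h.neg]
  der x := by
    ext
    · simp [ChkV_Alg.quad, h.add, h.mul, h.cst, h.der, dq, mul_assoc]
    · simp [ChkV_Alg.quad, h.mul, h.cst, h.der, dq]
  cst c := by
    ext
    · simp [ChkV_Alg.quad, h.cst]
    · simp [ChkV_Alg.quad, h.cst]
  isz x hx := by
    have hx' : (M.isz x.1 && M.isz x.2) = true := hx
    rw [Bool.and_eq_true] at hx'
    ext
    · simp [h.isz _ hx'.1]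
    · simp [h.isz _ hx'.2]

/-- lists -/
def ChkV_L : ChkV_Alg (List ℤ) where
  add := ChkV_add
  mul := ChkV_mul
  neg := ChkV_sm (-1)
  der := ChkV_der
  cst c := if c == 0 then [] else [c]
  isz := ChkV_all0

theorem ChkV_L_ok : ChkV_L.Ok (fun f : Polynomial ℤ => Polynomial.derivative f) pl where
  add := ChkV_pl_add
  mul := ChkV_pl_mul
  neg a := by
    show pl (ChkV_sm (-1) a) = -pl a
    rw [ChkV_pl_sm]
    simp
  der := ChkV_pl_der
  cst c := by
    show pl (if c == 0 then [] else [c]) = (c : Polynomial ℤ)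
    by_cases h : c = 0
    · subst h
      simp [pl]
    · simp [pl, h]
  isz := ChkV_pl_all0

/-! ### The check -/

section

variable (T : LDat)

def ChkV_B : ChkV_Alg (List ℤ × List ℤ) := ChkV_L.quad T.E

def ChkV_A : ChkV_Alg ((List ℤ × List ℤ) × (List ℤ × List ℤ)) := (ChkV_B T).quad T.D

noncomputable def ChkV_fB (x : List ℤ × List ℤ) : T.toMD.B := ⟨pl x.1, pl x.2⟩

noncomputable def ChkV_fA (x : (List ℤ × List ℤ) × (List ℤ × List ℤ)) : T.toMD.A :=
  ⟨ChkV_fB T x.1, ChkV_fB T x.2⟩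

theorem ChkV_B_ok : (ChkV_B T).Ok T.toMD.dB (ChkV_fB T) := ChkV_L_ok.quad T.E

theorem ChkV_A_ok : (ChkV_A T).Ok T.toMD.dA (ChkV_fA T) := (ChkV_B_ok T).quad T.D

def ChkV_iB (b : List ℤ × List ℤ) : (List ℤ × List ℤ) × (List ℤ × List ℤ) := (b, ([], []))

theorem ChkV_fA_iB (b : List ℤ × List ℤ) : ChkV_fA T (ChkV_iB b) = T.toMD.iB (ChkV_fB T b) := rfl

/-- `wd` -/
def ChkV_wd (n : ℕ) (b : List ℤ × List ℤ) : Bool :=
  ChkV_deg (n / 2) b.1 && (ChkV_all0 b.2 || (decide (T.e ≤ n) && ChkV_deg ((n - T.e) / 2) b.2))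

theorem ChkV_wd_ok (n : ℕ) (b : List ℤ × List ℤ) (h : ChkV_wd T n b = true) :
    T.toMD.wd n (ChkV_fB T b) := by
  rw [ChkV_wd, Bool.and_eq_true, Bool.or_eq_true, Bool.and_eq_true, decide_eq_true_eq] at h
  obtain ⟨h1, h2⟩ := h
  refine ⟨?_, ?_⟩
  · have := ChkV_natDegree _ _ h1
    show 2 * (pl b.1).natDegree ≤ n
    omega
  · rcases h2 with h2 | ⟨h2, h3⟩
    · exact Or.inl (ChkV_pl_all0 _ h2)
    · right
      have := ChkV_natDegree _ _ h3
      show 2 * (pl b.2).natDegree + T.e ≤ n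
      omega

/-- `ld` -/
def ChkV_ld (n : ℕ) (b : List ℤ × List ℤ) : ℤ :=
  if n % 2 = 0 then ChkV_co b.1 (n / 2) else T.e0 * ChkV_co b.2 ((n - T.e) / 2)

theorem ChkV_ld_ok (n : ℕ) (b : List ℤ × List ℤ) :
    T.toMD.ld n (ChkV_fB T b) = ChkV_ld T n b := by
  unfold MD.ld ChkV_ld
  split_ifs with h
  · exact ChkV_coeff _ _
  · show T.e0 * (pl b.2).coeff _ = _
    rw [ChkV_coeff]
    rfl

def ChkV_H2 := (T.S, T.Q)
def ChkV_H1 := (T.S, (ChkV_B T).neg T.Q)
def ChkV_R2 := (T.U, T.V)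
def ChkV_R1 := (T.U, (ChkV_B T).neg T.V)

theorem ChkV_H2_ok : ChkV_fA T (ChkV_H2 T) = T.toMD.H2 := rfl
theorem ChkV_R2_ok : ChkV_fA T (ChkV_R2 T) = T.toMD.R2 := rfl

theorem ChkV_H1_ok : ChkV_fA T (ChkV_H1 T) = T.toMD.H1 := by
  show (⟨_, ChkV_fB T ((ChkV_B T).neg T.Q)⟩ : T.toMD.A) = ⟨_, _⟩
  rw [(ChkV_B_ok T).neg]
  rfl

theorem ChkV_R1_ok : ChkV_fA T (ChkV_R1 T) = T.toMD.R1 := by
  show (⟨_, ChkV_fB T ((ChkV_B T).neg T.V)⟩ : T.toMD.A) = ⟨_, _⟩
  rw [(ChkV_B_ok T).neg]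
  rfl

/-- `S ^ 2 - Q ^ 2 D` -/
def ChkV_N : List ℤ × List ℤ :=
  (ChkV_B T).add ((ChkV_B T).mul T.S T.S)
    ((ChkV_B T).neg ((ChkV_B T).mul ((ChkV_B T).mul T.Q T.Q) T.D))

theorem ChkV_N_ok : ChkV_fB T (ChkV_N T) = T.toMD.S ^ 2 - T.toMD.Q ^ 2 * T.toMD.D := by
  unfold ChkV_N
  rw [(ChkV_B_ok T).add, (ChkV_B_ok T).neg, (ChkV_B_ok T).mul, (ChkV_B_ok T).mul, (ChkV_B_ok T).mul]
  show T.toMD.S * T.toMD.S + -(T.toMD.Q * T.toMD.Q * T.toMD.D) = _
  ring

/-- equality test -/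
def ChkV_eq (x y : (List ℤ × List ℤ) × (List ℤ × List ℤ)) : Bool :=
  (ChkV_A T).isz ((ChkV_A T).add x ((ChkV_A T).neg y))

theorem ChkV_eq_ok {x y : (List ℤ × List ℤ) × (List ℤ × List ℤ)} (h : ChkV_eq T x y = true) :
    ChkV_fA T x = ChkV_fA T y := by
  have h1 := (ChkV_A_ok T).isz _ h
  rw [(ChkV_A_ok T).add, (ChkV_A_ok T).neg] at h1
  linear_combination h1

def ChkV_D2 : Bool :=
  ChkV_eq T ((ChkV_A T).mul (ChkV_R2 T) (ChkV_R1 T))
    ((ChkV_A T).mul (ChkV_iB T.W) (ChkV_iB T.W))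

/-- `κ h + c κ` -/
def ChkV_hc (h : (List ℤ × List ℤ) × (List ℤ × List ℤ)) (c : ℤ) :
    (List ℤ × List ℤ) × (List ℤ × List ℤ) :=
  (ChkV_A T).add h ((ChkV_A T).cst (c * T.kap))

def ChkV_D3 : Bool :=
  let A := ChkV_A T
  let dH := A.der (ChkV_H2 T)
  ChkV_eq T (A.mul (A.mul (ChkV_iB T.W) (ChkV_iB T.Ld)) (A.mul dH dH))
    (A.mul (A.mul (A.mul (ChkV_R2 T) (ChkV_iB T.L)) (ChkV_hc T (ChkV_H2 T) (-32)))
      (ChkV_hc T (ChkV_H2 T) 4))

def ChkV_D4 : Bool :=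
  let A := ChkV_A T
  ChkV_eq T (A.mul (ChkV_iB T.Nt) (A.add (A.mul (ChkV_iB T.W) (A.der (ChkV_R2 T)))
      (A.neg (A.mul (ChkV_R2 T) (A.der (ChkV_iB T.W))))))
    (A.mul (A.mul (ChkV_iB T.Mt) (ChkV_iB T.W)) (ChkV_R2 T))

def ChkV_D5 : Bool :=
  let A := ChkV_A T
  let H12 := A.mul (ChkV_H1 T) (ChkV_H2 T)
  let L := ChkV_iB T.L
  let Ld := ChkV_iB T.Ld
  let Mt := ChkV_iB T.Mt
  let Nt := ChkV_iB T.Nt
  ChkV_eq T
    (A.mul (A.mul (ChkV_iB T.W) (A.mul H12 H12))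
      (A.add (A.mul (A.mul (A.mul (A.cst 2) L) Ld)
          (A.add (A.mul Nt (A.der Mt)) (A.neg (A.mul Mt (A.der Nt)))))
        (A.neg (A.mul (A.mul Mt Nt)
          (A.add (A.mul Ld (A.der L)) (A.neg (A.mul L (A.der Ld))))))))
    (A.mul (A.mul (A.mul (A.cst (8 * T.kap)) (A.mul L L)) (A.mul Nt Nt))
      (A.add
        (A.mul (A.mul (ChkV_R2 T) (ChkV_hc T (ChkV_H2 T) 12)) (A.mul (ChkV_H1 T) (ChkV_H1 T)))
        (A.neg
          (A.mul (A.mul (ChkV_R1 T) (ChkV_hc T (ChkV_H1 T) 12)) (A.mul (ChkV_H2 T) (ChkV_H2 T))))))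

theorem ChkV_hc_ok (h : (List ℤ × List ℤ) × (List ℤ × List ℤ)) (c : ℤ) :
    ChkV_fA T (ChkV_hc T h c) = ChkV_fA T h + (c : T.toMD.A) * (T.toMD.kap : T.toMD.A) := by
  unfold ChkV_hc
  rw [(ChkV_A_ok T).add, (ChkV_A_ok T).cst, Int.cast_mul]
  rfl

/-- the small conditions -/
def ChkV_small : Bool :=
  decide (1 ≤ T.d) && decide (T.e % 2 = 1) && decide (2 ≤ T.w + T.e) && decide (T.w ≤ T.d) &&
  decide (T.w ≤ T.om) && ChkV_deg T.e T.E && decide (ChkV_co T.E T.e = T.e0 ^ 2) &&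
  ChkV_wd T (2 * T.w) T.D && decide (ChkV_ld T (2 * T.w) T.D = T.y0 ^ 2) &&
  ChkV_wd T T.d T.S && ChkV_wd T (T.d - T.w) T.Q &&
  decide (ChkV_ld T T.d T.S + ChkV_ld T (T.d - T.w) T.Q * T.y0 = T.kap) &&
  ChkV_wd T (T.d + 1) (ChkV_N T) && decide (ChkV_ld T (T.d + 1) (ChkV_N T) = T.kap ^ 2) &&
  ChkV_wd T T.om T.U && ChkV_wd T (T.om - T.w) T.V && ChkV_wd T T.om T.W &&
  decide (ChkV_ld T T.om T.W = T.w0) &&
  decide (ChkV_ld T T.om T.U + ChkV_ld T (T.om - T.w) T.V * T.y0 = T.d * T.w0) &&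
  decide (T.e0 ≠ 0) && decide (T.y0 ≠ 0) && decide (T.w0 ≠ 0) && decide (T.kap ≠ 0) &&
  !(ChkV_all0 T.L.1) && !(ChkV_all0 T.Ld.1) && !(ChkV_all0 T.Nt.1)

theorem ChkV_fB_ne {b : List ℤ × List ℤ} (h : ChkV_all0 b.1 = false) : ChkV_fB T b ≠ 0 := by
  intro h0
  have h1 : pl b.1 = 0 := congrArg QuadraticAlgebra.re h0
  exact ChkV_ne_zero _ h h1

theorem ChkV_valid (h : ChkV_small T = true) (h2 : ChkV_D2 T = true) (h3 : ChkV_D3 T = true)
    (h4 : ChkV_D4 T = true) (h5 : ChkV_D5 T = true) : T.toMD.Valid := by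
  have okA := ChkV_A_ok T
  simp only [ChkV_small, Bool.and_eq_true, decide_eq_true_eq, Bool.not_eq_true'] at h
  obtain ⟨⟨⟨⟨⟨⟨⟨⟨⟨⟨⟨⟨⟨⟨⟨⟨⟨⟨⟨⟨⟨⟨⟨⟨⟨c1, c2⟩, c3⟩, c4⟩, c5⟩, c6⟩, c7⟩, c8⟩, c9⟩, c10⟩, c11⟩,
    c12⟩, c13⟩, c14⟩, c15⟩, c16⟩, c17⟩, c18⟩, c19⟩, c20⟩, c21⟩, c22⟩, c23⟩, c24⟩, c25⟩, c26⟩ := h
  have e2 := ChkV_eq_ok T h2
  have e3 := ChkV_eq_ok T h3
  have e4 := ChkV_eq_ok T h4
  have e5 := ChkV_eq_ok T h5
  simp only [okA.mul, okA.add, okA.neg, okA.der, okA.cst, ChkV_hc_ok, ChkV_H1_ok, ChkV_H2_ok,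
    ChkV_R1_ok, ChkV_R2_ok, ChkV_fA_iB] at e2 e3 e4 e5
  have aW : ChkV_fB T T.W = T.toMD.W := rfl
  have aL : ChkV_fB T T.L = T.toMD.L := rfl
  have aLd : ChkV_fB T T.Ld = T.toMD.Ld := rfl
  have aM : ChkV_fB T T.Mt = T.toMD.Mt := rfl
  have aN : ChkV_fB T T.Nt = T.toMD.Nt := rfl
  rw [aW] at e2 e3 e4 e5
  rw [aL, aLd] at e3 e5
  rw [aM, aN] at e4 e5
  have ak : T.kap = T.toMD.kap := rfl
  rw [ak] at e5
  push_cast at e3 e5
  exact
  { hd := c1
    he := c2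
    hwe := c3
    hwd := c4
    hwom := c5
    hE := ChkV_natDegree _ _ c6
    hE0 := (ChkV_coeff _ _).trans c7
    hDw := ChkV_wd_ok T _ _ c8
    hD0 := (ChkV_ld_ok T _ _).trans c9
    hSw := ChkV_wd_ok T _ _ c10
    hQw := ChkV_wd_ok T _ _ c11
    hS0 := by
      have a1 := ChkV_ld_ok T T.d T.S
      have a2 := ChkV_ld_ok T (T.d - T.w) T.Q
      rw [← a1, ← a2] at c12
      exact c12
    hNw := by
      have := ChkV_wd_ok T _ _ c13
      rw [ChkV_N_ok] at this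
      exact this
    hN0 := by
      have := (ChkV_ld_ok T _ _).trans c14
      rw [ChkV_N_ok] at this
      exact this
    hUw := ChkV_wd_ok T _ _ c15
    hVw := ChkV_wd_ok T _ _ c16
    hWw := ChkV_wd_ok T _ _ c17
    hW0 := (ChkV_ld_ok T _ _).trans c18
    hU0 := by
      have a1 := ChkV_ld_ok T T.om T.U
      have a2 := ChkV_ld_ok T (T.om - T.w) T.V
      rw [← a1, ← a2] at c19
      exact c19
    ne0 := c20
    ny0 := c21
    nw0 := c22
    nkap := c23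
    nL := ChkV_fB_ne T c24
    nLd := ChkV_fB_ne T c25
    nNt := ChkV_fB_ne T c26
    D2 := by linear_combination e2
    D3 := by linear_combination e3
    D4 := by linear_combination e4
    D5 := by linear_combination e5 }

end

theorem valid5 : M5.Valid :=
  ChkV_valid T5 (by decide +kernel) (by decide +kernel) (by decide +kernel) (by decide +kernel)
    (by decide +kernel)

theorem valid11 : M11.Valid :=
  ChkV_valid T11 (by decide +kernel) (by decide +kernel) (by decide +kernel) (by decide +kernel)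
    (by decide +kernel)

theorem valid17 : M17.Valid :=
  ChkV_valid T17 (by decide +kernel) (by decide +kernel) (by decide +kernel) (by decide +kernel)
    (by decide +kernel)

end Pool.Agent.Lib_helper91.FR
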