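import Pool.Agent.Lib_helper91.FR.ThApi

/-! Block CmpApi: composition of power series. `cmp f z = PowerSeries.subst z f`. -/

namespace Pool.Agent.Lib_helper91.FR

open PowerSeries Finset

section
variable {R : Type} [CommRing R]

theorem CmpApi_hs {z : PowerSeries R} (hz : constantCoeff z = 0) : PowerSeries.HasSubst z :=
  PowerSeries.HasSubst.of_constantCoeff_zero' hz

theorem CmpApi_coeff_pow_eq_zero {z : PowerSeries R} (hz : constantCoeff z = 0) {n k : ℕ}
    (h : n < k) : coeff n (z ^ k) = 0 := by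
  have h1 : (X : PowerSeries R) ∣ z := PowerSeries.X_dvd_iff.2 hz
  have h2 : (X : PowerSeries R) ^ k ∣ z ^ k := pow_dvd_pow_of_dvd h1 k
  exact PowerSeries.X_pow_dvd_iff.1 h2 n h

theorem CmpApi_hom {z : PowerSeries R} (hz : constantCoeff z = 0) (f : PowerSeries R) :
    cmp f z = (PowerSeries.substAlgHom (R := R) (CmpApi_hs hz) : PowerSeries R →ₐ[R] PowerSeries R) f := by
  have := PowerSeries.coe_substAlgHom (R := R) (CmpApi_hs hz)
  exact (congrFun this f).symm

theorem coeff_cmp (f z : PowerSeries R) (hz : constantCoeff z = 0) (n N : ℕ) (hN : n < N) :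
    coeff n (cmp f z) = ∑ k ∈ range N, coeff k f * coeff n (z ^ k) := by
  rw [cmp, PowerSeries.coeff_subst' (CmpApi_hs hz)]
  rw [finsum_eq_sum_of_support_subset (s := range N)]
  · simp only [smul_eq_mul]
  · intro k hk
    rw [Function.mem_support] at hk
    rw [Finset.coe_range, Set.mem_Iio]
    by_contra hc
    apply hk
    rw [CmpApi_coeff_pow_eq_zero hz (by omega), smul_zero]

theorem constantCoeff_cmp (f z : PowerSeries R) (hz : constantCoeff z = 0) :
    constantCoeff (cmp f z) = constantCoeff f := by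
  rw [← coeff_zero_eq_constantCoeff_apply, coeff_cmp f z hz 0 1 one_pos]
  simp

theorem cmp_add (f g z : PowerSeries R) (hz : constantCoeff z = 0) :
    cmp (f + g) z = cmp f z + cmp g z := by
  rw [CmpApi_hom hz, CmpApi_hom hz, CmpApi_hom hz, map_add]

theorem cmp_sub (f g z : PowerSeries R) (hz : constantCoeff z = 0) :
    cmp (f - g) z = cmp f z - cmp g z := by
  rw [CmpApi_hom hz, CmpApi_hom hz, CmpApi_hom hz, map_sub]

theorem cmp_mul (f g z : PowerSeries R) (hz : constantCoeff z = 0) :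
    cmp (f * g) z = cmp f z * cmp g z := by
  rw [CmpApi_hom hz, CmpApi_hom hz, CmpApi_hom hz, map_mul]

theorem cmp_pow (f z : PowerSeries R) (hz : constantCoeff z = 0) (n : ℕ) :
    cmp (f ^ n) z = cmp f z ^ n := by
  rw [CmpApi_hom hz, CmpApi_hom hz, map_pow]

theorem cmp_one (z : PowerSeries R) (hz : constantCoeff z = 0) : cmp 1 z = 1 := by
  rw [CmpApi_hom hz, map_one]

theorem cmp_zero (z : PowerSeries R) (hz : constantCoeff z = 0) : cmp 0 z = 0 := by
  rw [CmpApi_hom hz, map_zero]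

theorem cmp_C (a : R) (z : PowerSeries R) (hz : constantCoeff z = 0) : cmp (C a) z = C a := by
  have h := CmpApi_hom hz (C a)
  rw [h]
  exact (PowerSeries.substAlgHom (R := R) (CmpApi_hs hz) :
    PowerSeries R →ₐ[R] PowerSeries R).commutes a

theorem cmp_natCast (n : ℕ) (z : PowerSeries R) (hz : constantCoeff z = 0) :
    cmp (n : PowerSeries R) z = n := by
  rw [CmpApi_hom hz, map_natCast]

theorem cmp_ofNat (n : ℕ) [n.AtLeastTwo] (z : PowerSeries R) (hz : constantCoeff z = 0) :
    cmp (ofNat(n) : PowerSeries R) z = ofNat(n) := by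
  rw [CmpApi_hom hz, map_ofNat]

theorem cmp_X (z : PowerSeries R) (hz : constantCoeff z = 0) : cmp X z = z := by
  rw [cmp, PowerSeries.subst_X (CmpApi_hs hz)]

/-- chain rule -/
theorem th_cmp (f z Y μ : PowerSeries R) (hz : constantCoeff z = 0) (h : Y * th z = μ * z) :
    Y * th (cmp f z) = μ * cmp (th f) z := by
  have h1 : derivative R (cmp f z) = cmp (derivative R f) z * derivative R z :=
    PowerSeries.derivative_subst (CmpApi_hs hz)
  rw [th_eq (cmp f z), h1, th_eq f, cmp_mul _ _ _ hz, cmp_X z hz]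
  rw [th_eq] at h
  calc Y * (X * (cmp (derivative R f) z * derivative R z))
      = cmp (derivative R f) z * (Y * (X * derivative R z)) := by ring
    _ = cmp (derivative R f) z * (μ * z) := by rw [h]
    _ = μ * (z * cmp (derivative R f) z) := by ring

theorem CmpApi_constantCoeff_X_pow (p : ℕ) [Fact p.Prime] :
    constantCoeff (X ^ p : PowerSeries R) = 0 := by
  rw [map_pow, constantCoeff_X, zero_pow (Nat.Prime.ne_zero Fact.out)]

theorem CmpApi_ph_eq (p : ℕ) [Fact p.Prime] (f : PowerSeries R) : ph p R f = cmp f (X ^ p) := by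
  have h : ph p R f = PowerSeries.expand p (Nat.Prime.ne_zero Fact.out) f := rfl
  rw [h, PowerSeries.expand_apply, cmp]

theorem CmpApi_cmp_cmp (f z w : PowerSeries R) (hz : constantCoeff z = 0)
    (hw : constantCoeff w = 0) : cmp (cmp f z) w = cmp f (cmp z w) := by
  have := PowerSeries.subst_comp_subst_apply (R := R) (CmpApi_hs hz) (CmpApi_hs hw) f
  exact this

theorem ph_cmp (p : ℕ) [Fact p.Prime] (f z : PowerSeries R) (hz : constantCoeff z = 0) :
    ph p R (cmp f z) = cmp f (ph p R z) := by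
  rw [CmpApi_ph_eq, CmpApi_ph_eq, CmpApi_cmp_cmp f z _ hz (CmpApi_constantCoeff_X_pow p)]

theorem cmp_ph (p : ℕ) [Fact p.Prime] (f z : PowerSeries R) (hz : constantCoeff z = 0) :
    cmp (ph p R f) z = cmp f (z ^ p) := by
  rw [CmpApi_ph_eq, CmpApi_cmp_cmp f _ z (CmpApi_constantCoeff_X_pow p) hz, cmp_pow _ _ hz,
    cmp_X z hz]

theorem CmpApi_cmp_sum {ι : Type} (s : Finset ι) (f : ι → PowerSeries R) (z : PowerSeries R)
    (hz : constantCoeff z = 0) : cmp (∑ i ∈ s, f i) z = ∑ i ∈ s, cmp (f i) z := by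
  rw [CmpApi_hom hz, map_sum]
  refine Finset.sum_congr rfl fun i _ => ?_
  rw [CmpApi_hom hz]

theorem CmpApi_trunc (a : ℕ → R) (n : ℕ) :
    (PowerSeries.mk fun k => if k < n then a k else 0) = ∑ k ∈ range n, C (a k) * X ^ k := by
  ext m
  rw [coeff_mk, map_sum]
  simp only [coeff_C_mul, coeff_X_pow, mul_ite, mul_one, mul_zero]
  rw [Finset.sum_ite_eq]
  simp [Finset.mem_range]

theorem cmp_trunc (a : ℕ → R) (n : ℕ) (z : PowerSeries R) (hz : constantCoeff z = 0) :
    cmp (PowerSeries.mk fun k => if k < n then a k else 0) z = ∑ k ∈ range n, C (a k) * z ^ k := by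
  rw [CmpApi_trunc, CmpApi_cmp_sum _ _ _ hz]
  refine Finset.sum_congr rfl fun k _ => ?_
  rw [cmp_mul _ _ _ hz, cmp_pow _ _ hz, cmp_X z hz, cmp_C _ _ hz]

end

theorem cmp_inv {K : Type} [Field K] (f z : PowerSeries K) (hz : constantCoeff z = 0)
    (hf : constantCoeff f ≠ 0) : cmp f⁻¹ z = (cmp f z)⁻¹ := by
  rw [PowerSeries.eq_inv_iff_mul_eq_one (by rwa [constantCoeff_cmp _ _ hz]), ← cmp_mul _ _ _ hz,
    PowerSeries.inv_mul_cancel _ hf, cmp_one z hz]

end Pool.Agent.Lib_helper91.FR
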