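import Pool.Agent.Lib_helper91.FR.Lead

/-! Block FRB: the Frobenius numerators on expansions, mod `p²` (all coefficients).
For integral `u` with `u² = c`: `φu = u^p + p h` (frobL), so `φc ≡ c^p + 2p u^p h` and `2 c^p φu ≡ u^p (c^p + φc) mod p²` (block B2 of AP).
 evP: `ev (expand p f) = φ (ev f)` exactly (`x^p = X^{-2p} = φ x`).
 NB: `2E^p φ(b0 + b1 η) ≡ 2E^p b0^φ + b1^φ η^p (E^p + E^φ)`.   NA: the same over B, `c = D`, `Ds = 2E^p(D^p + φD)`, `8E^{2p}D^p φ(a0 + a1 Y) ≡ ...`. -/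

namespace Pool.Agent.Lib_helper91.FR

open PowerSeries Finset

theorem FRB_key (p : ℕ) [Fact p.Prime] (u : LaurentSeries ℚ_[p]) (hu : IL 0 u) :
    IL 2 (2 * (u ^ 2) ^ p * phL p ℚ_[p] u - u ^ p * ((u ^ 2) ^ p + phL p ℚ_[p] (u ^ 2))) := by
  have h1 := frobL hu
  have h2 : 2 * (u ^ 2) ^ p * phL p ℚ_[p] u - u ^ p * ((u ^ 2) ^ p + phL p ℚ_[p] (u ^ 2))
      = -(u ^ p * ((phL p ℚ_[p] u - u ^ p) * (phL p ℚ_[p] u - u ^ p))) := by
    rw [map_pow, ← pow_mul, mul_comm 2 p, pow_mul]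
    ring
  rw [h2]
  exact IL_neg (IL_mul_left (IL_pow hu p) (IL_mul h1 h1))

namespace MD

variable (M : MD) (p : ℕ) [Fact p.Prime]

theorem FRB_evP_sum {T : Type} [CommRing T] (P : M.Pt T) (f : Polynomial ℤ) :
    P.evP f = ∑ i ∈ range (f.natDegree + 1), (f.coeff i : T) * P.x ^ i := by
  rw [Pt.evP_apply, Polynomial.aeval_eq_sum_range]
  exact Finset.sum_congr rfl fun i _ => by rw [zsmul_eq_mul]

theorem FRB_exp {T : Type} [CommRing T] (P : M.Pt T) (q : ℕ) (φ : T →+* T) (h : φ P.x = P.x ^ q)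
    (f : Polynomial ℤ) : P.evP (Polynomial.expand ℤ q f) = φ (P.evP f) := by
  rw [Pt.evP_apply, Pt.evP_apply, Polynomial.expand_aeval, ← h, Polynomial.aeval_def,
    Polynomial.aeval_def, Polynomial.hom_eval₂]
  congr 1
  exact RingHom.ext_int _ _

theorem FRB_evP (P : M.Pt (LaurentSeries ℚ_[p])) (hx : P.x = mon ℚ_[p] (-2)) (f : Polynomial ℤ) :
    IL 0 (P.evP f) := by
  rw [FRB_evP_sum]
  refine IL_sum _ _ fun i _ => ?_
  rw [hx]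
  exact IL_mul_left (IL_intCast _) (IL_pow (IL_mon _) i)

theorem FRB_ph (P : M.Pt (LaurentSeries ℚ_[p])) (hx : P.x = mon ℚ_[p] (-2)) (f : Polynomial ℤ) :
    P.evP (Polynomial.expand ℤ p f) = phL p ℚ_[p] (P.evP f) := by
  refine FRB_exp M P p (phL p ℚ_[p]) ?_ f
  rw [hx, phL_mon, mon_pow]

theorem IL_evB (P : M.Pt (LaurentSeries ℚ_[p])) (hx : P.x = mon ℚ_[p] (-2)) (iη : IL 0 P.η)
    (b : M.B) : IL 0 (P.evB b) := by
  rw [Pt.evB_apply]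
  exact IL_add (FRB_evP M p P hx _) (IL_mul_left (FRB_evP M p P hx _) iη)

theorem IL_ev (P : M.Pt (LaurentSeries ℚ_[p])) (hx : P.x = mon ℚ_[p] (-2)) (iη : IL 0 P.η)
    (iY : IL 0 P.Y) (a : M.A) : IL 0 (P.ev a) := by
  rw [Pt.ev_apply]
  exact IL_add (IL_evB M p P hx iη _) (IL_mul_left (IL_evB M p P hx iη _) iY)

theorem FRB_two : IL 0 (2 : LaurentSeries ℚ_[p]) := by
  have h := IL_intCast (p := p) 2
  rwa [Int.cast_ofNat] at h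

theorem FRB_NB (hp : 3 < p) (P : M.Pt (LaurentSeries ℚ_[p])) (hx : P.x = mon ℚ_[p] (-2))
    (iη : IL 0 P.η) (b : M.B) :
    IL 2 (P.evB (M.NB p b) - P.evB (2 * M.iP (M.E ^ p)) * phL p ℚ_[p] (P.evB b)) := by
  have hk := FRB_key p P.η iη
  have h1 : P.evB (M.NB p b) = 2 * (P.η ^ 2) ^ p * phL p ℚ_[p] (P.evP b.re)
      + phL p ℚ_[p] (P.evP b.im) * ((P.η ^ 2) ^ p + phL p ℚ_[p] (P.η ^ 2)) * P.η ^ p := by
    unfold NB Es
    rw [map_add, map_mul, map_pow, Pt.evB_iP, Pt.evB_iP, Pt.evB_eta, map_mul, map_mul, map_mul,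
      map_add, map_pow, FRB_ph M p P hx, FRB_ph M p P hx, FRB_ph M p P hx, Pt.evP_E, map_ofNat]
  have h2 : P.evB (2 * M.iP (M.E ^ p)) = 2 * (P.η ^ 2) ^ p := by
    rw [map_mul, map_ofNat, Pt.evB_iP, map_pow, Pt.evP_E]
  have h3 : P.evB (M.NB p b) - P.evB (2 * M.iP (M.E ^ p)) * phL p ℚ_[p] (P.evB b)
      = -(phL p ℚ_[p] (P.evP b.im) * (2 * (P.η ^ 2) ^ p * phL p ℚ_[p] P.η
        - P.η ^ p * ((P.η ^ 2) ^ p + phL p ℚ_[p] (P.η ^ 2)))) := by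
    rw [h1, h2, Pt.evB_apply, map_add (phL p ℚ_[p]), map_mul (phL p ℚ_[p])]
    ring
  rw [h3]
  exact IL_neg (IL_mul_left (IL_phL (FRB_evP M p P hx _)) hk)

theorem FRB_NA (hp : 3 < p) (P : M.Pt (LaurentSeries ℚ_[p])) (hx : P.x = mon ℚ_[p] (-2))
    (iη : IL 0 P.η) (iY : IL 0 P.Y) (a : M.A) :
    IL 2 (P.ev (M.NA p a) - P.ev (M.sA p) * phL p ℚ_[p] (P.ev a)) := by
  have hk := FRB_key p P.Y iY
  have r0 := FRB_NB M p hp P hx iη a.re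
  have r1 := FRB_NB M p hp P hx iη a.im
  have rD := FRB_NB M p hp P hx iη M.D
  have iB0 := IL_evB M p P hx iη
  have h2 : P.evB (2 * M.iP (M.E ^ p)) = 2 * (P.η ^ 2) ^ p := by
    rw [map_mul, map_ofNat, Pt.evB_iP, map_pow, Pt.evP_E]
  rw [h2] at r0 r1 rD
  rw [Pt.evB_D] at rD
  have h1 : P.ev (M.NA p a) = 4 * (P.η ^ 2) ^ p * (P.Y ^ 2) ^ p * P.evB (M.NB p a.re)
      + P.evB (M.NB p a.im) * (2 * (P.η ^ 2) ^ p * (P.Y ^ 2) ^ p + P.evB (M.NB p M.D)) * P.Y ^ p := by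
    unfold NA Ds
    rw [map_add, map_mul, map_pow, Pt.ev_iB, Pt.ev_iB, Pt.ev_YY, map_mul, map_mul, map_mul, map_mul,
      map_add, map_mul, map_mul, map_pow, map_ofNat, map_ofNat, Pt.evB_iP, map_pow, Pt.evP_E, Pt.evB_D]
  have h3 : P.ev (M.sA p) = 8 * ((P.η ^ 2) ^ p) ^ 2 * (P.Y ^ 2) ^ p := by
    unfold sA
    rw [Pt.ev_iB, map_mul, map_mul, map_ofNat, Pt.evB_iP, map_pow, map_pow, Pt.evP_E, Pt.evB_D,
      mul_comm 2 p, pow_mul]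
  have i2 := FRB_two p
  have iE : IL 0 ((P.η ^ 2) ^ p) := IL_pow (IL_pow iη 2) p
  have iD : IL 0 ((P.Y ^ 2) ^ p) := IL_pow (IL_pow iY 2) p
  rw [h1, h3, Pt.ev_apply, map_add (phL p ℚ_[p]), map_mul (phL p ℚ_[p])]
  generalize (P.η ^ 2) ^ p = e at *
  generalize hg : (P.Y ^ 2) ^ p = D at *
  generalize P.evB (M.NB p a.re) = n0 at *
  have iY2 : IL 0 (P.Y ^ p) := IL_pow iY p
  have iA1 : IL 0 (phL p ℚ_[p] (P.evB a.im)) := IL_phL (iB0 _)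
  have iND : IL 0 (P.evB (M.NB p M.D)) := iB0 _
  have h4 : 4 * e * D * n0 + P.evB (M.NB p a.im) * (2 * e * D + P.evB (M.NB p M.D)) * P.Y ^ p
      - 8 * e ^ 2 * D * (phL p ℚ_[p] (P.evB a.re) + phL p ℚ_[p] (P.evB a.im) * phL p ℚ_[p] P.Y)
      = (2 * 2 * e * D) * (n0 - 2 * e * phL p ℚ_[p] (P.evB a.re))
        + ((2 * e * D + P.evB (M.NB p M.D)) * P.Y ^ p)
          * (P.evB (M.NB p a.im) - 2 * e * phL p ℚ_[p] (P.evB a.im))
        + (2 * e * phL p ℚ_[p] (P.evB a.im) * P.Y ^ p)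
          * (P.evB (M.NB p M.D) - 2 * e * phL p ℚ_[p] (P.Y ^ 2))
        - (2 * 2 * e ^ 2 * phL p ℚ_[p] (P.evB a.im))
          * (2 * D * phL p ℚ_[p] P.Y - P.Y ^ p * (D + phL p ℚ_[p] (P.Y ^ 2))) := by
    ring
  rw [h4]
  have iDe : IL 0 (2 * e * D) := IL_mul_left (IL_mul_left i2 iE) iD
  refine IL_sub (IL_add (IL_add ?_ ?_) ?_) ?_
  · exact IL_mul_left (IL_mul_left (IL_mul_left (IL_mul_left i2 i2) iE) iD) r0
  · exact IL_mul_left (IL_mul_left (IL_add iDe iND) iY2) r1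
  · exact IL_mul_left (IL_mul_left (IL_mul_left (IL_mul_left i2 iE) iA1) iY2) rD
  · exact IL_mul_left (IL_mul_left (IL_mul_left (IL_mul_left i2 i2) (IL_pow iE 2)) iA1) hk

end MD

end Pool.Agent.Lib_helper91.FR
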