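import Pool.Agent.Lib_helper91.FR.BIG
import Pool.Agent.Lib_helper91.FR.ChkV
import Pool.Agent.Lib_helper91.FR.ChkP
import Pool.Agent.Lib_helper91.FR.Chars

/-! Block Final: assembly.
`Zg_of_big`: from `MD.big` in `ZMod p²` (v = m⁻¹, a unit) multiply by `m^(p-1)`; the character: `p * x` in `ZMod p²` only depends on `x mod p`
(`ZMod.castHom`), and `N^{(p-1)/2} = χ` in `ZMod p`.
`(m-32)(m+4)D0`: -16: -1·144², -112: -7·432², -2704: -1·41040², -49: -3·270², -400: -1·9504², -24304: -31·168480². -/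

namespace Pool.Agent.Lib_helper91.FR

open Finset

theorem Zg_of_big (p : ℕ) [Fact p.Prime] (a b m N χ : ℤ) (hm : ¬ (p : ℤ) ∣ m)
    (h : ∀ v : ZMod (p ^ 2), v * ((m : ℤ) : ZMod (p ^ 2)) = 1 →
      (a : ZMod (p ^ 2)) * sm p 1 bb v + (b : ZMod (p ^ 2)) * sm p 0 bb v
        = (b : ZMod (p ^ 2)) * (p : ZMod (p ^ 2)) * ((N : ℤ) : ZMod (p ^ 2)) ^ ((p - 1) / 2))
    (hN : ((N : ℤ) : ZMod p) ^ ((p - 1) / 2) = ((χ : ℤ) : ZMod p)) :
    Zg p a b m (b * χ) := by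
  have hpp : p.Prime := Fact.out
  have hcop : IsCoprime m ((p ^ 2 : ℕ) : ℤ) := by
    have h1 : IsCoprime (p : ℤ) m :=
      (Prime.coprime_iff_not_dvd (Nat.prime_iff_prime_int.1 hpp)).2 hm
    have h2 := (h1.pow_left (m := 2)).symm
    push_cast
    exact h2
  obtain ⟨u, w, huw⟩ := hcop
  have hv : ((u : ℤ) : ZMod (p ^ 2)) * ((m : ℤ) : ZMod (p ^ 2)) = 1 := by
    have h1 := congrArg (Int.cast : ℤ → ZMod (p ^ 2)) huw
    push_cast at h1
    have h2 : ((p : ZMod (p ^ 2))) ^ 2 = 0 := by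
      have := ZMod.natCast_self (p ^ 2)
      push_cast at this
      exact this
    rw [h2, mul_zero, add_zero] at h1
    exact h1
  have key := h _ hv
  set v : ZMod (p ^ 2) := ((u : ℤ) : ZMod (p ^ 2)) with hvd
  set M : ZMod (p ^ 2) := ((m : ℤ) : ZMod (p ^ 2)) with hMd
  have hNχ : (p : ZMod (p ^ 2)) * ((N : ℤ) : ZMod (p ^ 2)) ^ ((p - 1) / 2)
      = (p : ZMod (p ^ 2)) * ((χ : ℤ) : ZMod (p ^ 2)) := by
    apply BIG_sub
    rw [map_pow, map_intCast, map_intCast, hN]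
  unfold Zg
  rw [show ((p : ℤ) ^ 2) = ((p ^ 2 : ℕ) : ℤ) by push_cast; rfl, ← ZMod.intCast_zmod_eq_zero_iff_dvd]
  push_cast
  have hterm : ∀ n ∈ range p, ((a : ZMod (p ^ 2)) * n + b) * (bb n : ZMod (p ^ 2)) * M ^ (p - 1 - n)
      = M ^ (p - 1) * ((a : ZMod (p ^ 2)) * ((n : ZMod (p ^ 2)) ^ 1 * (bb n : ZMod (p ^ 2)) * v ^ n)
        + (b : ZMod (p ^ 2)) * ((n : ZMod (p ^ 2)) ^ 0 * (bb n : ZMod (p ^ 2)) * v ^ n)) := by
    intro n hn
    rw [mem_range] at hn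
    have e1 : M ^ (p - 1) = M ^ (p - 1 - n) * M ^ n := by
      rw [← pow_add]
      congr 1
      omega
    have e2 : M ^ n * v ^ n = 1 := by
      rw [← mul_pow, mul_comm, hv, one_pow]
    rw [e1]
    linear_combination (-(((a : ZMod (p ^ 2)) * n + b) * (bb n : ZMod (p ^ 2)) * M ^ (p - 1 - n))) * e2
  rw [sum_congr rfl hterm, ← mul_sum, sum_add_distrib, ← mul_sum, ← mul_sum]
  have k2 : (a : ZMod (p ^ 2)) * ∑ n ∈ range p, (n : ZMod (p ^ 2)) ^ 1 * (bb n : ZMod (p ^ 2)) * v ^ n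
      + (b : ZMod (p ^ 2)) * ∑ n ∈ range p, (n : ZMod (p ^ 2)) ^ 0 * (bb n : ZMod (p ^ 2)) * v ^ n
      = (b : ZMod (p ^ 2)) * (p : ZMod (p ^ 2)) * ((N : ℤ) : ZMod (p ^ 2)) ^ ((p - 1) / 2) := key
  rw [k2]
  linear_combination (M ^ (p - 1) * (b : ZMod (p ^ 2))) * hNχ

theorem Final_prime (p : ℕ) (hp : p.Prime) (a b : ℕ) (hab : ∀ n ∈ Finset.Ico a b, ¬ n.Prime) (h : a ≤ p) :
    b ≤ p := by
  by_contra hb
  exact hab p (Finset.mem_Ico.2 ⟨h, by omega⟩) hp

theorem Final_ndvd (p : ℕ) (hp : p.Prime) (n : ℤ) (l : List ℕ) (hl : (l.map (Nat.cast : ℕ → ℤ)).prod = n ∨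
    (l.map (Nat.cast : ℕ → ℤ)).prod = -n) (h : ∀ q ∈ l, ¬ p ∣ q) : ¬ (p : ℤ) ∣ n := by
  intro hd
  have h1 : (p : ℤ) ∣ (l.map (Nat.cast : ℕ → ℤ)).prod := by
    rcases hl with h1 | h1 <;> rw [h1]
    · exact hd
    · exact (dvd_neg).2 hd
  have h2 : (p : ℤ) ∣ ((l.prod : ℕ) : ℤ) := by
    rw [Nat.cast_list_prod]
    exact h1
  have h3 : p ∣ l.prod := by exact_mod_cast h2
  obtain ⟨q, hq, hpq⟩ := (Prime.dvd_prod_iff hp.prime).1 h3
  exact h q hq hpq

theorem Final_small (p q : ℕ) (hq : 0 < q) (h : q < p) : ¬ p ∣ q := fun hd =>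
  absurd (Nat.le_of_dvd hq hd) (by omega)

theorem all16 (p : ℕ) (hp : p.Prime) (h3 : 3 < p) :
    Zg p 3 1 (-16) (ch1 p) := by
  by_cases hb : p < 67
  · exact small16 p hp h3 hb
  have hb : 67 ≤ p := by omega
  have : Fact p.Prime := ⟨hp⟩
  have g := G5a p hp hb
  have e : ((-16 - 32) * (-16 + 4) * M5.evI 9 (-3) M5.D : ℤ) = -1 * 144 ^ 2 := by
    rw [D5a]
    norm_num
  have key := Zg_of_big p 3 1 (-16) ((-16 - 32) * (-16 + 4) * M5.evI 9 (-3) M5.D : ℤ) (ch1 p) g.hm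
    (fun v hv => M5.big p valid5 (good5 p hp hb) (big5 p hp hb) P5a g v hv)
    (by
      rw [e]
      exact eul1 p h3 144 (Final_ndvd p hp 144 [2, 2, 2, 2, 3, 3] (by norm_num) (by
        intro q hq
        simp only [List.mem_cons, List.not_mem_nil, or_false] at hq
        exact Final_small p q (by omega) (by omega))))
  simpa using key

theorem all112 (p : ℕ) (hp : p.Prime) (h3 : 3 < p) (h7 : p ≠ 7) :
    Zg p 9 2 (-112) (2 * ch7 p) := by
  by_cases hb : p < 67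
  · exact small112 p hp h3 h7 hb
  have hb : 67 ≤ p := by omega
  have : Fact p.Prime := ⟨hp⟩
  have g := G5b p hp hb
  have e : ((-112 - 32) * (-112 + 4) * M5.evI 1 1 M5.D : ℤ) = -7 * 432 ^ 2 := by
    rw [D5b]
    norm_num
  have key := Zg_of_big p 9 2 (-112) ((-112 - 32) * (-112 + 4) * M5.evI 1 1 M5.D : ℤ) (ch7 p) g.hm
    (fun v hv => M5.big p valid5 (good5 p hp hb) (big5 p hp hb) P5b g v hv)
    (by
      rw [e]
      exact eul7 p h3 h7 432 (Final_ndvd p hp 432 [2, 2, 2, 2, 3, 3, 3] (by norm_num) (by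
        intro q hq
        simp only [List.mem_cons, List.not_mem_nil, or_false] at hq
        exact Final_small p q (by omega) (by omega))))
  exact key

theorem all2704 (p : ℕ) (hp : p.Prime) (h3 : 3 < p) (h13 : p ≠ 13) :
    Zg p 855 109 (-2704) (109 * ch1 p) := by
  by_cases hb : p < 113
  · exact small2704 p hp h3 h13 hb
  have hb : 113 ≤ p := by omega
  have : Fact p.Prime := ⟨hp⟩
  have g := G11a p hp hb
  have e : ((-2704 - 32) * (-2704 + 4) * M11.evI 16 4 M11.D : ℤ) = -1 * 41040 ^ 2 := by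
    rw [D11a]
    norm_num
  have key := Zg_of_big p 855 109 (-2704) ((-2704 - 32) * (-2704 + 4) * M11.evI 16 4 M11.D : ℤ) (ch1 p) g.hm
    (fun v hv => M11.big p valid11 (good11 p hp hb) (big11 p hp hb) P11a g v hv)
    (by
      rw [e]
      exact eul1 p h3 41040 (Final_ndvd p hp 41040 [2, 2, 2, 2, 3, 3, 3, 5, 19] (by norm_num) (by
        intro q hq
        simp only [List.mem_cons, List.not_mem_nil, or_false] at hq
        exact Final_small p q (by omega) (by omega))))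
  exact key

theorem all49 (p : ℕ) (hp : p.Prime) (h3 : 3 < p) (h5 : p ≠ 5) (h7 : p ≠ 7) :
    Zg p 15 4 (-49) (4 * ch3 p) := by
  by_cases hb : p < 199
  · exact small49 p hp h3 h5 h7 hb
  have hb : 199 ≤ p := by omega
  have : Fact p.Prime := ⟨hp⟩
  have g := G17a p hp hb
  have e : ((-49 - 32) * (-49 + 4) * M17.evI 2 (-1) M17.D : ℤ) = -3 * 270 ^ 2 := by
    rw [D17a]
    norm_num
  have key := Zg_of_big p 15 4 (-49) ((-49 - 32) * (-49 + 4) * M17.evI 2 (-1) M17.D : ℤ) (ch3 p) g.hm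
    (fun v hv => M17.big p valid17 (good17 p hp hb) (big17 p hp hb) P17a g v hv)
    (by
      rw [e]
      exact eul3 p h3 270 (Final_ndvd p hp 270 [2, 3, 3, 3, 5] (by norm_num) (by
        intro q hq
        simp only [List.mem_cons, List.not_mem_nil, or_false] at hq
        exact Final_small p q (by omega) (by omega))))
  exact key

theorem all400 (p : ℕ) (hp : p.Prime) (h3 : 3 < p) (h5 : p ≠ 5) :
    Zg p 99 17 (-400) (17 * ch1 p) := by
  by_cases hb : p < 199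
  · exact small400 p hp h3 h5 hb
  have hb : 199 ≤ p := by omega
  have : Fact p.Prime := ⟨hp⟩
  have g := G17b p hp hb
  have e : ((-400 - 32) * (-400 + 4) * M17.evI (-1) 2 M17.D : ℤ) = -1 * 9504 ^ 2 := by
    rw [D17b]
    norm_num
  have key := Zg_of_big p 99 17 (-400) ((-400 - 32) * (-400 + 4) * M17.evI (-1) 2 M17.D : ℤ) (ch1 p) g.hm
    (fun v hv => M17.big p valid17 (good17 p hp hb) (big17 p hp hb) P17b g v hv)
    (by
      rw [e]
      exact eul1 p h3 9504 (Final_ndvd p hp 9504 [2, 2, 2, 2, 2, 3, 3, 3, 11] (by norm_num) (by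
        intro q hq
        simp only [List.mem_cons, List.not_mem_nil, or_false] at hq
        exact Final_small p q (by omega) (by omega))))
  exact key

theorem all24304 (p : ℕ) (hp : p.Prime) (h3 : 3 < p) (h7 : p ≠ 7) (h31 : p ≠ 31) :
    Zg p 585 58 (-24304) (58 * ch31 p) := by
  by_cases hb : p < 199
  · exact small24304 p hp h3 h7 h31 hb
  have hb : 199 ≤ p := by omega
  have : Fact p.Prime := ⟨hp⟩
  have g := G17c p hp hb
  have e : ((-24304 - 32) * (-24304 + 4) * M17.evI 9 48 M17.D : ℤ) = -31 * 168480 ^ 2 := by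
    rw [D17c]
    norm_num
  have key := Zg_of_big p 585 58 (-24304) ((-24304 - 32) * (-24304 + 4) * M17.evI 9 48 M17.D : ℤ) (ch31 p) g.hm
    (fun v hv => M17.big p valid17 (good17 p hp hb) (big17 p hp hb) P17c g v hv)
    (by
      rw [e]
      exact eul31 p h3 h31 168480 (Final_ndvd p hp 168480 [2, 2, 2, 2, 2, 3, 3, 3, 3, 5, 13] (by norm_num) (by
        intro q hq
        simp only [List.mem_cons, List.not_mem_nil, or_false] at hq
        exact Final_small p q (by omega) (by omega))))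
  exact key

/-- from the cleared form to the congruence between rationals -/
theorem rat_of_Zg (p : ℕ) (hp : p.Prime) (a b m c : ℤ) (hm : ¬ (p : ℤ) ∣ m) (h : Zg p a b m c) :
    ∃ r : ℚ, ¬ p ∣ r.den ∧
      ∑ n ∈ range p, ((a : ℚ) * (n : ℚ) + (b : ℚ)) / (m : ℚ) ^ n
          * (((2 * n).choose n : ℕ) : ℚ) * ∑ k ∈ range (n + 1), ((n.choose k : ℕ) : ℚ) ^ 3
        - (c : ℚ) * (p : ℚ) = (p : ℚ) ^ 2 * r := by
  obtain ⟨t, ht⟩ := h
  have hm0 : (m : ℚ) ≠ 0 := by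
    intro h0
    apply hm
    have : m = 0 := by exact_mod_cast h0
    rw [this]
    exact dvd_zero _
  have hp0 : (p : ℚ) ≠ 0 := by exact_mod_cast hp.ne_zero
  have hmp : (m : ℚ) ^ (p - 1) ≠ 0 := pow_ne_zero _ hm0
  refine ⟨(t : ℚ) / (m : ℚ) ^ (p - 1), ?_, ?_⟩
  · intro hd
    have h1 : (((t : ℚ) / ((m ^ (p - 1) : ℤ) : ℚ)).den : ℤ) ∣ m ^ (p - 1) := by
      rw [← Rat.divInt_eq_div]
      exact Rat.den_dvd _ _
    have h2 : (p : ℤ) ∣ m ^ (p - 1) := by
      refine dvd_trans ?_ h1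
      push_cast
      exact_mod_cast hd
    exact hm (Prime.dvd_of_dvd_pow (Nat.prime_iff_prime_int.1 hp) h2)
  · have h1 := congrArg (Int.cast : ℤ → ℚ) ht
    push_cast at h1
    have h2 : ∑ n ∈ range p, ((a : ℚ) * (n : ℚ) + (b : ℚ)) / (m : ℚ) ^ n
          * (((2 * n).choose n : ℕ) : ℚ) * ∑ k ∈ range (n + 1), ((n.choose k : ℕ) : ℚ) ^ 3
        = (∑ n ∈ range p, ((a : ℚ) * n + b) * (bb n : ℚ) * (m : ℚ) ^ (p - 1 - n)) / (m : ℚ) ^ (p - 1) := by
      rw [sum_div]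
      refine sum_congr rfl fun n hn => ?_
      rw [mem_range] at hn
      have e1 : (m : ℚ) ^ (p - 1) = (m : ℚ) ^ (p - 1 - n) * (m : ℚ) ^ n := by
        rw [← pow_add]
        congr 1
        omega
      have e2 : (bb n : ℚ) = (((2 * n).choose n : ℕ) : ℚ) * ∑ k ∈ range (n + 1), ((n.choose k : ℕ) : ℚ) ^ 3 := by
        rw [bb, fr, Nat.centralBinom]
        push_cast
        rfl
      rw [e1, e2]
      have n1 : (m : ℚ) ^ n ≠ 0 := pow_ne_zero _ hm0
      have n2 : (m : ℚ) ^ (p - 1 - n) ≠ 0 := pow_ne_zero _ hm0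
      field_simp
    rw [h2]
    have h3 : ∑ n ∈ range p, ((a : ℚ) * n + b) * (bb n : ℚ) * (m : ℚ) ^ (p - 1 - n)
        = (p : ℚ) ^ 2 * t + c * p * (m : ℚ) ^ (p - 1) := by
      linear_combination h1
    rw [h3]
    field_simp
    ring

end Pool.Agent.Lib_helper91.FR
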