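import Pool.Agent.Lib_helper91.FR.ThApi

/-! Block Fran: the recurrence of the Franel numbers and its derivative.
With `P_k(x) = C(x,k)` (polynomial in `x`) and `q(x,k) = 4k^3 - (18k^2-3k+1)x + (27k-5)x^2 - 14x^3`, as polynomials in `x`:
 `∑_{k≤J} [x(x+1)² P_k(x+1)³ - x(7x²+7x+2) P_k(x)³ - 8 (x-k)³ P_k(x)³] = P_J(x)³ q(x,J)`   (induction on `J`:
 the step is `x(x+1)²(A+B)³ - (x(7x²+7x+2)+8(x-k)³+q(x,k))A³ + q(x,k-1)B³ = 0` for `A = P_k`, `B = P_{k-1}`, `kA = (x-k+1)B`), and
 `(x-k) P_k(x) = x P_k(x-1)`.  So with `Φ_J(x) = ∑_{k≤J} P_k(x)³`: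
 `x(x+1)² Φ_J(x+1) - x(7x²+7x+2) Φ_J(x) - 8x³ Φ_J(x-1) = P_J(x)³ q(x,J)`.
Evaluate, and differentiate then evaluate, at `x = n+1`, `J = n+3`: `P_J(n+1) = 0`; `Φ_J(m) = fr m`, `Φ_J'(m) = frd m` for `m ≤ J`
 (`P_k'(m) = C(m,k)(H_m - H_{m-k})` for `k ≤ m`, `P_k(m) = 0` for `k > m`; symmetry `k -> m-k`). -/

namespace Pool.Agent.Lib_helper91.FR

open Finset

section FranAux

variable {K : Type} [Field K]

/-- the binomial coefficient of a polynomial -/
noncomputable def FranB (x : Polynomial K) : ℕ → Polynomial K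
  | 0 => 1
  | k + 1 => Polynomial.C (((k : K) + 1)⁻¹) * (FranB x k * (x - (k : Polynomial K)))

theorem FranB_succ [CharZero K] (x : Polynomial K) (k : ℕ) :
    ((k : Polynomial K) + 1) * FranB x (k + 1) = FranB x k * (x - (k : Polynomial K)) := by
  have h1 : ((k : Polynomial K) + 1) = Polynomial.C ((k : K) + 1) := by simp
  have h2 : ((k : K) + 1) ≠ 0 := by exact_mod_cast Nat.succ_ne_zero k
  rw [FranB, h1, ← mul_assoc, ← Polynomial.C_mul, mul_inv_cancel₀ h2, Polynomial.C_1, one_mul]

theorem Fran_ne [CharZero K] (k : ℕ) : ((k : Polynomial K) + 1) ≠ 0 := by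
  have h1 : ((k : Polynomial K) + 1) = Polynomial.C ((k : K) + 1) := by simp
  have h2 : ((k : K) + 1) ≠ 0 := by exact_mod_cast Nat.succ_ne_zero k
  rw [h1]
  exact Polynomial.C_ne_zero.2 h2

theorem FranB_pascal [CharZero K] (x : Polynomial K) (k : ℕ) :
    FranB (x + 1) (k + 1) = FranB x (k + 1) + FranB x k := by
  induction k with
  | zero => simp [FranB]
  | succ k ih =>
    have h1 := FranB_succ (x + 1) (k + 1)
    have h2 := FranB_succ x (k + 1)
    have h3 := FranB_succ x k
    refine mul_left_cancel₀ (Fran_ne (K := K) (k + 1)) ?_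
    rw [h1, ih]
    push_cast at h1 h2 h3 ⊢
    linear_combination -h2 - h3

theorem FranB_shift [CharZero K] (x : Polynomial K) (k : ℕ) :
    (x - (k : Polynomial K)) * FranB x k = x * FranB (x - 1) k := by
  induction k with
  | zero => simp [FranB]
  | succ k ih =>
    have h1 := FranB_succ x k
    have h2 := FranB_succ (x - 1) k
    refine mul_left_cancel₀ (Fran_ne (K := K) k) ?_
    push_cast
    linear_combination (x - (k : Polynomial K) - 1) * h1 - x * h2 +
      (x - (k : Polynomial K) - 1) * ih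

theorem Fran_tele [CharZero K] (x : Polynomial K) (J : ℕ) :
    ∑ k ∈ range (J + 1), (x * (x + 1) ^ 2 * FranB (x + 1) k ^ 3
      - (x * (7 * x ^ 2 + 7 * x + 2) + 8 * (x - (k : Polynomial K)) ^ 3) * FranB x k ^ 3) =
    FranB x J ^ 3 * (4 * (J : Polynomial K) ^ 3
      - (18 * (J : Polynomial K) ^ 2 - 3 * (J : Polynomial K) + 1) * x
      + (27 * (J : Polynomial K) - 5) * x ^ 2 - 14 * x ^ 3) := by
  induction J with
  | zero =>
    simp [FranB]
    ring
  | succ k ih =>
    rw [sum_range_succ, ih, FranB_pascal]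
    have h := FranB_succ x k
    refine mul_left_cancel₀ (pow_ne_zero 3 (Fran_ne (K := K) k)) ?_
    push_cast
    generalize FranB x (k + 1) = A at *
    generalize FranB x k = B at *
    generalize (k : Polynomial K) = m at *
    linear_combination (x * (x + 1) ^ 2 * (((m + 1) * A + (m + 1) * B) ^ 2 +
      ((m + 1) * A + (m + 1) * B) * (B * (x - m) + (m + 1) * B) + (B * (x - m) + (m + 1) * B) ^ 2)
      - (x * (7 * x ^ 2 + 7 * x + 2) + 8 * (x - (m + 1)) ^ 3 + (4 * (m + 1) ^ 3
        - (18 * (m + 1) ^ 2 - 3 * (m + 1) + 1) * x + (27 * (m + 1) - 5) * x ^ 2 - 14 * x ^ 3)) *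
        (((m + 1) * A) ^ 2 + ((m + 1) * A) * (B * (x - m)) + (B * (x - m)) ^ 2)) * h

/-- the sum of the cubes -/
noncomputable def FranS (x : Polynomial K) (J : ℕ) : Polynomial K :=
  ∑ k ∈ range (J + 1), FranB x k ^ 3

theorem Fran_main [CharZero K] (x : Polynomial K) (J : ℕ) :
    x * (x + 1) ^ 2 * FranS (x + 1) J - x * (7 * x ^ 2 + 7 * x + 2) * FranS x J
      - 8 * x ^ 3 * FranS (x - 1) J =
    FranB x J ^ 3 * (4 * (J : Polynomial K) ^ 3
      - (18 * (J : Polynomial K) ^ 2 - 3 * (J : Polynomial K) + 1) * x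
      + (27 * (J : Polynomial K) - 5) * x ^ 2 - 14 * x ^ 3) := by
  rw [← Fran_tele, FranS, FranS, FranS, mul_sum, mul_sum, mul_sum, ← sum_sub_distrib,
    ← sum_sub_distrib]
  refine sum_congr rfl fun k _ => ?_
  have h := congrArg (fun f => f ^ 3) (FranB_shift x k)
  simp only [mul_pow] at h
  linear_combination 8 * h

theorem FranB_eval [CharZero K] (x : Polynomial K) (t : K) (c : ℕ) (hx : x.eval t = c) (k : ℕ) :
    (FranB x k).eval t = (c.choose k : K) := by
  induction k with
  | zero => simp [FranB]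
  | succ k ih =>
    rw [FranB, Polynomial.eval_mul, Polynomial.eval_mul, Polynomial.eval_sub, hx, ih,
      Polynomial.eval_C, Polynomial.eval_natCast]
    have h2 : ((k : K) + 1) ≠ 0 := by exact_mod_cast Nat.succ_ne_zero k
    rw [inv_mul_eq_iff_eq_mul₀ h2]
    rcases le_or_gt k c with h | h
    · have h3 := Nat.choose_succ_right_eq c k
      have h4 : ((c.choose (k + 1) : ℕ) : K) * ((k : K) + 1) = (c.choose k : K) * ((c : K) - k) := by
        have := congrArg (Nat.cast : ℕ → K) h3
        push_cast [Nat.cast_sub h] at this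
        exact this
      rw [← h4, mul_comm]
    · rw [Nat.choose_eq_zero_of_lt h, Nat.choose_eq_zero_of_lt (by omega)]
      simp

theorem Fran_Hn_succ (m : ℕ) : Hn K (m + 1) = Hn K m + ((m : K) + 1)⁻¹ := by
  rw [Hn, Hn, ← Finset.insert_Ioc_right_eq_Ioc_add_one (by omega : 0 ≤ m), sum_insert (by simp)]
  push_cast
  ring

theorem FranB_deriv [CharZero K] (x : Polynomial K) (hx1 : Polynomial.derivative x = 1) (t : K)
    (c : ℕ) (hx : x.eval t = c) (k : ℕ) (hk : k ≤ c) :
    (Polynomial.derivative (FranB x k)).eval t = (c.choose k : K) * (Hn K c - Hn K (c - k)) := by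
  induction k with
  | zero => simp [FranB]
  | succ k ih =>
    have ih' := ih (by omega)
    have h2 : ((k : K) + 1) ≠ 0 := by exact_mod_cast Nat.succ_ne_zero k
    rw [FranB, Polynomial.derivative_C_mul, Polynomial.derivative_mul, Polynomial.derivative_sub,
      hx1, Polynomial.derivative_natCast, sub_zero, mul_one, Polynomial.eval_mul,
      Polynomial.eval_add, Polynomial.eval_mul, Polynomial.eval_sub, hx, ih',
      FranB_eval x t c hx k, Polynomial.eval_C, Polynomial.eval_natCast]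
    rw [inv_mul_eq_iff_eq_mul₀ h2]
    obtain ⟨m, rfl⟩ : ∃ m, c = m + 1 + k := ⟨c - k - 1, by omega⟩
    have h3 := Nat.choose_succ_right_eq (m + 1 + k) k
    have h4 : (((m + 1 + k).choose (k + 1) : ℕ) : K) * ((k : K) + 1) =
        ((m + 1 + k).choose k : K) * ((m : K) + 1) := by
      have := congrArg (Nat.cast : ℕ → K) h3
      rw [show m + 1 + k - k = m + 1 by omega] at this
      push_cast at this
      exact this
    rw [show m + 1 + k - k = m + 1 by omega, show m + 1 + k - (k + 1) = m by omega,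
      Fran_Hn_succ m]
    have h5 : ((m : K) + 1) ≠ 0 := by exact_mod_cast Nat.succ_ne_zero m
    have h6 : ((m : K) + 1) * ((m : K) + 1)⁻¹ = 1 := mul_inv_cancel₀ h5
    push_cast
    linear_combination (-(Hn K (m + 1 + k) - Hn K m)) * h4 -
      (((m + 1 + k).choose k : ℕ) : K) * h6

theorem FranS_eval [CharZero K] (x : Polynomial K) (t : K) (c J : ℕ) (hx : x.eval t = c)
    (hJ : c ≤ J) : (FranS x J).eval t = (fr c : K) := by
  rw [FranS, Polynomial.eval_finsetSum, fr]
  push_cast
  symm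
  refine (sum_subset (range_mono (by omega)) fun k _ hk => ?_).trans (sum_congr rfl fun k _ => ?_)
  · rw [mem_range, not_lt] at hk
    rw [Nat.choose_eq_zero_of_lt (by omega)]
    simp
  · rw [Polynomial.eval_pow, FranB_eval x t c hx k]

theorem FranS_deriv [CharZero K] (x : Polynomial K) (hx1 : Polynomial.derivative x = 1) (t : K)
    (c J : ℕ) (hx : x.eval t = c) (hJ : c ≤ J) :
    (Polynomial.derivative (FranS x J)).eval t = frd K c := by
  have h1 : (Polynomial.derivative (FranS x J)).eval t =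
      ∑ k ∈ range (J + 1), 3 * (FranB x k).eval t ^ 2 *
        (Polynomial.derivative (FranB x k)).eval t := by
    rw [FranS, Polynomial.derivative_sum, Polynomial.eval_finsetSum]
    refine sum_congr rfl fun k _ => ?_
    rw [Polynomial.derivative_pow]
    simp
  rw [h1, frd, mul_sum]
  have h2 : ∑ k ∈ range (J + 1), 3 * (FranB x k).eval t ^ 2 *
        (Polynomial.derivative (FranB x k)).eval t =
      ∑ k ∈ range (c + 1), 3 * (FranB x k).eval t ^ 2 *
        (Polynomial.derivative (FranB x k)).eval t := by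
    symm
    refine sum_subset (range_mono (by omega)) fun k _ hk => ?_
    rw [mem_range, not_lt] at hk
    rw [FranB_eval x t c hx k, Nat.choose_eq_zero_of_lt (by omega)]
    simp
  rw [h2, ← sum_range_reflect]
  refine sum_congr rfl fun k hk => ?_
  rw [mem_range] at hk
  have h3 : c + 1 - 1 - k = c - k := by omega
  rw [h3, FranB_eval x t c hx, FranB_deriv x hx1 t c hx (c - k) (by omega),
    show c - (c - k) = k by omega, Nat.choose_symm (by omega)]
  ring

theorem Fran_diff (a b c r q : Polynomial K)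
    (h : Polynomial.X * (Polynomial.X + 1) ^ 2 * a
      - Polynomial.X * (7 * Polynomial.X ^ 2 + 7 * Polynomial.X + 2) * b
      - 8 * Polynomial.X ^ 3 * c = r ^ 3 * q) (t : K) (ht : t ≠ 0) (hr : r.eval t = 0) :
    (t + 1) ^ 2 * a.eval t = (7 * t ^ 2 + 7 * t + 2) * b.eval t + 8 * t ^ 2 * c.eval t ∧
    (t + 1) ^ 2 * (Polynomial.derivative a).eval t + 2 * (t + 1) * a.eval t =
      (7 * t ^ 2 + 7 * t + 2) * (Polynomial.derivative b).eval t + (14 * t + 7) * b.eval t +
        8 * t ^ 2 * (Polynomial.derivative c).eval t + 16 * t * c.eval t := by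
  have h1 := congrArg (Polynomial.eval t) h
  simp only [Polynomial.eval_mul, Polynomial.eval_sub, Polynomial.eval_add, Polynomial.eval_pow,
    Polynomial.eval_X, Polynomial.eval_one, Polynomial.eval_ofNat, hr] at h1
  have h2 := congrArg (fun f => (Polynomial.derivative f).eval t) h
  simp only [Polynomial.derivative_mul, Polynomial.derivative_sub, Polynomial.derivative_add,
    Polynomial.derivative_pow, Polynomial.derivative_X, Polynomial.derivative_one,
    Polynomial.derivative_ofNat, Polynomial.eval_mul, Polynomial.eval_sub, Polynomial.eval_add,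
    Polynomial.eval_pow, Polynomial.eval_X, Polynomial.eval_one, Polynomial.eval_ofNat, hr,
    Polynomial.eval_C, Polynomial.eval_zero, Polynomial.eval_natCast] at h2
  have h3 : (t + 1) ^ 2 * a.eval t = (7 * t ^ 2 + 7 * t + 2) * b.eval t + 8 * t ^ 2 * c.eval t := by
    refine mul_left_cancel₀ ht ?_
    linear_combination h1
  refine ⟨h3, mul_left_cancel₀ ht ?_⟩
  norm_num at h2
  linear_combination h2 - h3

end FranAux

theorem fr_rec (n : ℕ) :
    (n + 2) ^ 2 * fr (n + 2) = (7 * (n + 1) ^ 2 + 7 * (n + 1) + 2) * fr (n + 1) + 8 * (n + 1) ^ 2 * fr n := by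
  have ht : ((n : ℚ) + 1) ≠ 0 := by positivity
  have h := Fran_diff _ _ _ _ _ (Fran_main (K := ℚ) Polynomial.X (n + 2)) ((n : ℚ) + 1) ht (by
    rw [FranB_eval _ _ (n + 1) (by simp), Nat.choose_eq_zero_of_lt (by omega), Nat.cast_zero])
  have h1 := h.1
  rw [FranS_eval _ _ (n + 2) (n + 2) (by simp; ring) le_rfl,
    FranS_eval _ _ (n + 1) (n + 2) (by simp) (by omega),
    FranS_eval _ _ n (n + 2) (by simp) (by omega)] at h1
  have h2 : (((n + 2) ^ 2 * fr (n + 2) : ℕ) : ℚ) =
      (((7 * (n + 1) ^ 2 + 7 * (n + 1) + 2) * fr (n + 1) + 8 * (n + 1) ^ 2 * fr n : ℕ) : ℚ) := by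
    push_cast
    linear_combination h1
  exact_mod_cast h2

theorem frd_rec (K : Type) [Field K] [CharZero K] (n : ℕ) :
    ((n : K) + 2) ^ 2 * frd K (n + 2) + 2 * ((n : K) + 2) * (fr (n + 2) : K) =
      (7 * ((n : K) + 1) ^ 2 + 7 * ((n : K) + 1) + 2) * frd K (n + 1)
        + (14 * ((n : K) + 1) + 7) * (fr (n + 1) : K)
        + 8 * ((n : K) + 1) ^ 2 * frd K n + 16 * ((n : K) + 1) * (fr n : K) := by
  have ht : ((n : K) + 1) ≠ 0 := by exact_mod_cast Nat.succ_ne_zero n
  have h := Fran_diff _ _ _ _ _ (Fran_main (K := K) Polynomial.X (n + 2)) ((n : K) + 1) ht (by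
    rw [FranB_eval _ _ (n + 1) (by simp), Nat.choose_eq_zero_of_lt (by omega), Nat.cast_zero])
  have h1 := h.2
  have e1 : (Polynomial.X + 1 : Polynomial K).eval ((n : K) + 1) = ((n + 2 : ℕ) : K) := by
    simp
    ring
  have e2 : (Polynomial.X : Polynomial K).eval ((n : K) + 1) = ((n + 1 : ℕ) : K) := by simp
  have e3 : (Polynomial.X - 1 : Polynomial K).eval ((n : K) + 1) = ((n : ℕ) : K) := by simp
  rw [FranS_eval _ _ (n + 2) (n + 2) e1 le_rfl,
    FranS_eval _ _ (n + 1) (n + 2) e2 (by omega),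
    FranS_eval _ _ n (n + 2) e3 (by omega),
    FranS_deriv _ (by simp) _ (n + 2) (n + 2) e1 le_rfl,
    FranS_deriv _ (by simp) _ (n + 1) (n + 2) e2 (by omega),
    FranS_deriv _ (by simp) _ n (n + 2) e3 (by omega)] at h1
  linear_combination h1

end Pool.Agent.Lib_helper91.FR
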