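import Pool.Agent.Lib_helper91.FR.Lead

/-! Block HF: the ring `QK = (ℤ/p²)[√D0]`, power series over it, and Frobenius pairs.
`pow_p`: `p u^p = p τ(u)` for `u ∈ QK` (mod p: `(a+b√D0)^p = a + b D0^{(p-1)/2} √D0`, as `a^p = a` in `ZMod p`).
`HF f Φ`: `Φ` is `the value of f at (x0+ε)^p`, to first order.  HF_mul, HF_inv: `τ` is a ring hom, `e0 ∈ p QK`, `e0² = 0`. -/

namespace Pool.Agent.Lib_helper91.FR

open PowerSeries Finset

/-- formal derivative -/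
noncomputable def dX {R : Type} [CommRing R] (f : PowerSeries R) : PowerSeries R :=
  PowerSeries.derivative R f

theorem isDer_dX {R : Type} [CommRing R] : IsDer (dX (R := R)) := by
  refine ⟨fun a b => ?_, fun a b => ?_⟩
  · simp only [dX, map_add]
  · simp only [dX, Derivation.leibniz, smul_eq_mul]
    ring

theorem dX_X {R : Type} [CommRing R] : dX (X : PowerSeries R) = 1 := by
  rw [dX, derivative_X]

theorem dX_C {R : Type} [CommRing R] (c : R) : dX (C c : PowerSeries R) = 0 := by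
  rw [dX, derivative_C]

theorem constantCoeff_dX {R : Type} [CommRing R] (f : PowerSeries R) :
    constantCoeff (dX f) = coeff 1 f := by
  rw [dX, ← coeff_zero_eq_constantCoeff_apply, coeff_derivative]
  simp

/-- `(ℤ/p²)[√D0]` -/
abbrev QK (p : ℕ) (D0 : ℤ) : Type := QuadraticAlgebra (ZMod (p ^ 2)) ((D0 : ℤ) : ZMod (p ^ 2)) 0

/-- `√D0` -/
def sqD (p : ℕ) (D0 : ℤ) : QK p D0 := ⟨0, 1⟩

/-- the inclusion `ℤ/p² → QK` -/
def iK (p : ℕ) (D0 : ℤ) : ZMod (p ^ 2) →+* QK p D0 where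
  toFun a := ⟨a, 0⟩
  map_one' := rfl
  map_zero' := rfl
  map_add' a b := by ext <;> simp
  map_mul' a b := by ext <;> simp

/-- `a + b√D0 ↦ a + χ b √D0` -/
def tau (p : ℕ) (D0 : ℤ) (χ : ℤ) (u : QK p D0) : QK p D0 := ⟨u.re, (χ : ZMod (p ^ 2)) * u.im⟩

theorem tau_one_eq (p : ℕ) (D0 : ℤ) (u : QK p D0) : tau p D0 1 u = u := by
  simp [tau]

theorem tau_add (p : ℕ) (D0 χ : ℤ) (u v : QK p D0) : tau p D0 χ (u + v) = tau p D0 χ u + tau p D0 χ v := by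
  ext
  · simp [tau]
  · simp only [tau, QuadraticAlgebra.im_add]
    ring

theorem tau_mul (p : ℕ) (D0 χ : ℤ) (hχ : χ = 1 ∨ χ = -1) (u v : QK p D0) :
    tau p D0 χ (u * v) = tau p D0 χ u * tau p D0 χ v := by
  have h : ((χ : ℤ) : ZMod (p ^ 2)) ^ 2 = 1 := by
    rcases hχ with h | h <;> simp [h]
  ext
  · simp only [tau, QuadraticAlgebra.re_mul]
    linear_combination (-((D0 : ℤ) : ZMod (p ^ 2)) * u.im * v.im) * h
  · simp only [tau, QuadraticAlgebra.im_mul]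
    ring

theorem tau_iK (p : ℕ) (D0 χ : ℤ) (a : ZMod (p ^ 2)) : tau p D0 χ (iK p D0 a) = iK p D0 a := by
  ext <;> simp [tau, iK]

theorem QK_p_sq (p : ℕ) (D0 : ℤ) : ((p : ℕ) : QK p D0) ^ 2 = 0 := by
  have h : ((p ^ 2 : ℕ) : QK p D0) = 0 := by
    rw [← map_natCast (iK p D0) (p ^ 2)]
    have h2 : ((p ^ 2 : ℕ) : ZMod (p ^ 2)) = 0 := ZMod.natCast_self _
    rw [h2, map_zero]
  push_cast at h
  exact h

variable (p : ℕ) [Fact p.Prime] (D0 χ : ℤ)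

theorem HF_lift {k l : ℤ} (h : ((k : ℤ) : ZMod p) = ((l : ℤ) : ZMod p)) :
    (p : ZMod (p ^ 2)) * (k : ZMod (p ^ 2)) = (p : ZMod (p ^ 2)) * (l : ZMod (p ^ 2)) := by
  rw [ZMod.intCast_eq_intCast_iff_dvd_sub] at h
  obtain ⟨m, hm⟩ := h
  have h2 : ((p ^ 2 : ℕ) : ZMod (p ^ 2)) = 0 := ZMod.natCast_self _
  push_cast at h2
  have h3 : ((l - k : ℤ) : ZMod (p ^ 2)) = (((p : ℤ) * m : ℤ) : ZMod (p ^ 2)) := by rw [hm]
  push_cast at h3
  linear_combination (-(p : ZMod (p ^ 2))) * h3 - (m : ZMod (p ^ 2)) * h2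

theorem HF_fermat (x : ZMod (p ^ 2)) : (p : ZMod (p ^ 2)) * x ^ p = (p : ZMod (p ^ 2)) * x := by
  obtain ⟨k, rfl⟩ := ZMod.intCast_surjective x
  have h := HF_lift p (k := k ^ p) (l := k) (by push_cast; exact ZMod.pow_card _)
  push_cast at h
  exact h

theorem HF_iKmul (x y : ZMod (p ^ 2)) (h : (p : ZMod (p ^ 2)) * x = (p : ZMod (p ^ 2)) * y) :
    (p : QK p D0) * iK p D0 x = (p : QK p D0) * iK p D0 y := by
  rw [← map_natCast (iK p D0) p, ← map_mul, ← map_mul, h]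

theorem HF_e0 (e0 : ℤ) (he : (p : ℤ) ∣ e0) : (p : QK p D0) * (e0 : QK p D0) = 0 := by
  obtain ⟨m, rfl⟩ := he
  push_cast
  linear_combination (m : QK p D0) * QK_p_sq p D0

theorem HF_e0sq (e0 : ℤ) (he : (p : ℤ) ∣ e0) : (e0 : QK p D0) ^ 2 = 0 := by
  obtain ⟨m, rfl⟩ := he
  push_cast
  linear_combination (m : QK p D0) ^ 2 * QK_p_sq p D0

theorem HF_ps (p : ℕ) (D0 : ℤ) : (p : PowerSeries (QK p D0)) ^ 2 = 0 := by
  have h := QK_p_sq p D0
  have h2 := congrArg (C (R := QK p D0)) h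
  rw [map_pow, map_natCast, map_zero] at h2
  exact h2

theorem pow_p (hp : 3 < p) (hχD : ((D0 : ℤ) : ZMod p) ^ ((p - 1) / 2) = ((χ : ℤ) : ZMod p))
    (u : QK p D0) : (p : QK p D0) * u ^ p = (p : QK p D0) * tau p D0 χ u := by
  have hu : u = iK p D0 u.re + iK p D0 u.im * sqD p D0 := by
    ext <;> simp [iK, sqD]
  have ht : tau p D0 χ u = iK p D0 u.re + iK p D0 (u.im) * (iK p D0 (χ : ZMod (p ^ 2)) * sqD p D0) := by
    ext
    · simp [iK, sqD, tau]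
    · simp [iK, sqD, tau]
      ring
  have hp0 := (Fact.out : p.Prime)
  obtain ⟨r, hr⟩ := exists_add_pow_prime_eq hp0 (iK p D0 u.re) (iK p D0 u.im * sqD p D0)
  have h2 := QK_p_sq p D0
  have h3 : (p : QK p D0) * (iK p D0 u.re) ^ p = (p : QK p D0) * iK p D0 u.re := by
    rw [← map_pow]
    exact HF_iKmul p D0 _ _ (HF_fermat p _)
  have h4 : (p : QK p D0) * (iK p D0 u.im) ^ p = (p : QK p D0) * iK p D0 u.im := by
    rw [← map_pow]
    exact HF_iKmul p D0 _ _ (HF_fermat p _)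
  have h5 : (sqD p D0) ^ 2 = iK p D0 ((D0 : ℤ) : ZMod (p ^ 2)) := by
    rw [sq]
    ext <;> simp [sqD, iK]
  have h6 : (p : QK p D0) * (iK p D0 ((D0 : ℤ) : ZMod (p ^ 2))) ^ ((p - 1) / 2) =
      (p : QK p D0) * iK p D0 ((χ : ℤ) : ZMod (p ^ 2)) := by
    rw [← map_pow]
    refine HF_iKmul p D0 _ _ ?_
    have h := HF_lift p (k := D0 ^ ((p - 1) / 2)) (l := χ) (by push_cast; exact hχD)
    push_cast at h
    exact h
  have h7 : p = 2 * ((p - 1) / 2) + 1 := by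
    rcases hp0.eq_two_or_odd' with h | h
    · omega
    · obtain ⟨k, hk⟩ := h
      omega
  have h8' : ∀ n : ℕ, n = 2 * ((p - 1) / 2) + 1 →
      (sqD p D0) ^ n = (iK p D0 ((D0 : ℤ) : ZMod (p ^ 2))) ^ ((p - 1) / 2) * sqD p D0 := by
    intro n hn
    rw [hn, pow_succ, pow_mul, h5]
  have h8 := h8' p h7
  rw [ht]
  conv_lhs => rw [hu, hr, mul_pow, h8]
  linear_combination h3 + (iK p D0 ((D0 : ℤ) : ZMod (p ^ 2))) ^ ((p - 1) / 2) * sqD p D0 * h4 +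
    iK p D0 u.im * sqD p D0 * h6 +
    iK p D0 u.re * (iK p D0 u.im * sqD p D0) * r * h2

/-- Frobenius pair: `Φ = f((x0+ε)^p)` to first order; `e0 = x0^p - x0` -/
structure HF (e0 : ℤ) (f Φ : PowerSeries (QK p D0)) : Prop where
  c0 : constantCoeff Φ = tau p D0 χ (constantCoeff f) + (e0 : QK p D0) * tau p D0 χ (constantCoeff (dX f))
  c1 : ∃ G : PowerSeries (QK p D0), dX Φ = (p : PowerSeries (QK p D0)) * G ∧
    (p : QK p D0) * constantCoeff G = (p : QK p D0) * tau p D0 χ (constantCoeff (dX f))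
  c2 : ∃ G : PowerSeries (QK p D0), Φ = f ^ p + (p : PowerSeries (QK p D0)) * G

theorem HF_mul (hp : 3 < p) (hχ : χ = 1 ∨ χ = -1) (e0 : ℤ) (he : (p : ℤ) ∣ e0)
    (f g Φ Ψ : PowerSeries (QK p D0)) (hf : HF p D0 χ e0 f Φ) (hg : HF p D0 χ e0 g Ψ) :
    HF p D0 χ e0 (f * g) (Φ * Ψ) := by
  obtain ⟨a0, ⟨G1, a1, a1'⟩, ⟨G2, a2⟩⟩ := hf
  obtain ⟨b0, ⟨K1, b1, b1'⟩, ⟨K2, b2⟩⟩ := hg
  have hd : dX (f * g) = dX f * g + f * dX g := isDer_dX.mul f g
  have hD : dX (Φ * Ψ) = dX Φ * Ψ + Φ * dX Ψ := isDer_dX.mul Φ Ψ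
  have e1 := HF_e0 p D0 e0 he
  have e2 := HF_e0sq p D0 e0 he
  have hp2 := HF_ps p D0
  refine ⟨?_, ⟨G1 * Ψ + Φ * K1, ?_, ?_⟩, ⟨f ^ p * K2 + G2 * g ^ p, ?_⟩⟩
  · rw [hd]
    simp only [map_mul, map_add, tau_mul p D0 χ hχ, tau_add]
    rw [a0, b0]
    linear_combination (tau p D0 χ (constantCoeff (dX f)) * tau p D0 χ (constantCoeff (dX g))) * e2
  · rw [hD, a1, b1]
    ring
  · rw [hd]
    simp only [map_mul, map_add, tau_mul p D0 χ hχ, tau_add]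
    rw [a0, b0]
    linear_combination (tau p D0 χ (constantCoeff g) + e0 * tau p D0 χ (constantCoeff (dX g))) * a1' +
      (tau p D0 χ (constantCoeff f) + e0 * tau p D0 χ (constantCoeff (dX f))) * b1' +
      2 * (tau p D0 χ (constantCoeff (dX f)) * tau p D0 χ (constantCoeff (dX g))) * e1
  · rw [a2, b2, mul_pow]
    linear_combination (G2 * K2) * hp2

theorem HF_add (hp : 3 < p) (e0 : ℤ)
    (f g Φ Ψ : PowerSeries (QK p D0)) (hf : HF p D0 χ e0 f Φ) (hg : HF p D0 χ e0 g Ψ) :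
    HF p D0 χ e0 (f + g) (Φ + Ψ) := by
  obtain ⟨a0, ⟨G1, a1, a1'⟩, ⟨G2, a2⟩⟩ := hf
  obtain ⟨b0, ⟨K1, b1, b1'⟩, ⟨K2, b2⟩⟩ := hg
  have hd : dX (f + g) = dX f + dX g := isDer_dX.add f g
  have hD : dX (Φ + Ψ) = dX Φ + dX Ψ := isDer_dX.add Φ Ψ
  obtain ⟨r, hr⟩ := exists_add_pow_prime_eq (Fact.out : p.Prime) f g
  refine ⟨?_, ⟨G1 + K1, ?_, ?_⟩, ⟨G2 + K2 - f * g * r, ?_⟩⟩
  · rw [hd]
    simp only [map_add, tau_add]
    rw [a0, b0]
    ring
  · rw [hD, a1, b1]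
    ring
  · rw [hd]
    simp only [map_add, tau_add]
    linear_combination a1' + b1'
  · rw [a2, b2, hr]
    ring

theorem HF_int (e0 c : ℤ) : HF p D0 χ e0 (c : PowerSeries (QK p D0)) (c : PowerSeries (QK p D0)) := by
  have hc : ((c : ℤ) : PowerSeries (QK p D0)) = C ((c : ℤ) : QK p D0) := (map_intCast _ c).symm
  have hc2 : ((c : ℤ) : QK p D0) = iK p D0 (c : ZMod (p ^ 2)) := (map_intCast _ c).symm
  have hd : dX ((c : ℤ) : PowerSeries (QK p D0)) = 0 := by rw [hc, dX_C]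
  have ht : tau p D0 χ 0 = 0 := by
    have := tau_iK p D0 χ 0
    rw [map_zero] at this
    exact this
  refine ⟨?_, ⟨0, ?_, ?_⟩, ?_⟩
  · rw [hd, map_zero, ht, mul_zero, add_zero, hc, constantCoeff_C, hc2, tau_iK]
  · rw [hd, mul_zero]
  · rw [hd, map_zero, ht]
  · have h : ((c ^ p : ℤ) : ZMod p) = ((c : ℤ) : ZMod p) := by push_cast; exact ZMod.pow_card _
    rw [ZMod.intCast_eq_intCast_iff_dvd_sub] at h
    obtain ⟨m, hm⟩ := h
    refine ⟨(m : PowerSeries (QK p D0)), ?_⟩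
    have h3 : ((c - c ^ p : ℤ) : PowerSeries (QK p D0)) = (((p : ℤ) * m : ℤ) : PowerSeries (QK p D0)) := by
      rw [hm]
    push_cast at h3
    linear_combination h3

theorem HF_inv (hp : 3 < p) (hχ : χ = 1 ∨ χ = -1) (e0 : ℤ) (he : (p : ℤ) ∣ e0)
    (f f' Φ Φ' : PowerSeries (QK p D0)) (hf : HF p D0 χ e0 f Φ) (h : f * f' = 1) (h' : Φ * Φ' = 1) :
    HF p D0 χ e0 f' Φ' := by
  obtain ⟨a0, ⟨G1, a1, a1'⟩, ⟨G2, a2⟩⟩ := hf
  have e1 := HF_e0 p D0 e0 he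
  have e2 := HF_e0sq p D0 e0 he
  have hp2 := HF_ps p D0
  have hd0 : dX f * f' + f * dX f' = 0 := by
    have := isDer_dX.mul f f'
    rw [h, isDer_dX.one] at this
    exact this.symm
  have hD0 : dX Φ * Φ' + Φ * dX Φ' = 0 := by
    have := isDer_dX.mul Φ Φ'
    rw [h', isDer_dX.one] at this
    exact this.symm
  have t1 : tau p D0 χ 1 = 1 := by
    have := tau_iK p D0 χ 1
    rw [map_one] at this
    exact this
  have t0 : tau p D0 χ 0 = 0 := by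
    have := tau_iK p D0 χ 0
    rw [map_zero] at this
    exact this
  have hc : tau p D0 χ (constantCoeff f) * tau p D0 χ (constantCoeff f') = 1 := by
    rw [← tau_mul p D0 χ hχ, ← map_mul, h, map_one, t1]
  have hC : constantCoeff Φ * constantCoeff Φ' = 1 := by
    rw [← map_mul, h', map_one]
  have hdc : tau p D0 χ (constantCoeff (dX f)) * tau p D0 χ (constantCoeff f') +
      tau p D0 χ (constantCoeff f) * tau p D0 χ (constantCoeff (dX f')) = 0 := by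
    rw [← tau_mul p D0 χ hχ, ← tau_mul p D0 χ hχ, ← tau_add, ← map_mul, ← map_mul, ← map_add, hd0,
      map_zero, t0]
  have hdf : dX Φ' = (p : PowerSeries (QK p D0)) * (-(Φ' ^ 2 * G1)) := by
    linear_combination Φ' * hD0 - Φ' ^ 2 * a1 - (dX Φ') * h'
  have hC0 : constantCoeff Φ' = tau p D0 χ (constantCoeff f') +
      (e0 : QK p D0) * tau p D0 χ (constantCoeff (dX f')) := by
    set c := tau p D0 χ (constantCoeff f)
    set c' := tau p D0 χ (constantCoeff f')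
    set t := tau p D0 χ (constantCoeff (dX f))
    set t' := tau p D0 χ (constantCoeff (dX f'))
    rw [a0] at hC
    have hq : (c + e0 * t) * (c' + e0 * t') = 1 := by
      linear_combination hc + (e0 : QK p D0) * hdc + t * t' * e2
    linear_combination (c' + e0 * t') * hC - constantCoeff Φ' * hq
  refine ⟨hC0, ⟨-(Φ' ^ 2 * G1), hdf, ?_⟩, ⟨-(G2 * f' ^ p * Φ'), ?_⟩⟩
  · rw [map_neg, map_mul, map_pow, hC0]
    set c := tau p D0 χ (constantCoeff f)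
    set c' := tau p D0 χ (constantCoeff f')
    set t := tau p D0 χ (constantCoeff (dX f))
    set t' := tau p D0 χ (constantCoeff (dX f'))
    linear_combination (-(c' + e0 * t') ^ 2) * a1' + (-(2 * c' * t' * t + e0 * t' ^ 2 * t)) * e1 -
      (p : QK p D0) * c' * hdc + (p : QK p D0) * t' * hc
  · have hf' : f ^ p * f' ^ p = 1 := by rw [← mul_pow, h, one_pow]
    linear_combination (-(f' ^ p * Φ')) * a2 + (f' ^ p) * h' - Φ' * hf' 

/-- a Frobenius pair of a unit is a unit -/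
theorem HF_unit (hp : 3 < p) (hχ : χ = 1 ∨ χ = -1) (e0 : ℤ) (he : (p : ℤ) ∣ e0)
    (f Φ : PowerSeries (QK p D0)) (hf : HF p D0 χ e0 f Φ) (h : IsUnit f) : IsUnit Φ := by
  obtain ⟨G, hG⟩ := hf.c2
  obtain ⟨f', hf'⟩ := h.exists_right_inv
  have hp2 := HF_ps p D0
  have h2 : f ^ p * f' ^ p = 1 := by rw [← mul_pow, hf', one_pow]
  refine IsUnit.of_mul_eq_one (f' ^ p * (1 - (p : PowerSeries (QK p D0)) * G * f' ^ p)) ?_
  rw [hG]
  linear_combination (1 - (p : PowerSeries (QK p D0)) * G * f' ^ p) * h2 - G ^ 2 * (f' ^ p) ^ 2 * hp2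

end Pool.Agent.Lib_helper91.FR
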