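import Pool.Agent.Lib_helper91.FR.FRB
import Pool.Agent.Lib_helper91.FR.LD
import Pool.Agent.Lib_helper91.FR.JJ

/-! Block JH: the cleared functional equation.
With `g_i = u_i⁻¹`, `z_i = X^{e_i} g_i`, `H_i = κ/z_i`, `a_i = FT(z_i)`, `G2 = GT(z2)`, `M = (U+VY)/(dW) = (c/d) μ`, `s = ev sA`, modulo `p²`:
 `hom bb κ H_i = H_i^{p-1} a_i` exactly; `p hom gl κ H2 ≡ p H2^{p-1} G2` (PI_gl); `ev(NA a) ≡ s φ(ev a)`, `ev(NB W) ≡ 2E^p φ(ev W)`, `s = 8E^{2p}D^p`;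
 `κ^{p-1} NA(H2) - s H2^p ≡ s H2^p (κ^{p-1} φH2/H2^p - 1)`, `κ^{p-1}φH2/H2^p = φ(h2)/h2^p = g2^p/φg2`;
 `Zz = ∂(U+VY) W - (U+VY) ∂W = W² ∂((U+VY)/W) = W² υ θ(cμ)`, `∂H2 = -υ l2 H2` (`υ = -2YηX²`), `p odd`, so
 `Zz^p = -(c/..)...`:  `Zz^p / (d^p W^{2p} (∂H2)^p) = -((c/d) θμ/l2)^p / H2^p`, and `(·)^p ≡ φ(·) mod p` (frob), multiplied by a multiple of `p`.
 Conclusion: `ev Jh ≡ ev Lm * (c/d) * cL (JE p e1 e2 g1 g2 l2 μ)  mod p²` (all coefficients) and TL_mul. -/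

namespace Pool.Agent.Lib_helper91.FR

open PowerSeries Finset

theorem JH_hom_map {A B : Type} [CommRing A] [CommRing B] (p : ℕ) (a : ℕ → ℕ) (φ : A →+* B)
    (κ H : A) : φ (hom p a κ H) = hom p a (φ κ) (φ H) := by
  unfold hom
  rw [map_sum]
  refine Finset.sum_congr rfl fun k _ => ?_
  rw [map_mul, map_mul, map_natCast, map_pow, map_pow]

theorem JH_hom {A : Type} [CommRing A] (p : ℕ) (a : ℕ → ℕ) (κ H Z : A) (h : H * Z = κ) :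
    hom p a κ H = H ^ (p - 1) * ∑ k ∈ range p, (a k : A) * Z ^ k := by
  unfold hom
  rw [Finset.mul_sum]
  refine Finset.sum_congr rfl fun k hk => ?_
  rw [Finset.mem_range] at hk
  have e : H ^ (p - 1) = H ^ k * H ^ (p - 1 - k) := by
    rw [← pow_add]
    congr 1
    omega
  rw [← h, mul_pow, e]
  ring

section JH_pad

variable (p : ℕ) [Fact p.Prime]

theorem JH_cmp (a : ℕ → ℚ_[p]) (z : PowerSeries ℚ_[p]) (hz : constantCoeff z = 0) :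
    cL ℚ_[p] (cmp (PowerSeries.mk fun k => if k < p then a k else 0) z)
      = ∑ k ∈ range p, cL ℚ_[p] (C (a k)) * cL ℚ_[p] z ^ k := by
  rw [cmp_trunc _ _ _ hz, map_sum]
  refine Finset.sum_congr rfl fun k _ => ?_
  rw [map_mul, map_pow]

theorem JH_natC (n : ℕ) : cL ℚ_[p] (C (n : ℚ_[p])) = (n : LaurentSeries ℚ_[p]) := by
  rw [map_natCast, map_natCast]

theorem JH_intC (n : ℤ) : cL ℚ_[p] (C (n : ℚ_[p])) = (n : LaurentSeries ℚ_[p]) := by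
  rw [map_intCast, map_intCast]

theorem JH_cp (c : ℚ_[p]) (hc : ‖c‖ = 1) : PI 1 (c ^ p - c) := by
  have hc0 : PI 0 c := by
    have : ‖c‖ ≤ 1 := hc.le
    simpa [PI] using this
  have h := frob p (C c) (fun T => PO_C hc0) 1 0 one_pos
  rw [ph_C, ← map_pow, ← map_sub, coeff_zero_eq_constantCoeff_apply, constantCoeff_C] at h
  have := PI_neg h
  rwa [neg_sub] at this

theorem JH_dp (d : ℕ) (hd : ¬ (p : ℤ) ∣ d) : PI 1 ((d : ℚ_[p]) ^ (p - 1) - 1) := by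
  have h : (p : ℤ) ^ 1 ∣ (d : ℤ) ^ (p - 1) - 1 := by
    rw [pow_one, ← ZMod.intCast_zmod_eq_zero_iff_dvd]
    push_cast
    have h0 : (d : ZMod p) ≠ 0 := by
      intro h
      apply hd
      rw [← ZMod.intCast_zmod_eq_zero_iff_dvd]
      exact_mod_cast h
    rw [ZMod.pow_card_sub_one_eq_one h0, sub_self]
  have h1 := (PI_intCast_iff (p := p) 1 ((d : ℤ) ^ (p - 1) - 1)).2 h
  push_cast at h1
  exact h1

theorem JH_z (e : ℕ) (κ : LaurentSeries ℚ_[p]) (u g : PowerSeries ℚ_[p]) (h : u * g = 1) :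
    κ * mon ℚ_[p] (-(e : ℤ)) * cL ℚ_[p] u * cL ℚ_[p] (X ^ e * g) = κ := by
  have h1 : mon ℚ_[p] (-(e : ℤ)) * mon ℚ_[p] (e : ℤ) = 1 := by
    rw [← mon_add, neg_add_cancel, mon_zero]
  have h2 : cL ℚ_[p] u * cL ℚ_[p] g = 1 := by rw [← map_mul, h, map_one]
  have h3 : cL ℚ_[p] (X ^ e * g) = mon ℚ_[p] (e : ℤ) * cL ℚ_[p] g := by
    rw [map_mul, map_pow, cL_X, mon_pow, mul_one]
  rw [h3]
  linear_combination (κ * cL ℚ_[p] u * cL ℚ_[p] g) * h1 + κ * h2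

theorem JH_neg {A : Type} [CommRing A] (x : A) (n : ℕ) (h : Odd n) : (-x) ^ n = -(x ^ n) :=
  h.neg_pow x

/-- the algebra of JH -/
theorem JH_alg {A : Type} [CommRing A] (p : ℕ) (d W dH E2 NAR NBW sA NAH H1 H2 R2 Z κ hb1 hb2 hg2
    f1 f2 g c μ fμ fW fq del pp err1 err2 err3 err6 err9 : A)
    (F1 : NAR = sA * (c * fW * fμ) + err1)
    (F2 : κ ^ (p - 1) * NAH = sA * (H2 ^ p * (1 + del)) + err2)
    (F3 : NBW = E2 * fW + err3)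
    (F4 : hb1 = H1 ^ (p - 1) * f1) (F5 : hb2 = H2 ^ (p - 1) * f2)
    (F6 : pp * hg2 = H2 ^ (p - 1) * (pp * g) + err6)
    (F7 : R2 = c * W * μ)
    (F9 : -(Z ^ p * H2 ^ p) = d ^ (p - 1) * c * W ^ (2 * p) * dH ^ p * fq + err9) :
    d ^ (p - 1) * W ^ (2 * p + 1) * dH ^ p * E2 * NAR * hb2 * H1 ^ (p - 1)
      - d ^ (p - 1) * W ^ (2 * p) * dH ^ p * sA * NBW * R2 * hb1 * H2 ^ (p - 1)
      - Z ^ p * NBW * W * H1 ^ (p - 1)
        * ((κ ^ (p - 1) * NAH - sA * H2 ^ p) * hb2 + sA * pp * H2 ^ p * hg2)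
    = d ^ (p - 1) * c * W ^ (2 * p + 1) * dH ^ p * sA * NBW * (H1 ^ (p - 1) * H2 ^ (p - 1))
        * (f2 * fμ - μ * f1 + fq * (del * f2 + pp * g))
      + (d ^ (p - 1) * W ^ (2 * p + 1) * dH ^ p * (H1 ^ (p - 1) * H2 ^ (p - 1)) * f2 * E2 * err1
        - d ^ (p - 1) * W ^ (2 * p + 1) * dH ^ p * (H1 ^ (p - 1) * H2 ^ (p - 1)) * f2 * (sA * c * fμ) * err3
        - Z ^ p * NBW * W * H1 ^ (p - 1) * (H2 ^ (p - 1) * f2) * err2
        - Z ^ p * NBW * W * H1 ^ (p - 1) * (sA * H2 ^ p) * err6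
        + NBW * W * (H1 ^ (p - 1) * H2 ^ (p - 1)) * sA * ((del * f2 + pp * g) * err9)) := by
  have e1 : W ^ (2 * p + 1) = W ^ (2 * p) * W := pow_succ W (2 * p)
  rw [F1, F4, F5, F7, e1]
  have F6' : pp * hg2 = H2 ^ (p - 1) * (pp * g) + err6 := F6
  have hE : E2 * fW = NBW - err3 := by rw [F3]; ring
  linear_combination (d ^ (p - 1) * (W ^ (2 * p) * W) * dH ^ p * (sA * c * fμ) * (H2 ^ (p - 1) * f2)
      * H1 ^ (p - 1)) * hE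
    - (Z ^ p * NBW * W * H1 ^ (p - 1) * (H2 ^ (p - 1) * f2)) * F2
    - (Z ^ p * NBW * W * H1 ^ (p - 1) * (sA * H2 ^ p)) * F6'
    + (NBW * W * (H1 ^ (p - 1) * H2 ^ (p - 1)) * sA * (del * f2 + pp * g)) * F9

end JH_pad

namespace MD

variable (M : MD) (p : ℕ) [Fact p.Prime]

theorem JH (hM : M.Valid) (hG : M.Good p) (P : M.Pt (LaurentSeries ℚ_[p]))
    (hx : P.x = mon ℚ_[p] (-2)) (iη : IL 0 P.η) (iY : IL 0 P.Y)
    (hη0 : P.η ≠ 0) (hY0 : P.Y ≠ 0)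
    (w' : LaurentSeries ℚ_[p]) (hw : P.evB M.W * w' = 1) (iw : IL 0 w')
    (e1 e2 : ℕ) (he1 : 1 ≤ e1) (he2 : ¬ p ∣ e2) (u1 u2 μ l2 : PowerSeries ℚ_[p])
    (h1 : constantCoeff u1 = 1) (h2 : constantCoeff u2 = 1) (hμ : constantCoeff μ = 1)
    (i1 : ∀ T, PO 0 T u1) (i2 : ∀ T, PO 0 T u2) (iμ : ∀ T, PO 0 T μ)
    (hl2 : l2 * u2⁻¹ = (e2 : PowerSeries ℚ_[p]) * u2⁻¹ + th u2⁻¹)
    (c : ℚ_[p]) (hc : ‖c‖ = 1)
    (hH2 : P.ev M.H2 = cL ℚ_[p] (C (M.kap : ℚ_[p])) * mon ℚ_[p] (-(e2 : ℤ)) * cL ℚ_[p] u2)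
    (hH1 : P.ev M.H1 = cL ℚ_[p] (C (M.kap : ℚ_[p])) * mon ℚ_[p] (-(e1 : ℤ)) * cL ℚ_[p] u1)
    (hR2 : P.ev M.R2 = cL ℚ_[p] (C c) * P.evB M.W * cL ℚ_[p] μ)
    (hJ : PO 2 (T0 p) (JE p e1 e2 u1⁻¹ u2⁻¹ l2 μ))
    (n : ℤ) (hO : OL n (P.ev (M.Lm p))) :
    TL 2 ((T0 p : ℤ) + n) (P.ev (M.Jh p)) := by
  have hp : 3 < p := hG.h3
  have hpr : p.Prime := Fact.out
  have hpodd : Odd p := hpr.odd_of_ne_two (by omega)
  have hp1 : p - 1 + 1 = p := by omega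
  have he20 : e2 ≠ 0 := by
    rintro rfl
    exact he2 (dvd_zero p)
  -- inverses
  obtain ⟨g1, hg1⟩ : ∃ g1, g1 = u1⁻¹ := ⟨_, rfl⟩
  obtain ⟨g2, hg2⟩ : ∃ g2, g2 = u2⁻¹ := ⟨_, rfl⟩
  have hu1 : u1 * g1 = 1 := by rw [hg1]; exact PowerSeries.mul_inv_cancel _ (by rw [h1]; exact one_ne_zero)
  have hu2 : u2 * g2 = 1 := by rw [hg2]; exact PowerSeries.mul_inv_cancel _ (by rw [h2]; exact one_ne_zero)
  have hn1 : ‖constantCoeff u1‖ = 1 := by rw [h1, norm_one]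
  have hn2 : ‖constantCoeff u2‖ = 1 := by rw [h2, norm_one]
  have ig1 : ∀ T, PO 0 T g1 := fun T => by rw [hg1]; exact PO_inv (i1 T) hn1
  have ig2 : ∀ T, PO 0 T g2 := fun T => by rw [hg2]; exact PO_inv (i2 T) hn2
  rw [← hg1, ← hg2] at hJ
  rw [← hg2] at hl2
  have hg20 : constantCoeff g2 = 1 := by
    have := congrArg constantCoeff hu2
    rwa [map_mul, h2, one_mul, map_one] at this
  -- l2
  have hthu : th u2 = (e2 : PowerSeries ℚ_[p]) * u2 - l2 * u2 := by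
    have h := congrArg th hu2
    rw [th_mul, th_one] at h
    linear_combination u2 ^ 2 * hl2 + u2 * h - (l2 * u2 - (e2 : PowerSeries ℚ_[p]) * u2 + th u2) * hu2
  have hl2' : l2 = (e2 : PowerSeries ℚ_[p]) - th u2 * g2 := by
    linear_combination g2 * hthu - (l2 - (e2 : PowerSeries ℚ_[p])) * hu2
  have il2 : ∀ T, PO 0 T l2 := by
    intro T
    rw [hl2']
    exact PO_sub (PO_natCast e2 T) (PO_mul_left (PO_th (i2 T)) (ig2 T))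
  have hl20 : constantCoeff l2 = (e2 : ℚ_[p]) := by
    rw [hl2', map_sub, map_mul, constantCoeff_th, zero_mul, sub_zero, map_natCast]
  have hnl2 : ‖constantCoeff l2‖ = 1 := by
    rw [hl20]; exact norm_natCast_eq_one e2 he2
  have hl2i : l2 * l2⁻¹ = 1 := PowerSeries.mul_inv_cancel _ (by
    intro h
    rw [h, norm_zero] at hnl2
    exact zero_ne_one hnl2)
  have il2i : ∀ T, PO 0 T l2⁻¹ := fun T => PO_inv (il2 T) hnl2
  -- names of the values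
  obtain ⟨κ, hκ⟩ : ∃ κ : LaurentSeries ℚ_[p], κ = (M.kap : LaurentSeries ℚ_[p]) := ⟨_, rfl⟩
  obtain ⟨W, hW⟩ : ∃ W, W = P.evB M.W := ⟨_, rfl⟩
  obtain ⟨H1, hH1d⟩ : ∃ H1, H1 = P.ev M.H1 := ⟨_, rfl⟩
  obtain ⟨H2, hH2d⟩ : ∃ H2, H2 = P.ev M.H2 := ⟨_, rfl⟩
  obtain ⟨R2, hR2d⟩ : ∃ R2, R2 = P.ev M.R2 := ⟨_, rfl⟩
  obtain ⟨υ, hυ⟩ : ∃ υ, υ = -2 * P.Y * P.η * mon ℚ_[p] 2 := ⟨_, rfl⟩
  have hder : ∀ a : M.A, P.ev (M.dA a) = υ * thL (P.ev a) := fun a => by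
    rw [hυ]; exact ev_dA M ℚ_[p] P hx hη0 hY0 a
  have iE : ∀ a : M.A, IL 0 (P.ev a) := fun a => IL_ev M p P hx iη iY a
  have iB : ∀ b : M.B, IL 0 (P.evB b) := fun b => IL_evB M p P hx iη b
  rw [← hH1d, JH_intC, ← hκ] at hH1
  rw [← hH2d, JH_intC, ← hκ] at hH2
  rw [← hR2d, ← hW] at hR2
  -- the points z1, z2
  have hz1 : H1 * cL ℚ_[p] (X ^ e1 * g1) = κ := by
    rw [hH1]; exact JH_z p e1 κ u1 g1 hu1
  have hz2 : H2 * cL ℚ_[p] (X ^ e2 * g2) = κ := by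
    rw [hH2]; exact JH_z p e2 κ u2 g2 hu2
  have hz10 : constantCoeff (X ^ e1 * g1) = 0 := by
    rw [map_mul, map_pow, constantCoeff_X, zero_pow (by omega), zero_mul]
  have hz20 : constantCoeff (X ^ e2 * g2) = 0 := by
    rw [map_mul, map_pow, constantCoeff_X, zero_pow he20, zero_mul]
  have F4 : hom p bb κ H1 = H1 ^ (p - 1) * cL ℚ_[p] (cmp (FT p) (X ^ e1 * g1)) := by
    rw [JH_hom p bb κ H1 _ hz1, FT, JH_cmp p _ _ hz10]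
    congr 1
    refine Finset.sum_congr rfl fun k _ => ?_
    rw [JH_natC]
  have F5 : hom p bb κ H2 = H2 ^ (p - 1) * cL ℚ_[p] (cmp (FT p) (X ^ e2 * g2)) := by
    rw [JH_hom p bb κ H2 _ hz2, FT, JH_cmp p _ _ hz20]
    congr 1
    refine Finset.sum_congr rfl fun k _ => ?_
    rw [JH_natC]
  obtain ⟨err6, i6, F6⟩ : ∃ err6 : LaurentSeries ℚ_[p], IL 2 err6 ∧
      (p : LaurentSeries ℚ_[p]) * hom p (gl p) κ H2
        = H2 ^ (p - 1) * ((p : LaurentSeries ℚ_[p]) * cL ℚ_[p] (cmp (GT p) (X ^ e2 * g2))) + err6 := by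
    refine ⟨H2 ^ (p - 1) * ∑ k ∈ range p, ((p : LaurentSeries ℚ_[p]) * cL ℚ_[p] (C (-(gg ℚ_[p] k - (gl p k : ℚ_[p])))))
      * cL ℚ_[p] (X ^ e2 * g2) ^ k, ?_, ?_⟩
    · refine IL_mul_left (IL_pow (by rw [hH2d]; exact iE _) _) (IL_sum _ _ fun k hk => ?_)
      rw [Finset.mem_range] at hk
      refine IL_mul_right (IL_mul IL_p (IL_cL fun T => PO_C (PI_neg (PI_gl p k hk)))) (IL_pow (IL_cL fun T => ?_) k)
      exact PO_mul_left (PO_X_pow e2 T) (ig2 T)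
    · rw [JH_hom p (gl p) κ H2 _ hz2, GT, JH_cmp p _ _ hz20]
      have e : ∑ k ∈ range p, ((p : LaurentSeries ℚ_[p]) * cL ℚ_[p] (C (-(gg ℚ_[p] k - (gl p k : ℚ_[p])))))
            * cL ℚ_[p] (X ^ e2 * g2) ^ k
          = (p : LaurentSeries ℚ_[p]) * ∑ k ∈ range p, (gl p k : LaurentSeries ℚ_[p]) * cL ℚ_[p] (X ^ e2 * g2) ^ k
            - (p : LaurentSeries ℚ_[p]) * ∑ k ∈ range p, cL ℚ_[p] (C (gg ℚ_[p] k)) * cL ℚ_[p] (X ^ e2 * g2) ^ k := by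
        rw [Finset.mul_sum, Finset.mul_sum, ← Finset.sum_sub_distrib]
        refine Finset.sum_congr rfl fun k _ => ?_
        rw [map_neg, map_sub, map_neg, map_sub, JH_natC]
        ring
      rw [e]
      ring
  obtain ⟨err1, i1', F1⟩ : ∃ err1 : LaurentSeries ℚ_[p], IL 2 err1 ∧
      P.ev (M.NA p M.R2) = P.ev (M.sA p) * (cL ℚ_[p] (C c) * phL p ℚ_[p] W * cL ℚ_[p] (ph p ℚ_[p] μ)) + err1 := by
    refine ⟨_, FRB_NA M p hp P hx iη iY M.R2, ?_⟩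
    rw [← hR2d, hR2, map_mul, map_mul, phL_cL, phL_cL, ph_C]
    ring
  obtain ⟨err3, i3, F3⟩ : ∃ err3 : LaurentSeries ℚ_[p], IL 2 err3 ∧
      P.evB (M.NB p M.W) = P.evB (2 * M.iP (M.E ^ p)) * phL p ℚ_[p] W + err3 := by
    refine ⟨_, FRB_NB M p hp P hx iη M.W, ?_⟩
    rw [← hW]
    ring
  obtain ⟨err2, i2', F2⟩ : ∃ err2 : LaurentSeries ℚ_[p], IL 2 err2 ∧
      κ ^ (p - 1) * P.ev (M.NA p M.H2) = P.ev (M.sA p) * (H2 ^ p * (1 + cL ℚ_[p] (g2 ^ p * (ph p ℚ_[p] g2)⁻¹ - 1))) + err2 := by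
    have hφ : κ ^ (p - 1) * phL p ℚ_[p] H2
        = H2 ^ p * (1 + cL ℚ_[p] (g2 ^ p * (ph p ℚ_[p] g2)⁻¹ - 1)) := by
      have hinv : (ph p ℚ_[p] g2)⁻¹ = ph p ℚ_[p] u2 := by
        symm
        rw [PowerSeries.eq_inv_iff_mul_eq_one (by rw [constantCoeff_ph, hg20]; exact one_ne_zero),
          ← map_mul, hu2, map_one]
      have hug : cL ℚ_[p] u2 ^ p * cL ℚ_[p] g2 ^ p = 1 := by
        rw [← mul_pow, ← map_mul, hu2, map_one, one_pow]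
      have hκp : κ ^ (p - 1) * κ = κ ^ p := by rw [← pow_succ, hp1]
      have hφκ : phL p ℚ_[p] κ = κ := by rw [hκ, map_intCast]
      rw [hinv, map_sub, map_one, map_mul, map_pow, hH2, map_mul, map_mul, phL_mon, phL_cL, hφκ,
        mul_pow, mul_pow, mon_pow]
      linear_combination (mon ℚ_[p] ((p : ℤ) * -(e2 : ℤ)) * cL ℚ_[p] (ph p ℚ_[p] u2)) * hκp
        - (κ ^ p * mon ℚ_[p] ((p : ℤ) * -(e2 : ℤ)) * cL ℚ_[p] (ph p ℚ_[p] u2)) * hug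
    have h := FRB_NA M p hp P hx iη iY M.H2
    refine ⟨κ ^ (p - 1) * (P.ev (M.NA p M.H2) - P.ev (M.sA p) * phL p ℚ_[p] (P.ev M.H2)),
      IL_mul_left (IL_pow (by rw [hκ]; exact IL_intCast _) _) h, ?_⟩
    rw [← hφ, ← hH2d]
    ring
  have hdH : P.ev (M.dA M.H2) = -(υ * cL ℚ_[p] l2 * H2) := by
    have hc1 : cL ℚ_[p] (th u2) = (e2 : LaurentSeries ℚ_[p]) * cL ℚ_[p] u2 - cL ℚ_[p] l2 * cL ℚ_[p] u2 := by
      rw [hthu, map_sub, map_mul, map_mul, map_natCast]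
    have hc2 : thL κ = 0 := by rw [hκ]; exact thL_intCast _
    rw [hder, ← hH2d, hH2, thL_mul, thL_mul, hc2, thL_mon, thL_cL, hc1]
    push_cast
    ring
  have hZ : P.ev (M.Zz) = υ * cL ℚ_[p] (C c) * W ^ 2 * cL ℚ_[p] (th μ) := by
    unfold Zz
    rw [map_sub, map_mul, map_mul, hder, hder, Pt.ev_iB, ← hW, ← hR2d, hR2, thL_mul, thL_mul,
      thL_C, thL_cL]
    ring
  obtain ⟨err9, i9, F9⟩ : ∃ err9 : LaurentSeries ℚ_[p], IL 1 err9 ∧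
      -(P.ev M.Zz ^ p * H2 ^ p) = (M.d : LaurentSeries ℚ_[p]) ^ (p - 1) * cL ℚ_[p] (C c) * W ^ (2 * p)
        * P.ev (M.dA M.H2) ^ p * cL ℚ_[p] (ph p ℚ_[p] (th μ * l2⁻¹)) + err9 := by
    obtain ⟨q, hq⟩ : ∃ q, q = th μ * l2⁻¹ := ⟨_, rfl⟩
    have hq2 : th μ = q * l2 := by
      rw [hq]
      linear_combination (-(th μ)) * hl2i
    have iq : ∀ T, PO 0 T q := fun T => by rw [hq]; exact PO_mul_left (PO_th (iμ T)) (il2i T)
    have hiq : IL 0 (cL ℚ_[p] q) := IL_cL iq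
    have hfr : IL 1 (cL ℚ_[p] (ph p ℚ_[p] q) - cL ℚ_[p] q ^ p) := by
      have := frobL hiq
      rwa [phL_cL] at this
    have hcc : IL 1 (cL ℚ_[p] (C c) ^ p - cL ℚ_[p] (C c)) := by
      have := IL_cL (p := p) (j := 1) (f := C (c ^ p - c)) (fun T => PO_C (JH_cp p c hc))
      rwa [map_sub, map_sub, map_pow, map_pow] at this
    have hdd : IL 1 ((M.d : LaurentSeries ℚ_[p]) ^ (p - 1) - 1) := by
      have := IL_cL (p := p) (j := 1) (f := C ((M.d : ℚ_[p]) ^ (p - 1) - 1))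
        (fun T => PO_C (JH_dp p M.d hG.hd))
      rwa [map_sub, map_sub, map_pow, map_pow, JH_natC, map_one, map_one] at this
    have ic : IL 0 (cL ℚ_[p] (C c)) := IL_cL fun T => PO_C (by
      have : ‖c‖ ≤ 1 := hc.le
      simpa [PI] using this)
    have iυ : IL 0 υ := by
      rw [hυ]
      have e : (-2 * P.Y * P.η * mon ℚ_[p] 2) = ((-2 : ℤ) : LaurentSeries ℚ_[p]) * P.Y * P.η * mon ℚ_[p] 2 := by
        push_cast
        ring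
      rw [e]
      exact IL_mul_left (IL_mul_left (IL_mul_left (IL_intCast _) iY) iη) (IL_mon _)
    have hneg : (-(υ * cL ℚ_[p] l2 * H2)) ^ p = -((υ * cL ℚ_[p] l2 * H2) ^ p) := JH_neg _ p hpodd
    rw [← hq, hZ, hdH, hq2, map_mul, hneg]
    have iW : IL 0 W := by rw [hW]; exact iB _
    have iH2 : IL 0 H2 := by rw [hH2d]; exact iE _
    refine ⟨υ ^ p * W ^ (2 * p) * H2 ^ p * cL ℚ_[p] l2 ^ p *
      ((M.d : LaurentSeries ℚ_[p]) ^ (p - 1) * cL ℚ_[p] (C c)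
          * (cL ℚ_[p] (ph p ℚ_[p] q) - cL ℚ_[p] q ^ p)
        + (((M.d : LaurentSeries ℚ_[p]) ^ (p - 1) - 1) * cL ℚ_[p] (C c)
          - (cL ℚ_[p] (C c) ^ p - cL ℚ_[p] (C c))) * cL ℚ_[p] q ^ p), ?_, ?_⟩
    · refine IL_mul_left (IL_mul_left (IL_mul_left (IL_mul_left (IL_pow iυ _) (IL_pow iW _)) (IL_pow iH2 _))
        (IL_pow (IL_cL il2) _)) (IL_add ?_ ?_)
      · exact IL_mul_left (IL_mul_left (IL_pow (IL_natCast _) _) ic) hfr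
      · exact IL_mul_right (IL_sub (IL_mul_right hdd ic) hcc) (IL_pow hiq _)
    · have e2 : (W ^ 2) ^ p = W ^ (2 * p) := by rw [← pow_mul]
      rw [mul_pow, mul_pow, mul_pow, mul_pow, mul_pow, mul_pow, e2]
      ring
  have iW : IL 0 W := by rw [hW]; exact iB _
  have iH1 : IL 0 H1 := by rw [hH1d]; exact iE _
  have iH2 : IL 0 H2 := by rw [hH2d]; exact iE _
  have ic : IL 0 (cL ℚ_[p] (C c)) := IL_cL fun T => PO_C (by
      have : ‖c‖ ≤ 1 := hc.le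
      simpa [PI] using this)
  have iz1 : ∀ T, PO 0 T (X ^ e1 * g1) := fun T => PO_mul_left (PO_X_pow e1 T) (ig1 T)
  have iz2 : ∀ T, PO 0 T (X ^ e2 * g2) := fun T => PO_mul_left (PO_X_pow e2 T) (ig2 T)
  have if2 : IL 0 (cL ℚ_[p] (cmp (FT p) (X ^ e2 * g2))) :=
    IL_cL fun T => PO_cmp hz20 (PO_FT p T) (iz2 T)
  have ig : IL 0 (cL ℚ_[p] (cmp (GT p) (X ^ e2 * g2))) :=
    IL_cL fun T => PO_cmp hz20 (PO_GT p T) (iz2 T)
  have idel : IL 1 (cL ℚ_[p] (g2 ^ p * (ph p ℚ_[p] g2)⁻¹ - 1)) := by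
    refine IL_cL fun T => ?_
    have hinv : ph p ℚ_[p] g2 * (ph p ℚ_[p] g2)⁻¹ = 1 :=
      PowerSeries.mul_inv_cancel _ (by rw [constantCoeff_ph, hg20]; exact one_ne_zero)
    have e : g2 ^ p * (ph p ℚ_[p] g2)⁻¹ - 1 = -((ph p ℚ_[p] g2 - g2 ^ p) * (ph p ℚ_[p] g2)⁻¹) := by
      linear_combination hinv
    rw [e]
    have hiph : ∀ T, PO 0 T (ph p ℚ_[p] g2) := fun T =>
      PO_ph (n0 := T) (by nlinarith [hpr.one_lt]) (ig2 T)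
    refine PO_neg (PO_mul_right (frob p g2 ig2 T) (PO_inv (hiph T) ?_))
    rw [constantCoeff_ph, hg20, norm_one]
  have iph : IL 0 (cL ℚ_[p] (ph p ℚ_[p] μ)) := by
    rw [← phL_cL]
    exact IL_phL (IL_cL iμ)
  have hE2 : P.ev (2 * M.iB (M.iP (M.E ^ p))) = P.evB (2 * M.iP (M.E ^ p)) := by
    rw [map_mul, map_mul, map_ofNat, map_ofNat, Pt.ev_iB]
  have e0 : P.ev (M.Jh p) = (M.d : LaurentSeries ℚ_[p]) ^ (p - 1) * W ^ (2 * p + 1) * P.ev (M.dA M.H2) ^ p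
        * P.evB (2 * M.iP (M.E ^ p)) * P.ev (M.NA p M.R2) * hom p bb κ H2 * H1 ^ (p - 1)
      - (M.d : LaurentSeries ℚ_[p]) ^ (p - 1) * W ^ (2 * p) * P.ev (M.dA M.H2) ^ p * P.ev (M.sA p)
        * P.evB (M.NB p M.W) * R2 * hom p bb κ H1 * H2 ^ (p - 1)
      - P.ev M.Zz ^ p * P.evB (M.NB p M.W) * W * H1 ^ (p - 1)
        * ((κ ^ (p - 1) * P.ev (M.NA p M.H2) - P.ev (M.sA p) * H2 ^ p) * hom p bb κ H2
          + P.ev (M.sA p) * (p : LaurentSeries ℚ_[p]) * H2 ^ p * hom p (gl p) κ H2) := by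
    rw [← hE2, hκ, hH1d, hH2d, hR2d, hW]
    unfold Jh
    simp only [map_sub, map_mul, map_pow, map_add, map_natCast, map_intCast, JH_hom_map, Pt.ev_iB]
  have hsplit := e0.trans (JH_alg p (M.d : LaurentSeries ℚ_[p]) W (P.ev (M.dA M.H2)) (P.evB (2 * M.iP (M.E ^ p)))
    (P.ev (M.NA p M.R2)) (P.evB (M.NB p M.W)) (P.ev (M.sA p)) (P.ev (M.NA p M.H2)) H1 H2 R2
    (P.ev M.Zz) κ (hom p bb κ H1) (hom p bb κ H2) (hom p (gl p) κ H2)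
    (cL ℚ_[p] (cmp (FT p) (X ^ e1 * g1))) (cL ℚ_[p] (cmp (FT p) (X ^ e2 * g2)))
    (cL ℚ_[p] (cmp (GT p) (X ^ e2 * g2))) (cL ℚ_[p] (C c)) (cL ℚ_[p] μ)
    (cL ℚ_[p] (ph p ℚ_[p] μ)) (phL p ℚ_[p] W) (cL ℚ_[p] (ph p ℚ_[p] (th μ * l2⁻¹)))
    (cL ℚ_[p] (g2 ^ p * (ph p ℚ_[p] g2)⁻¹ - 1)) (p : LaurentSeries ℚ_[p])
    err1 err2 err3 err6 err9 F1 F2 F3 F4 F5 F6 hR2 F9)
  rw [hsplit]
  refine TL_add ?_ (TL_of_IL _ ?_)
  · have hA : IL 0 ((M.d : LaurentSeries ℚ_[p]) ^ (p - 1) * cL ℚ_[p] (C c) * W ^ (2 * p + 1) * P.ev (M.dA M.H2) ^ p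
        * P.ev (M.sA p) * P.evB (M.NB p M.W) * (H1 ^ (p - 1) * H2 ^ (p - 1))) :=
      IL_mul_left (IL_mul_left (IL_mul_left (IL_mul_left (IL_mul_left (IL_mul_left
        (IL_pow (IL_natCast _) _) ic) (IL_pow iW _)) (IL_pow (iE _) _)) (iE _)) (iB _))
        (IL_mul_left (IL_pow iH1 _) (IL_pow iH2 _))
    have hd0 : (M.d : ℚ_[p]) ≠ 0 := by
      have h := hM.hd
      exact_mod_cast (by omega : M.d ≠ 0)
    have hAL : (M.d : LaurentSeries ℚ_[p]) ^ (p - 1) * cL ℚ_[p] (C c) * W ^ (2 * p + 1) * P.ev (M.dA M.H2) ^ p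
        * P.ev (M.sA p) * P.evB (M.NB p M.W) * (H1 ^ (p - 1) * H2 ^ (p - 1))
        = cL ℚ_[p] (C (c * (M.d : ℚ_[p])⁻¹)) * P.ev (M.Lm p) := by
      have e0 : P.ev (M.Lm p) = (M.d : LaurentSeries ℚ_[p]) ^ p * W ^ (2 * p + 1) * P.ev (M.dA M.H2) ^ p
          * P.ev (M.sA p) * P.evB (M.NB p M.W) * (H1 * H2) ^ (p - 1) := by
        rw [hH1d, hH2d, hW]
        unfold Lm
        simp only [map_mul, map_pow, map_natCast, Pt.ev_iB]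
      have e1 : cL ℚ_[p] (C (c * (M.d : ℚ_[p])⁻¹)) * (M.d : LaurentSeries ℚ_[p]) ^ p
          = (M.d : LaurentSeries ℚ_[p]) ^ (p - 1) * cL ℚ_[p] (C c) := by
        have e2 : (M.d : LaurentSeries ℚ_[p]) ^ p = (M.d : LaurentSeries ℚ_[p]) ^ (p - 1) * (M.d : LaurentSeries ℚ_[p]) := by
          rw [← pow_succ, hp1]
        have e3 : cL ℚ_[p] (C (c * (M.d : ℚ_[p])⁻¹)) * (M.d : LaurentSeries ℚ_[p]) = cL ℚ_[p] (C c) := by
          rw [← JH_natC, ← map_mul, ← map_mul, inv_mul_cancel_right₀ hd0]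
        rw [e2, ← e3]
        ring
      rw [e0, mul_pow]
      linear_combination (-(W ^ (2 * p + 1) * P.ev (M.dA M.H2) ^ p
          * P.ev (M.sA p) * P.evB (M.NB p M.W) * (H1 ^ (p - 1) * H2 ^ (p - 1)))) * e1
    refine TL_mul hA ?_ ?_
    · rw [hAL]
      have := OL_mul (OL_cL (C (c * (M.d : ℚ_[p])⁻¹))) hO
      rwa [zero_add] at this
    · have h := TL_cL hJ
      have e : cL ℚ_[p] (JE p e1 e2 g1 g2 l2 μ) = cL ℚ_[p] (cmp (FT p) (X ^ e2 * g2)) * cL ℚ_[p] (ph p ℚ_[p] μ)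
          - cL ℚ_[p] μ * cL ℚ_[p] (cmp (FT p) (X ^ e1 * g1))
          + cL ℚ_[p] (ph p ℚ_[p] (th μ * l2⁻¹))
            * (cL ℚ_[p] (g2 ^ p * (ph p ℚ_[p] g2)⁻¹ - 1) * cL ℚ_[p] (cmp (FT p) (X ^ e2 * g2))
              + (p : LaurentSeries ℚ_[p]) * cL ℚ_[p] (cmp (GT p) (X ^ e2 * g2))) := by
        unfold JE
        have h0 : ∀ x y : PowerSeries ℚ_[p], cL ℚ_[p] (x * y) = cL ℚ_[p] x * cL ℚ_[p] y := map_mul (cL ℚ_[p])
        rw [map_add, map_sub, h0, h0, h0, map_add, h0, h0 (p : PowerSeries ℚ_[p]), map_natCast]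
      rw [← e]
      exact h
  · have iZ : IL 0 (P.ev M.Zz) := iE _
    have idH : IL 0 (P.ev (M.dA M.H2)) := iE _
    have isA : IL 0 (P.ev (M.sA p)) := iE _
    have iNB : IL 0 (P.evB (M.NB p M.W)) := iB _
    have iE2 : IL 0 (P.evB (2 * M.iP (M.E ^ p))) := iB _
    have iφW : IL 0 (phL p ℚ_[p] W) := IL_phL iW
    have idn : IL 0 ((M.d : LaurentSeries ℚ_[p]) ^ (p - 1)) := IL_pow (IL_natCast _) _
    have iHH : IL 0 (H1 ^ (p - 1) * H2 ^ (p - 1)) := IL_mul_left (IL_pow iH1 _) (IL_pow iH2 _)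
    have iK : IL 0 ((M.d : LaurentSeries ℚ_[p]) ^ (p - 1) * W ^ (2 * p + 1) * P.ev (M.dA M.H2) ^ p
        * (H1 ^ (p - 1) * H2 ^ (p - 1)) * cL ℚ_[p] (cmp (FT p) (X ^ e2 * g2))) :=
      IL_mul_left (IL_mul_left (IL_mul_left (IL_mul_left idn (IL_pow iW _)) (IL_pow idH _)) iHH) if2
    have iK2 : IL 0 (P.ev M.Zz ^ p * P.evB (M.NB p M.W) * W * H1 ^ (p - 1)) :=
      IL_mul_left (IL_mul_left (IL_mul_left (IL_pow iZ _) iNB) iW) (IL_pow iH1 _)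
    refine IL_add (IL_sub (IL_sub (IL_sub ?_ ?_) ?_) ?_) ?_
    · exact IL_mul_left (IL_mul_left iK iE2) i1'
    · exact IL_mul_left (IL_mul_left iK (IL_mul_left (IL_mul_left isA ic) iph)) i3
    · exact IL_mul_left (IL_mul_left iK2 (IL_mul_left (IL_pow iH2 _) if2)) i2'
    · exact IL_mul_left (IL_mul_left iK2 (IL_mul_left isA (IL_pow iH2 _))) i6
    · refine IL_mul_left (IL_mul_left (IL_mul_left (IL_mul_left iNB iW) iHH) isA) ?_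
      exact IL_mul (i := 1) (j := 1) (IL_add (IL_mul_right idel if2) (IL_mul_right IL_p ig)) i9

end MD

end Pool.Agent.Lib_helper91.FR
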