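import Pool.Agent.Lib_helper91.FR.TAY
import Pool.Agent.Lib_helper91.FR.CMN

/-! Block JPT: the functional equation at the CM point.  Apply `P.ev` to `Jh = p² g` (`p² = 0` in `QK`): `P.ev Jh = 0`.
Units: `ev H_i` (constant term `κ m`), `ev W` (`W0`), `ev dH2 = 4ηY κ dX h2` (`dX h2 (0) = -m L2`, `L2` unit by Num: `L2 - L1` unit and `L2 = s d M0 L1`),
`ev sA`, `ev NB W` (HF_unit).  Divide by `ev Lm`.  `c3 = -(dX Mm * h2 * k)^p`, `dX h2 * k = 1`, since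
`ev Zz = ev W² d 4ηY dX Mm`, `ev dH2 = κ 4ηY dX h2`; `p odd`; pow_p for the last relation. -/

namespace Pool.Agent.Lib_helper91.FR

open PowerSeries Finset

namespace MD

variable (M : MD) (p : ℕ) [Fact p.Prime] {x0 n0 m a b s : ℤ}

omit [Fact p.Prime] in
/-- the sum `hom` in terms of the inverse of `h` -/
theorem JPT_hom {T : Type} [CommRing T] (c : ℕ → ℕ) (κ h z : T) (hz : z * h = 1) :
    hom p c κ (κ * h) = (κ * h) ^ (p - 1) * ∑ k ∈ range p, (c k : T) * z ^ k := by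
  unfold hom
  rw [Finset.mul_sum]
  refine Finset.sum_congr rfl fun k hk => ?_
  have hk' : k < p := Finset.mem_range.1 hk
  have h1 : p - 1 = k + (p - 1 - k) := by omega
  have h2 : (κ * h) ^ (p - 1) = κ ^ k * h ^ k * (κ * h) ^ (p - 1 - k) := by
    conv_lhs => rw [h1, pow_add, mul_pow]
  rw [h2]
  have h3 : z ^ k * h ^ k = 1 := by rw [← mul_pow, hz, one_pow]
  linear_combination (-(c k : T) * κ ^ k * (κ * h) ^ (p - 1 - k)) * h3

/-- the algebra of the functional equation -/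
theorem JPT_alg {T : Type} [CommRing T] (q : ℕ) (hq : 0 < q) (d W dH E2 NAR a1 a2 g2 κ h1 h2 z2 sA NBW Mm Φ
    Φw ΦH Ψ Zz c3 pp : T) (hNAR : NAR = sA * (d * Φw * Φ)) (hNBW : NBW = E2 * Φw)
    (hΦH : ΦH = κ * Ψ) (hz2 : z2 * h2 = 1) (hc : Zz ^ q * (κ * h2) ^ q = -(d * W ^ 2 * dH) ^ q * c3) :
    d ^ (q - 1) * W ^ (2 * q + 1) * dH ^ q * E2 * NAR * ((κ * h2) ^ (q - 1) * a2)
        * (κ * h1) ^ (q - 1)
      - d ^ (q - 1) * W ^ (2 * q) * dH ^ q * sA * NBW * (d * W * Mm)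
        * ((κ * h1) ^ (q - 1) * a1) * (κ * h2) ^ (q - 1)
      - Zz ^ q * NBW * W * (κ * h1) ^ (q - 1)
        * ((κ ^ (q - 1) * (sA * ΦH) - sA * (κ * h2) ^ q) * ((κ * h2) ^ (q - 1) * a2)
          + sA * pp * (κ * h2) ^ q * ((κ * h2) ^ (q - 1) * g2)) =
    (d ^ q * W ^ (2 * q + 1) * dH ^ q * sA * NBW * ((κ * h1) * (κ * h2)) ^ (q - 1)) *
      (a2 * Φ - Mm * a1 + c3 * ((Ψ * z2 ^ q - 1) * a2 + pp * g2)) := by
  have e1 : κ ^ (q - 1) * κ = κ ^ q := by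
    rw [← pow_succ]
    congr 1
    omega
  have e2 : d ^ (q - 1) * d = d ^ q := by
    rw [← pow_succ]
    congr 1
    omega
  have e3 : z2 ^ q * h2 ^ q = 1 := by rw [← mul_pow, hz2, one_pow]
  have e4 : ((κ * h1) * (κ * h2)) ^ (q - 1) = (κ * h1) ^ (q - 1) * (κ * h2) ^ (q - 1) := mul_pow _ _ _
  have e5 : (d * W ^ 2 * dH) ^ q = d ^ q * W ^ (2 * q) * dH ^ q := by
    rw [mul_pow, mul_pow, ← pow_mul]
  have e6 : W ^ (2 * q + 1) = W ^ (2 * q) * W := pow_succ _ _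
  have e7 : (κ * h2) ^ q = κ ^ q * h2 ^ q := mul_pow _ _ _
  rw [e4, e6, hNAR, hNBW, hΦH]
  rw [e5, e7] at hc
  rw [e7]
  linear_combination (W ^ (2 * q) * W * dH ^ q * E2 * sA * Φw * (κ * h1) ^ (q - 1)
        * (κ * h2) ^ (q - 1) * (Φ * a2 - Mm * a1)) * e2
    - (Zz ^ q * E2 * Φw * W * (κ * h1) ^ (q - 1) * sA * Ψ * (κ * h2) ^ (q - 1) * a2) * e1
    + (Zz ^ q * E2 * Φw * W * (κ * h1) ^ (q - 1) * sA * κ ^ q * Ψ * (κ * h2) ^ (q - 1) * a2) * e3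
    - (E2 * Φw * W * (κ * h1) ^ (q - 1) * sA * (κ * h2) ^ (q - 1)
        * ((Ψ * z2 ^ q - 1) * a2 + pp * g2)) * hc

omit [Fact p.Prime] in
theorem JPT_map_hom {A T : Type} [CommRing A] [CommRing T] (φ : A →+* T) (c : ℕ → ℕ) (κ H : A) :
    φ (hom p c κ H) = hom p c (φ κ) (φ H) := by
  unfold hom
  simp only [map_sum, map_mul, map_pow, map_natCast]

/-- the functional equation over a general ring -/
theorem JPT_main {T : Type} [CommRing T] (P : M.Pt T) (h1 h2 z1 z2 Mm w2 κ' dMm k ΦR Φw ΦH : T)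
    (hh1 : ((M.kap : ℤ) : T) * h1 = P.ev M.H1) (hh2 : ((M.kap : ℤ) : T) * h2 = P.ev M.H2)
    (hz1 : z1 * h1 = 1) (hz2 : z2 * h2 = 1)
    (hMm : ((M.d : ℕ) : T) * P.evB M.W * Mm = P.ev M.R2)
    (hR1 : P.ev (M.NA p M.R2) = P.ev (M.sA p) * ΦR)
    (hw1 : P.evB (M.NB p M.W) = P.evB (2 * M.iP (M.E ^ p)) * Φw)
    (hH1 : P.ev (M.NA p M.H2) = P.ev (M.sA p) * ΦH)
    (hw2 : w2 * (((M.d : ℕ) : T) * Φw) = 1) (hκ' : κ' * ((M.kap : ℤ) : T) = 1)
    (hZ : P.ev M.Zz * (((M.kap : ℤ) : T) * h2) =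
      (((M.d : ℕ) : T) * P.evB M.W ^ 2 * P.ev (M.dA M.H2)) * (dMm * h2 * k))
    (e : P.ev (M.Jh p) = 0)
    (ud : IsUnit ((M.d : ℕ) : T)) (uW : IsUnit (P.evB M.W)) (udH : IsUnit (P.ev (M.dA M.H2)))
    (usA : IsUnit (P.ev (M.sA p))) (uE2 : IsUnit (2 * P.evB (M.iP (M.E ^ p))))
    (uΦw : IsUnit Φw) (uκ : IsUnit ((M.kap : ℤ) : T)) (uh1 : IsUnit h1) (uh2 : IsUnit h2) :
    (∑ k ∈ range p, (bb k : T) * z2 ^ k) * (w2 * ΦR)
        - Mm * (∑ k ∈ range p, (bb k : T) * z1 ^ k)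
        + (-(dMm * h2 * k) ^ p) * ((κ' * ΦH * z2 ^ p - 1) * (∑ k ∈ range p, (bb k : T) * z2 ^ k)
            + (p : T) * (∑ k ∈ range p, (gl p k : T) * z2 ^ k)) = 0 := by
  have hpp : p.Prime := Fact.out
  unfold Jh at e
  simp only [map_sub, map_mul, map_add, map_pow, map_natCast, map_intCast, map_ofNat, Pt.ev_iB,
    JPT_map_hom, hR1, hH1, hw1] at e
  rw [← hh1, ← hh2, ← hMm, JPT_hom p bb _ h1 z1 hz1, JPT_hom p bb _ h2 z2 hz2,
    JPT_hom p (gl p) _ h2 z2 hz2] at e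
  have halg := JPT_alg p hpp.pos ((M.d : ℕ) : T)
    (P.evB M.W) (P.ev (M.dA M.H2)) (2 * P.evB (M.iP (M.E ^ p)))
    (P.ev (M.sA p) * ΦR)
    (∑ k ∈ range p, (bb k : T) * z1 ^ k)
    (∑ k ∈ range p, (bb k : T) * z2 ^ k)
    (∑ k ∈ range p, (gl p k : T) * z2 ^ k)
    ((M.kap : ℤ) : T) h1 h2 z2 (P.ev (M.sA p))
    (2 * P.evB (M.iP (M.E ^ p)) * Φw) Mm (w2 * ΦR) Φw ΦH (κ' * ΦH) (P.ev M.Zz)
    (-(dMm * h2 * k) ^ p) ((p : ℕ) : T)
    (by linear_combination (-(P.ev (M.sA p) * ΦR)) * hw2)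
    rfl (by linear_combination (-ΦH) * hκ') hz2
    (by rw [neg_mul_neg, ← mul_pow, ← mul_pow, hZ])
  have e3 := halg.symm.trans e
  have u : IsUnit ((((M.d : ℕ) : T) ^ p * P.evB M.W ^ (2 * p + 1) * P.ev (M.dA M.H2) ^ p
      * P.ev (M.sA p) * (2 * P.evB (M.iP (M.E ^ p)) * Φw)
      * ((((M.kap : ℤ) : T) * h1) * (((M.kap : ℤ) : T) * h2)) ^ (p - 1))) :=
    (((((ud.pow p).mul (uW.pow _)).mul (udH.pow p)).mul usA).mul (uE2.mul uΦw)).mul
      (((uκ.mul uh1).mul (uκ.mul uh2)).pow _)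
  exact (IsUnit.mul_right_eq_zero u).1 e3

/-- an integer prime to `p` is a unit in `QK⟦X⟧` -/
theorem JPT_unit (D0 c : ℤ) (hc : ¬ (p : ℤ) ∣ c) : IsUnit ((c : ℤ) : PowerSeries (QK p D0)) := by
  have h := (CMN_unit p D0 c hc).map (C (R := QK p D0))
  rwa [map_intCast] at h

theorem JPT (hM : M.Valid) (hG : M.Good p) (hpt : M.Point x0 n0 m a b s)
    (hg : M.GoodPt x0 n0 m b p) (P : M.PPt p x0 n0) (χ : ℤ) (hχ : χ = 1 ∨ χ = -1)
    (hχD : ((M.evI x0 n0 M.D : ℤ) : ZMod p) ^ ((p - 1) / 2) = ((χ : ℤ) : ZMod p))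
    (hJ : ∃ g : M.A, M.Jh p = (p : M.A) ^ 2 * g) :
    ∃ h1 h2 z1 z2 Mm Φ Ψ c3 : PowerSeries (QK p (M.evI x0 n0 M.D)),
      ((M.kap : ℤ) : PowerSeries (QK p (M.evI x0 n0 M.D))) * h1 = P.toPt.ev M.H1 ∧
      ((M.kap : ℤ) : PowerSeries (QK p (M.evI x0 n0 M.D))) * h2 = P.toPt.ev M.H2 ∧
      z1 * h1 = 1 ∧ z2 * h2 = 1 ∧
      ((M.d : ℕ) : PowerSeries (QK p (M.evI x0 n0 M.D))) * P.toPt.evB M.W * Mm = P.toPt.ev M.R2 ∧
      HF p (M.evI x0 n0 M.D) χ (x0 ^ p - x0) Mm Φ ∧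
      HF p (M.evI x0 n0 M.D) χ (x0 ^ p - x0) h2 Ψ ∧
      (∃ Gc : PowerSeries (QK p (M.evI x0 n0 M.D)),
        dX c3 = (p : PowerSeries (QK p (M.evI x0 n0 M.D))) * Gc) ∧
      (p : QK p (M.evI x0 n0 M.D)) * constantCoeff c3
          * tau p (M.evI x0 n0 M.D) χ (-(constantCoeff z2) * constantCoeff (dX h2))
        = (p : QK p (M.evI x0 n0 M.D)) * tau p (M.evI x0 n0 M.D) χ (constantCoeff (dX Mm)) ∧
      (∑ k ∈ range p, (bb k : PowerSeries (QK p (M.evI x0 n0 M.D))) * z2 ^ k) * Φ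
        - Mm * (∑ k ∈ range p, (bb k : PowerSeries (QK p (M.evI x0 n0 M.D))) * z1 ^ k)
        + c3 * ((Ψ * z2 ^ p - 1)
              * (∑ k ∈ range p, (bb k : PowerSeries (QK p (M.evI x0 n0 M.D))) * z2 ^ k)
            + (p : PowerSeries (QK p (M.evI x0 n0 M.D)))
              * (∑ k ∈ range p, (gl p k : PowerSeries (QK p (M.evI x0 n0 M.D))) * z2 ^ k)) = 0 := by
  have hp3 := hG.h3
  have hpp : p.Prime := Fact.out
  have hder := isDer_dX (R := QK p (M.evI x0 n0 M.D))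
  -- units
  have uκ : IsUnit ((M.kap : ℤ) : PowerSeries (QK p (M.evI x0 n0 M.D))) := JPT_unit p _ _ hG.hkap
  have ud : IsUnit ((M.d : ℕ) : PowerSeries (QK p (M.evI x0 n0 M.D))) := by
    have := JPT_unit p (M.evI x0 n0 M.D) (M.d : ℤ) hG.hd
    rwa [Int.cast_natCast] at this
  have u2 : IsUnit (2 : PowerSeries (QK p (M.evI x0 n0 M.D))) := by
    have := JPT_unit p (M.evI x0 n0 M.D) 2 (fun h => by
      have := Int.le_of_dvd (by norm_num) h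
      omega)
    exact_mod_cast this
  have um : IsUnit ((m : ℤ) : QK p (M.evI x0 n0 M.D)) := CMN_unit p _ _ hg.hm
  have uW : IsUnit (P.toPt.evB M.W) := by
    rw [PowerSeries.isUnit_iff_constantCoeff, M.PPt_const_evB p P]
    exact CMN_unit p _ _ hg.hW
  have uη : IsUnit P.η := by
    rw [PowerSeries.isUnit_iff_constantCoeff, P.hη0]
    exact CMN_unit p _ _ hg.hn
  have uY : IsUnit P.Y := by
    rw [PowerSeries.isUnit_iff_constantCoeff, P.hY0]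
    have h := CMN_unit p (M.evI x0 n0 M.D) (M.evI x0 n0 M.D) hg.hD
    rw [← CMN_sqD] at h
    exact isUnit_of_mul_isUnit_left h
  -- the inverses
  obtain ⟨κ', hκ'⟩ := uκ.exists_left_inv
  obtain ⟨w', hw'⟩ := (ud.mul uW).exists_left_inv
  obtain ⟨v, hv⟩ := um.exists_left_inv
  have hh1 : ((M.kap : ℤ) : PowerSeries (QK p (M.evI x0 n0 M.D))) * (κ' * P.toPt.ev M.H1) =
      P.toPt.ev M.H1 := by
    rw [← mul_assoc, mul_comm _ κ', hκ', one_mul]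
  have hh2 : ((M.kap : ℤ) : PowerSeries (QK p (M.evI x0 n0 M.D))) * (κ' * P.toPt.ev M.H2) =
      P.toPt.ev M.H2 := by
    rw [← mul_assoc, mul_comm _ κ', hκ', one_mul]
  have hMm : ((M.d : ℕ) : PowerSeries (QK p (M.evI x0 n0 M.D))) * P.toPt.evB M.W *
      (w' * P.toPt.ev M.R2) = P.toPt.ev M.R2 := by
    rw [← mul_assoc, mul_comm _ w', hw', one_mul]
  obtain ⟨h1, hdef1⟩ : ∃ h1, h1 = κ' * P.toPt.ev M.H1 := ⟨_, rfl⟩
  obtain ⟨h2, hdef2⟩ : ∃ h2, h2 = κ' * P.toPt.ev M.H2 := ⟨_, rfl⟩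
  obtain ⟨Mm, hdefM⟩ : ∃ Mm, Mm = w' * P.toPt.ev M.R2 := ⟨_, rfl⟩
  rw [← hdef1] at hh1
  rw [← hdef2] at hh2
  rw [← hdefM] at hMm
  obtain ⟨c1, c2, hN⟩ := M.CMN p hM hG hpt hg P h1 h2 Mm v hv hh1 hh2 hMm
  have uh1 : IsUnit h1 := by
    rw [PowerSeries.isUnit_iff_constantCoeff, c1]
    exact um
  have uh2 : IsUnit h2 := by
    rw [PowerSeries.isUnit_iff_constantCoeff, c2]
    exact um
  obtain ⟨z1, hz1⟩ := uh1.exists_left_inv
  obtain ⟨z2, hz2⟩ := uh2.exists_left_inv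
  have cz2 : constantCoeff z2 = v := by
    have h := congrArg constantCoeff hz2
    rw [map_mul, map_one, c2, ← hv] at h
    exact um.mul_right_cancel h
  -- the derivative of h2 is a unit
  have uM0 : IsUnit (constantCoeff Mm) := by
    have h := hN.hM
    have h' : constantCoeff Mm * (((M.d : ℤ) : QK p (M.evI x0 n0 M.D)) ^ 2 *
        tau p (M.evI x0 n0 M.D) (-1) (constantCoeff Mm)) = 1 := by
      linear_combination h
    exact IsUnit.of_mul_eq_one _ h'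
  have uL1 : IsUnit (-v * constantCoeff (dX h1)) := by
    have h := hN.um
    have h3 : -v * constantCoeff (dX h2) - -v * constantCoeff (dX h1) =
        ((s : QK p (M.evI x0 n0 M.D)) * ((M.d : ℤ) : QK p (M.evI x0 n0 M.D)) *
          constantCoeff Mm - 1) * (-v * constantCoeff (dX h1)) := by
      linear_combination hN.hs'
    rw [h3] at h
    exact isUnit_of_mul_isUnit_right h
  have uL2 : IsUnit (-v * constantCoeff (dX h2)) := by
    rw [hN.hs']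
    refine (((?_ : IsUnit (s : QK p (M.evI x0 n0 M.D))).mul hN.ud).mul uM0).mul uL1
    rcases hN.hs with h | h <;> rw [h] <;> simp
  have udh2 : IsUnit (dX h2) := by
    rw [PowerSeries.isUnit_iff_constantCoeff]
    exact isUnit_of_mul_isUnit_right uL2
  obtain ⟨k, hk⟩ := udh2.exists_left_inv
  -- Frobenius pairs
  have he : (p : ℤ) ∣ x0 ^ p - x0 := by
    rw [← ZMod.intCast_zmod_eq_zero_iff_dvd]
    push_cast
    rw [ZMod.pow_card, sub_self]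
  obtain ⟨ΦR, hR1, hR2⟩ := M.TAY_NA p hp3 hpt hg P χ hχ hχD M.R2
  obtain ⟨Φw, hw1, hw2⟩ := M.TAY_NB p hp3 hpt hg P χ hχ hχD M.W
  obtain ⟨ΦH, hH1, hH2⟩ := M.TAY_NA p hp3 hpt hg P χ hχ hχD M.H2
  have hFκ := HF_int p (M.evI x0 n0 M.D) χ (x0 ^ p - x0) M.kap
  have hFκ' := HF_inv p (M.evI x0 n0 M.D) χ hp3 hχ (x0 ^ p - x0) he _ κ' _ κ' hFκ
    (by rw [mul_comm]; exact hκ') (by rw [mul_comm]; exact hκ')
  have hFh2 := HF_mul p (M.evI x0 n0 M.D) χ hp3 hχ (x0 ^ p - x0) he _ _ _ _ hFκ' hH2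
  rw [← hdef2] at hFh2
  have hFd := HF_int p (M.evI x0 n0 M.D) χ (x0 ^ p - x0) (M.d : ℤ)
  rw [Int.cast_natCast] at hFd
  have hFdW := HF_mul p (M.evI x0 n0 M.D) χ hp3 hχ (x0 ^ p - x0) he _ _ _ _ hFd hw2
  have uΦw := HF_unit p (M.evI x0 n0 M.D) χ hp3 hχ (x0 ^ p - x0) he _ _ hw2 uW
  obtain ⟨w2, hw2'⟩ := (ud.mul uΦw).exists_left_inv
  have hFw := HF_inv p (M.evI x0 n0 M.D) χ hp3 hχ (x0 ^ p - x0) he _ w' _ w2 hFdW
    (by rw [mul_comm]; exact hw') (by rw [mul_comm]; exact hw2')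
  have hFM := HF_mul p (M.evI x0 n0 M.D) χ hp3 hχ (x0 ^ p - x0) he _ _ _ _ hFw hR2
  rw [← hdefM] at hFM
  refine ⟨h1, h2, z1, z2, Mm, w2 * ΦR, κ' * ΦH, -(dX Mm * h2 * k) ^ p, hh1, hh2, hz1, hz2, hMm,
    hFM, hFh2, ?_, ?_, ?_⟩
  · refine ⟨-((dX Mm * h2 * k) ^ (p - 1) * dX (dX Mm * h2 * k)), ?_⟩
    rw [hder.neg, hder.pow]
    ring
  · have h5 : (p : QK p (M.evI x0 n0 M.D)) * constantCoeff (-(dX Mm * h2 * k) ^ p) =
        -((p : QK p (M.evI x0 n0 M.D)) *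
          tau p (M.evI x0 n0 M.D) χ (constantCoeff (dX Mm * h2 * k))) := by
      rw [map_neg, map_pow, mul_neg, pow_p p (M.evI x0 n0 M.D) χ hp3 hχD]
    rw [h5, neg_mul, mul_assoc, ← tau_mul _ _ _ hχ, ← mul_neg, ← CMN_tau_neg]
    congr 2
    rw [map_mul, map_mul, c2, cz2]
    have h6 := congrArg constantCoeff hk
    rw [map_mul, map_one] at h6
    linear_combination (constantCoeff (dX Mm) * (v * m)) * h6 + constantCoeff (dX Mm) * hv
  · -- the main equation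
    obtain ⟨g, hg'⟩ := hJ
    have e := congrArg P.toPt.ev hg'
    have hp2 : ((p : ℕ) : PowerSeries (QK p (M.evI x0 n0 M.D))) ^ 2 = 0 := by
      have h := congrArg (C (R := QK p (M.evI x0 n0 M.D))) (QK_p_sq p (M.evI x0 n0 M.D))
      rwa [map_pow, map_natCast, map_zero] at h
    rw [map_mul, map_pow, map_natCast, hp2, zero_mul] at e
    have hdH : P.toPt.ev (M.dA M.H2) = 4 * P.η * P.Y *
        (((M.kap : ℤ) : PowerSeries (QK p (M.evI x0 n0 M.D))) * dX h2) := by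
      rw [M.PPt_dA p hp3 hg P, ← hh2, hder.mul, hder.intCast, zero_mul, zero_add]
    have hZz : P.toPt.ev M.Zz = 4 * P.η * P.Y *
        (((M.d : ℕ) : PowerSeries (QK p (M.evI x0 n0 M.D))) * P.toPt.evB M.W ^ 2 * dX Mm) := by
      unfold Zz
      have hd0 : dX ((M.d : ℕ) : PowerSeries (QK p (M.evI x0 n0 M.D))) = 0 := by
        have := hder.intCast (M.d : ℤ)
        rwa [Int.cast_natCast] at this
      rw [map_sub, map_mul, map_mul, M.PPt_dA p hp3 hg P, M.PPt_dA p hp3 hg P, Pt.ev_iB, ← hMm,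
        mul_assoc ((M.d : ℕ) : PowerSeries (QK p (M.evI x0 n0 M.D))), hder.mul, hd0, hder.mul]
      ring
    have hZ : P.toPt.ev M.Zz * (((M.kap : ℤ) : PowerSeries (QK p (M.evI x0 n0 M.D))) * h2) =
        (((M.d : ℕ) : PowerSeries (QK p (M.evI x0 n0 M.D))) * P.toPt.evB M.W ^ 2
          * P.toPt.ev (M.dA M.H2)) * (dX Mm * h2 * k) := by
      rw [hZz, hdH]
      linear_combination (-(4 * P.η * P.Y * (((M.d : ℕ) : PowerSeries (QK p (M.evI x0 n0 M.D)))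
        * P.toPt.evB M.W ^ 2 * dX Mm)
        * (((M.kap : ℤ) : PowerSeries (QK p (M.evI x0 n0 M.D))) * h2))) * hk
    have u4 : IsUnit (4 : PowerSeries (QK p (M.evI x0 n0 M.D))) := by
      have := u2.mul u2
      norm_num at this
      exact this
    have udH : IsUnit (P.toPt.ev (M.dA M.H2)) := by
      rw [hdH]
      exact ((u4.mul uη).mul uY).mul (uκ.mul udh2)
    have uE2 : IsUnit (2 * P.toPt.evB (M.iP (M.E ^ p))) := by
      refine u2.mul ?_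
      rw [Pt.evB_iP, map_pow, Pt.evP_E]
      exact (uη.pow 2).pow p
    have usA : IsUnit (P.toPt.ev (M.sA p)) := by
      unfold sA
      rw [Pt.ev_iB, map_mul, map_mul, map_ofNat, map_pow, Pt.evB_iP, map_pow, Pt.evP_E, Pt.evB_D]
      have u8 : IsUnit (8 : PowerSeries (QK p (M.evI x0 n0 M.D))) := by
        have := u2.mul u4
        norm_num at this
        exact this
      exact (u8.mul ((uη.pow 2).pow _)).mul ((uY.pow 2).pow p)
    exact JPT_main M p P.toPt h1 h2 z1 z2 Mm w2 κ' (dX Mm) k ΦR Φw ΦH hh1 hh2 hz1 hz2 hMm hR1 hw1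
      hH1 hw2' hκ' hZ e ud uW udH usA uE2 uΦw uκ uh1 uh2

end MD

end Pool.Agent.Lib_helper91.FR
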