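import Pool.Agent.Lib_helper91.FR.LSA
import Pool.Agent.Lib_helper91.FR.ThApi

/-! Block LSB: Laurent series (orders; fields). -/

namespace Pool.Agent.Lib_helper91.FR

open PowerSeries Finset

section ring
variable {R : Type} [CommRing R]

/-- the power series part -/
noncomputable def LSB_g (a : ℤ) (f : LaurentSeries R) : PowerSeries R :=
  PowerSeries.mk fun n => f.coeff (a + n)

theorem LSB_dec {a : ℤ} {f : LaurentSeries R} (hf : OL a f) : f = mon R a * cL R (LSB_g a f) := by
  ext n
  rw [coeff_mon_mul, LSA_coeff_cL']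
  split_ifs with h
  · exact hf n (by omega)
  · unfold LSB_g
    rw [PowerSeries.coeff_mk]
    congr 1
    have h2 : (((n - a).toNat : ℕ) : ℤ) = n - a := Int.toNat_of_nonneg (by omega)
    rw [h2]; ring

theorem LSB_const (a : ℤ) (f : LaurentSeries R) : constantCoeff (LSB_g a f) = f.coeff a := by
  unfold LSB_g
  rw [← PowerSeries.coeff_zero_eq_constantCoeff_apply, PowerSeries.coeff_mk]
  simp

theorem LSB_coeff (a : ℤ) (f : LaurentSeries R) (n : ℕ) : coeff n (LSB_g a f) = f.coeff (a + n) := by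
  unfold LSB_g
  rw [PowerSeries.coeff_mk]

variable (p : ℕ) [Fact p.Prime]

/-! order -/

theorem OL_mono {a b : ℤ} (h : a ≤ b) {f : LaurentSeries R} (hf : OL b f) : OL a f :=
  fun n hn => hf n (by omega)

theorem OL_add {a : ℤ} {f g : LaurentSeries R} (hf : OL a f) (hg : OL a g) : OL a (f + g) := by
  intro n hn
  rw [HahnSeries.coeff_add, hf n hn, hg n hn, add_zero]

theorem OL_sub {a : ℤ} {f g : LaurentSeries R} (hf : OL a f) (hg : OL a g) : OL a (f - g) := by
  intro n hn
  rw [HahnSeries.coeff_sub, hf n hn, hg n hn, sub_zero]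

theorem OL_neg {a : ℤ} {f : LaurentSeries R} (hf : OL a f) : OL a (-f) := by
  intro n hn
  rw [HahnSeries.coeff_neg, hf n hn, neg_zero]

theorem LSB_zero (a : ℤ) : OL a (0 : LaurentSeries R) := fun _ _ => HahnSeries.coeff_zero

theorem OL_sum {ι : Type} (s : Finset ι) {a : ℤ} (f : ι → LaurentSeries R) (h : ∀ i ∈ s, OL a (f i)) :
    OL a (∑ i ∈ s, f i) := by
  classical
  induction s using Finset.induction_on with
  | empty => rw [Finset.sum_empty]; exact LSB_zero a
  | insert i s hi ih =>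
    rw [Finset.sum_insert hi]
    exact OL_add (h i (Finset.mem_insert_self i s)) (ih fun j hj => h j (Finset.mem_insert_of_mem hj))

theorem OL_cL (f : PowerSeries R) : OL 0 (cL R f) := fun n hn => coeff_cL_neg f n hn

theorem LSB_mul {a b : ℤ} {f g : LaurentSeries R} (hf : OL a f) (hg : OL b g) :
    f * g = mon R (a + b) * cL R (LSB_g a f * LSB_g b g) := by
  rw [mon_add, map_mul]
  nth_rewrite 1 [LSB_dec hf]
  nth_rewrite 1 [LSB_dec hg]
  ring

theorem LSB_OL_mon_cL (a : ℤ) (u : PowerSeries R) : OL a (mon R a * cL R u) := by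
  intro n hn
  rw [coeff_mon_mul]
  exact coeff_cL_neg u _ (by omega)

theorem LSB_coeff_mon_cL (a : ℤ) (u : PowerSeries R) :
    (mon R a * cL R u).coeff a = constantCoeff u := by
  rw [coeff_mon_mul, sub_self]
  have := coeff_cL u 0
  rw [Nat.cast_zero] at this
  rw [this, PowerSeries.coeff_zero_eq_constantCoeff_apply]

theorem OL_mul {a b : ℤ} {f g : LaurentSeries R} (hf : OL a f) (hg : OL b g) : OL (a + b) (f * g) := by
  rw [LSB_mul hf hg]
  exact LSB_OL_mon_cL _ _

/-- leading coefficient of a product -/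
theorem coeff_mul_OL {a b : ℤ} {f g : LaurentSeries R} (hf : OL a f) (hg : OL b g) :
    (f * g).coeff (a + b) = f.coeff a * g.coeff b := by
  rw [LSB_mul hf hg, LSB_coeff_mon_cL, map_mul, LSB_const, LSB_const]

theorem OL_mon (a : ℤ) : OL a (mon R a) := by
  intro n hn
  rw [coeff_mon, if_neg (by omega)]

theorem LSB_one : OL 0 (1 : LaurentSeries R) := by
  rw [← mon_zero]; exact OL_mon 0

theorem OL_pow {a : ℤ} {f : LaurentSeries R} (hf : OL a f) (n : ℕ) : OL (n * a) (f ^ n) := by
  induction n with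
  | zero => simpa using LSB_one
  | succ n ih =>
    rw [pow_succ]
    have h := OL_mul ih hf
    have h2 : ((n + 1 : ℕ) : ℤ) * a = n * a + a := by push_cast; ring
    rw [h2]
    exact h

theorem coeff_pow_OL {a : ℤ} {f : LaurentSeries R} (hf : OL a f) (n : ℕ) :
    (f ^ n).coeff (n * a) = f.coeff a ^ n := by
  induction n with
  | zero =>
    rw [Nat.cast_zero, zero_mul, pow_zero, pow_zero, ← mon_zero, coeff_mon, if_pos rfl]
  | succ n ih =>
    have h2 : ((n + 1 : ℕ) : ℤ) * a = n * a + a := by push_cast; ring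
    rw [h2, pow_succ, pow_succ, coeff_mul_OL (OL_pow hf n) hf, ih]

theorem OL_intCast (c : ℤ) : OL 0 (c : LaurentSeries R) := by
  have h : (c : LaurentSeries R) = cL R (c : PowerSeries R) := by rw [map_intCast]
  rw [h]
  exact OL_cL _

theorem OL_thL {a : ℤ} {f : LaurentSeries R} (hf : OL a f) : OL a (thL f) := by
  intro n hn
  rw [coeff_thL, hf n hn, mul_zero]

theorem OL_phL {a : ℤ} {f : LaurentSeries R} (hf : OL a f) : OL (p * a) (phL p R f) := by
  intro n hn
  by_cases h : (p : ℤ) ∣ n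
  · obtain ⟨m, rfl⟩ := h
    rw [coeff_phL_mul]
    have hp : (0 : ℤ) < (p : ℤ) := by exact_mod_cast (Fact.out : p.Prime).pos
    exact hf m (lt_of_mul_lt_mul_left hn hp.le)
  · exact coeff_phL_of_not_dvd p f n h

end ring

section field
variable {K : Type} [Field K]

/-- factorization of a Laurent series with known leading term -/
theorem exists_unit {a : ℤ} {f : LaurentSeries K} (hf : OL a f) {c : K} (hc : f.coeff a = c)
    (h0 : c ≠ 0) : ∃ u : PowerSeries K, constantCoeff u = 1 ∧ f = cL K (C c) * mon K a * cL K u := by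
  refine ⟨C c⁻¹ * LSB_g a f, ?_, ?_⟩
  · rw [map_mul, LSB_const, hc]
    simp [h0]
  · rw [map_mul]
    nth_rewrite 1 [LSB_dec hf]
    have h : cL K (C c) * cL K (C c⁻¹) = 1 := by
      rw [← map_mul, ← map_mul, mul_inv_cancel₀ h0, map_one, map_one]
    calc mon K a * cL K (LSB_g a f) = (cL K (C c) * cL K (C c⁻¹)) * (mon K a * cL K (LSB_g a f)) := by
          rw [h, one_mul]
      _ = _ := by ring

theorem mon_ne_zero (a : ℤ) : mon K a ≠ 0 := by
  intro h
  have h2 := coeff_mon (R := K) a a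
  rw [h, if_pos rfl, HahnSeries.coeff_zero] at h2
  exact zero_ne_one h2

theorem mon_inv (a : ℤ) : (mon K a)⁻¹ = mon K (-a) := by
  symm
  exact eq_inv_of_mul_eq_one_left (by rw [← mon_add, neg_add_cancel, mon_zero])

theorem cL_inv (u : PowerSeries K) (h : constantCoeff u ≠ 0) : (cL K u)⁻¹ = cL K u⁻¹ := by
  symm
  refine eq_inv_of_mul_eq_one_left ?_
  rw [← map_mul, PowerSeries.inv_mul_cancel u h, map_one]

theorem thL_inv (f : LaurentSeries K) (h : f ≠ 0) : thL f⁻¹ = - thL f * (f⁻¹) ^ 2 := by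
  have h1 : thL (f * f⁻¹) = 0 := by rw [mul_inv_cancel₀ h]; exact LSA_thL_one
  rw [thL_mul] at h1
  have h2 : f * thL f⁻¹ = -(thL f * f⁻¹) := by linear_combination h1
  have h3 : f⁻¹ * (f * thL f⁻¹) = thL f⁻¹ := by rw [← mul_assoc, inv_mul_cancel₀ h, one_mul]
  rw [← h3, h2]
  ring

/-- `θf/f` has constant coefficient `ord f` -/
theorem thL_log {f : LaurentSeries K} {a : ℤ} (hf : OL a f) (h : f.coeff a ≠ 0) :
    OL 0 (thL f * f⁻¹) ∧ (thL f * f⁻¹).coeff 0 = (a : K) := by
  obtain ⟨u, hu, hfu⟩ := exists_unit hf rfl h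
  have hu0 : constantCoeff u ≠ 0 := by rw [hu]; exact one_ne_zero
  have hf0 : f ≠ 0 := by
    intro h0; rw [h0, HahnSeries.coeff_zero] at h; exact h rfl
  have hcu : cL K u * cL K u⁻¹ = 1 := by
    rw [← map_mul, PowerSeries.mul_inv_cancel u hu0, map_one]
  have hkey : thL f * f⁻¹ = (a : LaurentSeries K) + cL K (th u * u⁻¹) := by
    have h1 : thL f = f * ((a : LaurentSeries K) + cL K (th u * u⁻¹)) := by
      rw [hfu, thL_mul, thL_mul, thL_C, thL_mon, thL_cL, map_mul]
      linear_combination (-(cL K (C (f.coeff a)) * mon K a * cL K (th u))) * hcu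
    rw [h1, mul_comm f, mul_assoc, mul_inv_cancel₀ hf0, mul_one]
  rw [hkey]
  refine ⟨OL_add (OL_intCast a) (OL_cL _), ?_⟩
  rw [HahnSeries.coeff_add, ← HahnSeries.single_zero_intCast, HahnSeries.coeff_single_same]
  have h2 := coeff_cL (th u * u⁻¹) 0
  rw [Nat.cast_zero] at h2
  rw [h2, PowerSeries.coeff_zero_eq_constantCoeff_apply, map_mul, constantCoeff_th, zero_mul, add_zero]

theorem exists_order {f : LaurentSeries K} (h : f ≠ 0) : ∃ a : ℤ, OL a f ∧ f.coeff a ≠ 0 := by
  refine ⟨f.order, fun n hn => HahnSeries.coeff_eq_zero_of_lt_order hn, ?_⟩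
  exact HahnSeries.coeff_order_eq_zero.not.mpr h

theorem thL_eq_zero [CharZero K] {f : LaurentSeries K} (h : thL f = 0) : f = cL K (C (f.coeff 0)) := by
  ext n
  rw [LSA_coeff_cL']
  by_cases hn : n = 0
  · subst hn
    simp
  · have h1 : (thL f).coeff n = 0 := by rw [h, HahnSeries.coeff_zero]
    rw [coeff_thL] at h1
    have h2 : (n : K) ≠ 0 := by exact_mod_cast hn
    have h3 : f.coeff n = 0 := by
      rcases mul_eq_zero.mp h1 with h4 | h4
      · exact absurd h4 h2
      · exact h4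
    rw [h3]
    split_ifs with h5
    · rfl
    · rw [PowerSeries.coeff_C, if_neg]
      intro h6
      apply hn
      omega

end field

end Pool.Agent.Lib_helper91.FR
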