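import Pool.Agent.Lib_helper91.FR.AlgApi

/-! Block Lead: leading coefficients at the cusp; existence of the expansion over `ℚ_p`.
lead_evB: `x = X^{-2}`, `η = X^{-e}(e0 + ...)`, so for `b = b0(x) + b1(x) η` the terms have pole orders `2i` and `2j+e`, `e` odd.
exists_LPt: `η = X^{-e} η̂` with `η̂² = X^{2e} E(X^{-2}) = e0² + ...`, `Y = X^{-w} Ŷ` with `Ŷ² = X^{2w} D = y0² + ...`; square roots with
constant term `e0`, `y0` exist in `ℤ_p⟦X⟧` (`exists_sqrt` of Lib_helper57/AP/FE7.lean, scaled), map them to `ℚ_p⟦X⟧`. -/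

namespace Pool.Agent.Lib_helper91.FR

open PowerSeries Finset

/-- coefficients of the square root (`u = 1/2`) -/
noncomputable def Lead_y {R : Type} [CommRing R] (u : R) (D : ℕ → R) : ℕ → R
  | 0 => 1
  | n + 1 => u * (D (n + 1) - ∑ i : Fin n, Lead_y u D (i.1 + 1) * Lead_y u D (n - i.1))
termination_by n => n
decreasing_by
  · have := i.2; omega
  · have := i.2; omega

theorem Lead_sqrt_one {R : Type} [CommRing R] (h2 : IsUnit (2 : R)) (D : PowerSeries R)
    (hD : constantCoeff D = 1) : ∃ Y : PowerSeries R, Y ^ 2 = D ∧ constantCoeff Y = 1 := by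
  obtain ⟨u, hu⟩ := h2.exists_right_inv
  set y : ℕ → R := Lead_y u (fun n => coeff n D) with hy
  have y0 : y 0 = 1 := by rw [hy, Lead_y]
  have y1 : ∀ n, y (n + 1) = u * (coeff (n + 1) D - ∑ i ∈ range n, y (i + 1) * y (n - i)) := by
    intro n
    have h : y (n + 1) = u * (coeff (n + 1) D - ∑ i : Fin n, y (i.1 + 1) * y (n - i.1)) := by
      rw [hy, Lead_y]
    rw [h, Fin.sum_univ_eq_sum_range (fun i => y (i + 1) * y (n - i)) n]
  refine ⟨PowerSeries.mk y, ?_, ?_⟩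
  · ext n
    rw [pow_two, coeff_mul]
    simp only [coeff_mk]
    rw [Finset.Nat.sum_antidiagonal_eq_sum_range_succ (fun i j => y i * y j) n]
    cases n with
    | zero =>
      simp only [Finset.sum_range_succ, Finset.sum_range_zero, zero_add, Nat.sub_zero, y0, mul_one]
      rw [← hD, coeff_zero_eq_constantCoeff_apply]
    | succ n =>
      rw [Finset.sum_range_succ, Finset.sum_range_succ', Nat.sub_self, Nat.sub_zero, y0]
      have h1 : ∑ k ∈ range n, y (k + 1) * y (n + 1 - (k + 1)) =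
          ∑ i ∈ range n, y (i + 1) * y (n - i) := by
        refine Finset.sum_congr rfl fun k _ => ?_
        rw [Nat.add_sub_add_right]
      rw [h1, y1]
      linear_combination (coeff (n + 1) D - ∑ i ∈ range n, y (i + 1) * y (n - i)) * hu
  · rw [← coeff_zero_eq_constantCoeff_apply, coeff_mk, y0]

/-- square roots of power series -/
theorem exists_sqrt {R : Type} [CommRing R] (h2 : IsUnit (2 : R)) (D : PowerSeries R) (c : R)
    (hc : IsUnit c) (hD : constantCoeff D = c ^ 2) :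
    ∃ Y : PowerSeries R, Y ^ 2 = D ∧ constantCoeff Y = c := by
  obtain ⟨v, hv⟩ := hc.exists_right_inv
  obtain ⟨Y, hY, hY0⟩ := Lead_sqrt_one h2 (C (v ^ 2) * D) (by
    rw [map_mul, constantCoeff_C, hD, ← mul_pow, mul_comm v c, hv, one_pow])
  refine ⟨C c * Y, ?_, ?_⟩
  · rw [mul_pow, hY, ← map_pow, ← mul_assoc, ← map_mul, ← mul_pow, hv, one_pow, map_one, one_mul]
  · rw [map_mul, constantCoeff_C, hY0, mul_one]

/-- uniqueness -/
theorem sqrt_unique {R : Type} [CommRing R] (h2 : IsUnit (2 : R)) (Y Z : PowerSeries R)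
    (hY : IsUnit (constantCoeff Y)) (h : Y ^ 2 = Z ^ 2) (h0 : constantCoeff Y = constantCoeff Z) :
    Y = Z := by
  have h1 : (Y + Z) * (Y - Z) = 0 := by linear_combination h
  have h3 : IsUnit (Y + Z) := by
    rw [PowerSeries.isUnit_iff_constantCoeff, map_add, ← h0, ← two_mul]
    exact h2.mul hY
  have h4 := (h3.mul_right_eq_zero).1 h1
  exact sub_eq_zero.1 h4

theorem Lead_coeff_intCast {K : Type} [CommRing K] (a n : ℤ) :
    ((a : LaurentSeries K)).coeff n = if n = 0 then (a : K) else 0 := by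
  have h1 : (a : LaurentSeries K) = cL K (C (a : K)) := by
    rw [map_intCast (C (R := K)), map_intCast (cL K)]
  rw [h1]
  rcases lt_trichotomy n 0 with h | h | h
  · rw [coeff_cL_neg _ _ h, if_neg (by omega)]
  · rw [h, if_pos rfl]
    have := coeff_cL (C (a : K)) 0
    rw [Nat.cast_zero] at this
    rw [this, coeff_zero_eq_constantCoeff_apply, constantCoeff_C]
  · rw [if_neg (by omega)]
    have := coeff_cL (C (a : K)) n.toNat
    rw [Int.toNat_of_nonneg h.le] at this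
    rw [this, coeff_C, if_neg (by omega)]

/-- evaluation of an integer polynomial -/
noncomputable def Lead_ae {T : Type} [CommRing T] (x : T) : Polynomial ℤ →+* T :=
  (Polynomial.aeval x : Polynomial ℤ →ₐ[ℤ] T).toRingHom

theorem Lead_ae_monomial {T : Type} [CommRing T] (x : T) (k : ℕ) (a : ℤ) :
    Lead_ae x (Polynomial.monomial k a) = (a : T) * x ^ k := by
  show Polynomial.aeval x (Polynomial.monomial k a) = _
  rw [Polynomial.aeval_monomial, eq_intCast]

/-- coefficients of a polynomial in `X^{-2}` -/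
theorem Lead_aeval {K : Type} [CommRing K] (f : Polynomial ℤ) (m : ℤ) :
    (Lead_ae (mon K (-2)) f).coeff m =
      if m ≤ 0 ∧ m % 2 = 0 then (f.coeff ((-m).toNat / 2) : K) else 0 := by
  induction f using Polynomial.induction_on' with
  | add f g hf hg =>
    rw [map_add, HahnSeries.coeff_add, hf, hg, Polynomial.coeff_add]
    split_ifs
    · push_cast; rfl
    · rw [add_zero]
  | monomial k a =>
    rw [Lead_ae_monomial, mon_pow, mul_comm, coeff_mon_mul, Lead_coeff_intCast,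
      Polynomial.coeff_monomial]
    by_cases h : m - (k : ℤ) * -2 = 0
    · rw [if_pos h, if_pos (by omega), if_pos (by omega)]
    · rw [if_neg h]
      by_cases h2 : m ≤ 0 ∧ m % 2 = 0
      · rw [if_pos h2, if_neg (by omega), Int.cast_zero]
      · rw [if_neg h2]

theorem Lead_OL_aeval {K : Type} [CommRing K] (f : Polynomial ℤ) (n : ℤ)
    (h : 2 * (f.natDegree : ℤ) ≤ n) : OL (-n) (Lead_ae (mon K (-2)) f) := by
  intro m hm
  rw [Lead_aeval]
  split_ifs with h1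
  · rw [Polynomial.coeff_eq_zero_of_natDegree_lt (by omega), Int.cast_zero]
  · rfl

theorem Lead_e1 (a b : ℤ) : -a = -(a - b) + -b := by ring

/-- the main computation -/
theorem Lead_main {K : Type} [CommRing K] (b0 b1 : Polynomial ℤ) (η : LaurentSeries K) (e : ℕ)
    (e0 : ℤ) (he : e % 2 = 1) (hη : OL (-(e : ℤ)) η) (hη0 : η.coeff (-(e : ℤ)) = (e0 : K)) (n : ℕ)
    (h0 : 2 * b0.natDegree ≤ n) (h1 : b1 = 0 ∨ 2 * b1.natDegree + e ≤ n) :
    OL (-(n : ℤ)) (Lead_ae (mon K (-2)) b0 + Lead_ae (mon K (-2)) b1 * η) ∧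
    (Lead_ae (mon K (-2)) b0 + Lead_ae (mon K (-2)) b1 * η).coeff (-(n : ℤ)) =
      ((if n % 2 = 0 then b0.coeff (n / 2) else e0 * b1.coeff ((n - e) / 2) : ℤ) : K) := by
  have a0 : OL (-(n : ℤ)) (Lead_ae (mon K (-2)) b0) :=
    Lead_OL_aeval b0 n (by exact_mod_cast h0)
  rcases h1 with h1 | h1
  · rw [h1, map_zero, zero_mul, add_zero]
    refine ⟨a0, ?_⟩
    rw [Lead_aeval]
    by_cases h2 : n % 2 = 0
    · rw [if_pos (by omega), if_pos h2]
      have e3 : (- -(n : ℤ)).toNat / 2 = n / 2 := by omega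
      rw [e3]
    · rw [if_neg (by omega), if_neg h2, Polynomial.coeff_zero, mul_zero, Int.cast_zero]
  · have a1 : OL (-((n : ℤ) - e)) (Lead_ae (mon K (-2)) b1) := by
      apply Lead_OL_aeval
      omega
    have e2 : (Lead_ae (mon K (-2)) b1 * η).coeff (-(n : ℤ)) =
        (Lead_ae (mon K (-2)) b1).coeff (-((n : ℤ) - e)) * (e0 : K) := by
      rw [← hη0, ← coeff_mul_OL a1 hη, ← Lead_e1]
    have a2 : OL (-(n : ℤ)) (Lead_ae (mon K (-2)) b1 * η) := by
      have := OL_mul a1 hη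
      rwa [← Lead_e1] at this
    refine ⟨OL_add a0 a2, ?_⟩
    rw [HahnSeries.coeff_add, e2, Lead_aeval, Lead_aeval]
    by_cases h2 : n % 2 = 0
    · rw [if_pos (by omega), if_neg (by omega), if_pos h2, zero_mul, add_zero]
      have e3 : (- -(n : ℤ)).toNat / 2 = n / 2 := by omega
      rw [e3]
    · rw [if_neg (by omega), if_pos (by omega), if_neg h2, zero_add, Int.cast_mul, mul_comm]
      have e3 : (- -((n : ℤ) - e)).toNat / 2 = (n - e) / 2 := by omega
      rw [e3]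

/-- a Laurent series without pole is a power series -/
theorem Lead_toPS {K : Type} [CommRing K] (f : LaurentSeries K) (h : OL 0 f) :
    f = cL K (PowerSeries.mk fun n => f.coeff (n : ℤ)) := by
  ext n
  rcases lt_or_ge n 0 with h1 | h1
  · rw [h n h1, coeff_cL_neg _ _ h1]
  · obtain ⟨k, hk⟩ := Int.eq_ofNat_of_zero_le h1
    rw [hk]
    have := coeff_cL (PowerSeries.mk fun n => f.coeff (n : ℤ)) k
    rw [coeff_mk] at this
    exact this.symm

/-- square root of an integral Laurent series -/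
theorem Lead_root (p : ℕ) [Fact p.Prime] (h3 : 3 < p) (w : ℕ) (y0 : ℤ) (hy : ¬ (p : ℤ) ∣ y0)
    (f : LaurentSeries ℚ_[p]) (hf : OL (-(2 * (w : ℤ))) f) (hi : IL 0 f)
    (hc : f.coeff (-(2 * (w : ℤ))) = (y0 : ℚ_[p]) ^ 2) :
    ∃ Y : LaurentSeries ℚ_[p], Y ^ 2 = f ∧ IL 0 Y ∧ OL (-(w : ℤ)) Y ∧
      Y.coeff (-(w : ℤ)) = (y0 : ℚ_[p]) := by
  obtain ⟨g, hg⟩ : ∃ g, g = mon ℚ_[p] (2 * (w : ℤ)) * f := ⟨_, rfl⟩
  have hg0 : OL 0 g := by
    have := OL_mul (OL_mon (R := ℚ_[p]) (2 * (w : ℤ))) hf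
    rw [← hg] at this
    have e : (2 * (w : ℤ)) + -(2 * (w : ℤ)) = 0 := by ring
    rwa [e] at this
  have hgi : IL 0 g := by
    rw [hg]
    exact IL_mul_left (IL_mon _) hi
  have hgc : ∀ n : ℕ, ∃ a : ℤ_[p], (a : ℚ_[p]) = g.coeff (n : ℤ) := by
    intro n
    exact (PI_zero_iff_exists _).1 (hgi n)
  choose a ha using hgc
  have hg1 : g = cL ℚ_[p] (PowerSeries.map (PadicInt.Coe.ringHom (p := p)) (PowerSeries.mk a)) := by
    rw [Lead_toPS g hg0]
    congr 1
    ext n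
    rw [coeff_mk, coeff_map, coeff_mk, ← ha n]
    rfl
  have h2 : IsUnit (2 : ℤ_[p]) := by
    have h : IsUnit ((2 : ℕ) : ℤ_[p]) := by
      rw [PadicInt.isUnit_iff]
      have := norm_natCast_eq_one (p := p) 2 (fun h => by
        have := Nat.le_of_dvd (by norm_num) h
        omega)
      rw [PadicInt.norm_def, PadicInt.coe_natCast]
      exact this
    exact_mod_cast h
  have hu : IsUnit ((y0 : ℤ) : ℤ_[p]) := by
    rw [PadicInt.isUnit_iff, PadicInt.norm_def, PadicInt.coe_intCast]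
    have h4 : ¬ ‖(y0 : ℚ_[p])‖ < 1 := by
      rw [Padic.norm_intCast_lt_one_iff]
      exact hy
    have h5 : ‖(y0 : ℚ_[p])‖ ≤ 1 := Padic.norm_int_le_one y0
    linarith [not_lt.1 h4]
  have hconst : constantCoeff (PowerSeries.mk a) = ((y0 : ℤ) : ℤ_[p]) ^ 2 := by
    rw [← coeff_zero_eq_constantCoeff_apply, coeff_mk]
    apply PadicInt.ext
    have h4 := ha 0
    rw [h4, hg, coeff_mon_mul]
    have e : ((0 : ℕ) : ℤ) - 2 * (w : ℤ) = -(2 * (w : ℤ)) := by push_cast; ring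
    rw [e, hc]
    push_cast
    rfl
  obtain ⟨Y0, hY0, hY0c⟩ := exists_sqrt h2 (PowerSeries.mk a) _ hu hconst
  obtain ⟨Z, hZ⟩ : ∃ Z, Z = PowerSeries.map (PadicInt.Coe.ringHom (p := p)) Y0 := ⟨_, rfl⟩
  have hZ2 : cL ℚ_[p] Z ^ 2 = g := by
    rw [hg1, hZ, ← map_pow, ← map_pow, hY0]
  have hZ0 : constantCoeff Z = (y0 : ℚ_[p]) := by
    rw [hZ, ← coeff_zero_eq_constantCoeff_apply, coeff_map, coeff_zero_eq_constantCoeff_apply, hY0c,
      map_intCast]
  have hZi : ∀ T, PO 0 T Z := by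
    intro T n _
    rw [hZ, coeff_map, PI_zero_iff_exists]
    exact ⟨_, rfl⟩
  refine ⟨mon ℚ_[p] (-(w : ℤ)) * cL ℚ_[p] Z, ?_, ?_, ?_, ?_⟩
  · rw [mul_pow, hZ2, hg, ← mul_assoc, mon_pow, ← mon_add]
    have e : (((2 : ℕ) : ℤ) * -(w : ℤ)) + 2 * (w : ℤ) = 0 := by push_cast; ring
    rw [e, mon_zero, one_mul]
  · exact IL_mul_left (IL_mon _) (IL_cL hZi)
  · have := OL_mul (OL_mon (R := ℚ_[p]) (-(w : ℤ))) (OL_cL Z)
    rwa [add_zero] at this
  · rw [coeff_mon_mul, sub_self]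
    have := coeff_cL Z 0
    rw [Nat.cast_zero, coeff_zero_eq_constantCoeff_apply, hZ0] at this
    exact this

theorem Lead_IL_aeval (p : ℕ) [Fact p.Prime] (f : Polynomial ℤ) :
    IL 0 (Lead_ae (mon ℚ_[p] (-2)) f) := by
  intro n
  rw [Lead_aeval]
  split_ifs
  · exact PI_intCast _
  · exact PI_zero 0

namespace MD

variable (M : MD)

theorem lead_evB (hM : M.Valid) (K : Type) [Field K] (P : M.LPt K) (n : ℕ) (b : M.B)
    (h : M.wd n b) :
    OL (-(n : ℤ)) (P.toPt.evB b) ∧ (P.toPt.evB b).coeff (-(n : ℤ)) = (M.ld n b : K) := by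
  have h1 := Lead_main b.re b.im P.η M.e M.e0 hM.he P.hηo P.hηc n h.1 h.2
  rw [← P.hx] at h1
  exact h1

theorem exists_LPt (hM : M.Valid) (p : ℕ) [Fact p.Prime] (hG : M.Good p) :
    ∃ P : M.LPt ℚ_[p], IL 0 P.η ∧ IL 0 P.Y := by
  have hE := Lead_main (K := ℚ_[p]) M.E 0 0 1 0 (by norm_num) (fun _ _ => rfl)
    (by rw [Int.cast_zero]; rfl) (2 * M.e) (by have := hM.hE; omega) (Or.inl rfl)
  rw [map_zero, zero_mul, add_zero] at hE
  obtain ⟨hE1, hE2⟩ := hE
  rw [if_pos (by omega), Nat.mul_div_cancel_left _ (by norm_num : 0 < 2), hM.hE0] at hE2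
  push_cast at hE1 hE2
  obtain ⟨η, hη, hηi, hηo, hηc⟩ := Lead_root p hG.h3 M.e M.e0 hG.he0
    (Lead_ae (mon ℚ_[p] (-2)) M.E) hE1 (Lead_IL_aeval p M.E) hE2
  have hD := Lead_main (K := ℚ_[p]) M.D.re M.D.im η M.e M.e0 hM.he hηo hηc (2 * M.w)
    hM.hDw.1 hM.hDw.2
  obtain ⟨hD1, hD2⟩ := hD
  have hD0 := hM.hD0
  rw [MD.ld] at hD0
  rw [hD0] at hD2
  push_cast at hD1 hD2
  obtain ⟨Y, hY, hYi, hYo, hYc⟩ := Lead_root p hG.h3 M.w M.y0 hG.hy0
    (Lead_ae (mon ℚ_[p] (-2)) M.D.re + Lead_ae (mon ℚ_[p] (-2)) M.D.im * η) hD1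
    (IL_add (Lead_IL_aeval p _) (IL_mul_left (Lead_IL_aeval p _) hηi)) hD2
  exact ⟨⟨⟨mon ℚ_[p] (-2), η, Y, hη, hY⟩, rfl, hηo, hηc, hYo, hYc⟩, hηi, hYi⟩

end MD

end Pool.Agent.Lib_helper91.FR
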