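import Pool.Agent.Lib_helper91.FR.Z12

/-! Block Z3: `(∑ C(2k,k) c^k X^k)² (1-4cX) = 1` (from `(1-4cX) θB = 2cX B`, so `θ(B²(1-4cX)) = 0`), hence `CB² PD = 1`
(`PD = (1-32X)(1+4X)`) and `WW² FF² PD = 1`.  See the proof of Z3 in Lib_helper57/AP/Z34.lean (same for `c = 64`). -/

namespace Pool.Agent.Lib_helper91.FR

open PowerSeries Finset

variable (K : Type) [Field K] [CharZero K]

theorem Z3_aux (c : K) : (1 - C (4 * c) * X) * th (CBs K c) = C (2 * c) * X * CBs K c := by
  have h : th (CBs K c) = X * (C (4 * c) * th (CBs K c) + C (2 * c) * CBs K c) := by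
    ext n
    cases n with
    | zero => simp [coeff_th]
    | succ n =>
      rw [coeff_succ_X_mul]
      simp only [map_add, coeff_C_mul, coeff_th, CBs, coeff_mk]
      have h := Nat.succ_mul_centralBinom_succ n
      have h' : ((n : K) + 1) * (Nat.centralBinom (n + 1) : K) = 2 * (2 * (n : K) + 1) * (Nat.centralBinom n : K) := by
        exact_mod_cast h
      push_cast
      rw [pow_succ]
      linear_combination (c * c ^ n : K) * h'
  linear_combination h

theorem Z3_sq (c : K) : (CBs K c) ^ 2 * (1 - C (4 * c) * X) = 1 := by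
  have h := Z3_aux K c
  apply th_ext
  · simp only [th_mul, th_sub, th_pow, th_one, th_X, th_C]
    push_cast
    simp only [Nat.add_one_sub_one, pow_one]
    have e : (C (4 * c) : PowerSeries K) = 2 * C (2 * c) := by
      rw [← map_ofNat (C : K →+* PowerSeries K) 2, ← map_mul]
      congr 1
      ring
    rw [e] at h ⊢
    linear_combination (2 * CBs K c) * h
  · simp [CBs]

theorem Z3 : (CB K) ^ 2 * PD K = 1 := by
  have h1 := Z3_sq K 8
  have h2 := Z3_sq K (-1)
  have e1 : (C (4 * 8 : K) : PowerSeries K) = 32 := by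
    rw [← map_ofNat (C : K →+* PowerSeries K) 32]
    congr 1
    norm_num
  have e2 : (C (4 * (-1) : K) : PowerSeries K) = -4 := by
    rw [← map_ofNat (C : K →+* PowerSeries K) 4, ← map_neg]
    congr 1
    norm_num
  rw [e1] at h1
  rw [e2] at h2
  have hP : PD K = (1 - 32 * X) * (1 - -4 * X) := by
    unfold PD
    ring
  rw [hP]
  unfold CB
  calc (CBs K 8 * CBs K (-1)) ^ 2 * ((1 - 32 * X) * (1 - -4 * X))
      = ((CBs K 8) ^ 2 * (1 - 32 * X)) * ((CBs K (-1)) ^ 2 * (1 - -4 * X)) := by ring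
    _ = 1 := by rw [h1, h2, one_mul]

theorem Z3_WF : WW K * FF K = CB K := by
  have h : constantCoeff (FF K) ≠ 0 := by rw [constantCoeff_FF]; exact one_ne_zero
  rw [WW, mul_assoc, PowerSeries.inv_mul_cancel _ h, mul_one]

theorem Z3' : (WW K) ^ 2 * (FF K) ^ 2 * PD K = 1 := by
  rw [← mul_pow, Z3_WF, Z3]

end Pool.Agent.Lib_helper91.FR
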