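import Pool.Agent.Lib_helper91.FR.Z12

/-! Block Small: the congruences for small primes, by kernel computation.
`Zg` for all primes `3 < p < 67` etc. not dividing `m` (with the restrictions shown).  Compute `bb` by `bb_rec`
(`bb (n+2) = 2(2n+3)(...)/(n+2)³`, exact division), loop with `Nat` accumulators, `decide +kernel`;
see Lib_helper57/AP/Small.lean (`Small_fr` forces evaluation in the kernel). -/

namespace Pool.Agent.Lib_helper91.FR

open Finset

/-- the congruence, denominators cleared -/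
def Zg (p : ℕ) (a b m c : ℤ) : Prop :=
  ((p : ℤ) ^ 2) ∣ ∑ n ∈ range p, (a * n + b) * (bb n : ℤ) * m ^ (p - 1 - n) - c * p * m ^ (p - 1)

/-- `(-1/p)` -/
def ch1 (p : ℕ) : ℤ := if p % 4 = 1 then 1 else -1
/-- `(p/3)` -/
def ch3 (p : ℕ) : ℤ := if p % 3 = 1 then 1 else -1
/-- `(p/7)` -/
def ch7 (p : ℕ) : ℤ := if p % 7 = 1 ∨ p % 7 = 2 ∨ p % 7 = 4 then 1 else -1
/-- `(-31/p) = (p/31)` -/
def ch31 (p : ℕ) : ℤ := if p % 31 ∈ [1, 2, 4, 5, 7, 8, 9, 10, 14, 16, 18, 19, 20, 25, 28] then 1 else -1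

/-- forces the evaluation of `n` in the kernel -/
def Small_fr {α : Type} (n : ℕ) (f : ℕ → α) : α := Nat.rec (f 0) (fun k _ => f (k + 1)) n

theorem Small_fr_eq {α : Type} (n : ℕ) (f : ℕ → α) : Small_fr n f = f n := by
  cases n <;> rfl

/-- the main loop; `b0 = bb k`, `b1 = bb (k+1)` -/
def Small_loop (P M C a b : ℕ) (n : ℕ) : ℕ → ℕ → ℕ → ℕ → ℕ → Bool :=
  Nat.rec (fun _ _ _ A T => Nat.beq ((A + C * T) % P) 0)
    (fun _ ih k b0 b1 A T =>
      Small_fr (k + 1) fun k' =>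
      Small_fr (2 * (2 * k + 3) * ((7 * (k + 1) ^ 2 + 7 * (k + 1) + 2) * b1
        + 16 * (k + 1) * (2 * k + 1) * b0) / (k + 2) ^ 3) fun b2 =>
      Small_fr ((A * M + (a * (k + 1) + b) * b1) % P) fun A' =>
      Small_fr (T * M % P) fun T' => ih k' b1 b2 A' T') n

/-- the check for one prime -/
def Small_chk (a b : ℕ) (m c : ℤ) (p : ℕ) : Bool :=
  Small_fr (p ^ 2) fun P =>
  Small_fr (m % (P : ℤ)).toNat fun M =>
  Small_fr ((-c * (p : ℤ)) % (P : ℤ)).toNat fun C =>
    Small_loop P M C a b (p - 1) 0 1 4 b 1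

/-- trial division -/
def Small_tr (p : ℕ) : Bool :=
  [2, 3, 5, 7, 11, 13].all fun d => Nat.ble p d || !(Nat.beq (p % d) 0)

/-- all primes in a range -/
def Small_all (a b : ℕ) (m : ℤ) (c : ℕ → ℤ) (ex n : ℕ) : Bool :=
  (List.range n).all fun p => Nat.ble p 4 || !(Small_tr p) || Nat.beq (ex % p) 0 ||
    Small_chk a b m (c p) p

theorem Small_bb0 : bb 0 = 1 := by decide +kernel
theorem Small_bb1 : bb 1 = 4 := by decide +kernel

theorem Small_loop_succ (P M C a b n k b0 b1 A T : ℕ) :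
    Small_loop P M C a b (n + 1) k b0 b1 A T =
    (Small_fr (k + 1) fun k' =>
      Small_fr (2 * (2 * k + 3) * ((7 * (k + 1) ^ 2 + 7 * (k + 1) + 2) * b1
        + 16 * (k + 1) * (2 * k + 1) * b0) / (k + 2) ^ 3) fun b2 =>
      Small_fr ((A * M + (a * (k + 1) + b) * b1) % P) fun A' =>
      Small_fr (T * M % P) fun T' => Small_loop P M C a b n k' b1 b2 A' T') := rfl

theorem Small_loop_sound (P M C a b n : ℕ) : ∀ k b0 b1 A T : ℕ, b0 = bb k → b1 = bb (k + 1) →
    (A : ZMod P) = ∑ i ∈ Finset.range (k + 1),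
      ((a : ZMod P) * i + b) * (bb i : ZMod P) * (M : ZMod P) ^ (k - i) →
    (T : ZMod P) = (M : ZMod P) ^ k →
    Small_loop P M C a b n k b0 b1 A T = true →
    ∑ i ∈ Finset.range (k + n + 1),
      ((a : ZMod P) * i + b) * (bb i : ZMod P) * (M : ZMod P) ^ (k + n - i) +
      C * (M : ZMod P) ^ (k + n) = 0 := by
  induction n with
  | zero =>
    intro k b0 b1 A T _ _ hA hT hl
    have h1 : (A + C * T) % P = 0 := Nat.eq_of_beq_eq_true hl
    simp only [Nat.add_zero]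
    rw [← hA, ← hT]
    have h2 : ((A + C * T : ℕ) : ZMod P) = 0 :=
      (ZMod.natCast_eq_zero_iff _ _).mpr (Nat.dvd_of_mod_eq_zero h1)
    push_cast at h2
    exact h2
  | succ n ih =>
    intro k b0 b1 A T hb0 hb1 hA hT hl
    rw [Small_loop_succ] at hl
    simp only [Small_fr_eq] at hl
    have hb2 : 2 * (2 * k + 3) * ((7 * (k + 1) ^ 2 + 7 * (k + 1) + 2) * b1
        + 16 * (k + 1) * (2 * k + 1) * b0) / (k + 2) ^ 3 = bb (k + 2) := by
      rw [hb0, hb1, ← bb_rec]
      exact Nat.mul_div_cancel_left _ (by positivity)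
    rw [hb2] at hl
    have h2 := ih (k + 1) b1 (bb (k + 2)) _ _ hb1 rfl ?_ ?_ hl
    · rw [show k + (n + 1) = k + 1 + n by ring]
      exact h2
    · rw [ZMod.natCast_mod, Finset.sum_range_succ _ (k + 1), Nat.sub_self, pow_zero, mul_one]
      push_cast
      rw [hA, hb1, Finset.sum_mul]
      congr 1
      refine Finset.sum_congr rfl fun i hi => ?_
      rw [Finset.mem_range] at hi
      rw [show k + 1 - i = k - i + 1 by omega, pow_succ]
      ring
    · rw [ZMod.natCast_mod]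
      push_cast
      rw [hT, pow_succ]

theorem Small_cast (P : ℕ) (hP : 0 < P) (x : ℤ) : (((x % (P : ℤ)).toNat : ℕ) : ZMod P) = (x : ZMod P) := by
  have h0 : (P : ℤ) ≠ 0 := by positivity
  have h1 : (((x % (P : ℤ)).toNat : ℕ) : ℤ) = x % (P : ℤ) :=
    Int.toNat_of_nonneg (Int.emod_nonneg _ h0)
  have h2 : ((((x % (P : ℤ)).toNat : ℕ) : ℤ) : ZMod P) = (x : ZMod P) := by
    rw [h1, ZMod.intCast_mod]
  exact_mod_cast h2

theorem Small_chk_sound (a b : ℕ) (m c : ℤ) (p : ℕ) (hp : 0 < p)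
    (hc : Small_chk a b m c p = true) : Zg p a b m c := by
  rw [Small_chk] at hc
  simp only [Small_fr_eq] at hc
  have hP : 0 < p ^ 2 := by positivity
  have h1 := Small_loop_sound (p ^ 2) _ _ a b (p - 1) 0 1 4 b 1 Small_bb0.symm Small_bb1.symm
    (by simp [Small_bb0]) (by simp) hc
  rw [Small_cast _ hP, Small_cast _ hP, Nat.zero_add, show p - 1 + 1 = p by omega] at h1
  have h2 : ((∑ n ∈ range p, ((a : ℤ) * n + b) * (bb n : ℤ) * m ^ (p - 1 - n) -
      c * p * m ^ (p - 1) : ℤ) : ZMod (p ^ 2)) = 0 := by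
    push_cast
    push_cast at h1
    rw [← h1]
    ring
  rw [ZMod.intCast_zmod_eq_zero_iff_dvd] at h2
  rw [Zg]
  exact_mod_cast h2

theorem Small_tr_prime (p : ℕ) (hp : p.Prime) : Small_tr p = true := by
  rw [Small_tr, List.all_eq_true]
  intro d hd
  have hd2 : 2 ≤ d := by
    simp only [List.mem_cons, List.mem_nil_iff, or_false] at hd
    omega
  by_cases h : p ≤ d
  · rw [Nat.ble_eq_true_of_le h, Bool.true_or]
  · have h1 : Nat.beq (p % d) 0 = false := by
      rw [← Bool.not_eq_true]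
      intro h2
      have h3 : p % d = 0 := Nat.eq_of_beq_eq_true h2
      rcases (Nat.dvd_prime hp).mp (Nat.dvd_of_mod_eq_zero h3) with h4 | h4 <;> omega
    rw [h1, Bool.not_false, Bool.or_true]

theorem Small_all_sound (a b : ℕ) (m : ℤ) (c : ℕ → ℤ) (ex n : ℕ)
    (h : Small_all a b m c ex n = true) (p : ℕ) (hp : p.Prime)
    (h3 : 3 < p) (hpn : p < n) (hm : ¬ p ∣ ex) : Zg p a b m (c p) := by
  rw [Small_all, List.all_eq_true] at h
  have h1 := h p (List.mem_range.mpr hpn)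
  have hp4 : Nat.ble p 4 = false := by
    rw [← Bool.not_eq_true]
    intro h2
    have h4 : p ≤ 4 := Nat.le_of_ble_eq_true h2
    have h5 : p = 4 := by omega
    rw [h5] at hp
    exact absurd hp (by decide)
  have hex : Nat.beq (ex % p) 0 = false := by
    rw [← Bool.not_eq_true]
    intro h2
    exact hm (Nat.dvd_of_mod_eq_zero (Nat.eq_of_beq_eq_true h2))
  rw [Small_tr_prime p hp, hp4, hex] at h1
  exact Small_chk_sound a b m (c p) p hp.pos (by simpa using h1)

theorem Small_c1 : Small_all 3 1 (-16) (fun p => ch1 p) 1 67 = true := by decide +kernel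
theorem Small_c2 : Small_all 9 2 (-112) (fun p => 2 * ch7 p) 7 67 = true := by decide +kernel
theorem Small_c3 : Small_all 855 109 (-2704) (fun p => 109 * ch1 p) 13 113 = true := by
  decide +kernel
theorem Small_c4 : Small_all 15 4 (-49) (fun p => 4 * ch3 p) (5 * 7) 199 = true := by
  decide +kernel
theorem Small_c5 : Small_all 99 17 (-400) (fun p => 17 * ch1 p) 5 199 = true := by
  decide +kernel
theorem Small_c6 : Small_all 585 58 (-24304) (fun p => 58 * ch31 p) (7 * 31) 199 = true := by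
  decide +kernel

theorem small16 (p : ℕ) (hp : p.Prime) (h3 : 3 < p) (h : p < 67) :
    Zg p 3 1 (-16) (ch1 p) :=
  Small_all_sound 3 1 _ _ _ _ Small_c1 p hp h3 h hp.not_dvd_one

theorem small112 (p : ℕ) (hp : p.Prime) (h3 : 3 < p) (h7 : p ≠ 7) (h : p < 67) :
    Zg p 9 2 (-112) (2 * ch7 p) :=
  Small_all_sound 9 2 _ _ _ _ Small_c2 p hp h3 h
    (fun hd => h7 ((Nat.prime_dvd_prime_iff_eq hp (by norm_num)).1 hd))

theorem small2704 (p : ℕ) (hp : p.Prime) (h3 : 3 < p) (h13 : p ≠ 13) (h : p < 113) :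
    Zg p 855 109 (-2704) (109 * ch1 p) :=
  Small_all_sound 855 109 _ _ _ _ Small_c3 p hp h3 h
    (fun hd => h13 ((Nat.prime_dvd_prime_iff_eq hp (by norm_num)).1 hd))

theorem small49 (p : ℕ) (hp : p.Prime) (h3 : 3 < p) (h5 : p ≠ 5) (h7 : p ≠ 7) (h : p < 199) :
    Zg p 15 4 (-49) (4 * ch3 p) :=
  Small_all_sound 15 4 _ _ _ _ Small_c4 p hp h3 h (fun hd => by
    rcases (Nat.Prime.dvd_mul hp).1 hd with hd | hd
    · exact h5 ((Nat.prime_dvd_prime_iff_eq hp (by norm_num)).1 hd)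
    · exact h7 ((Nat.prime_dvd_prime_iff_eq hp (by norm_num)).1 hd))

theorem small400 (p : ℕ) (hp : p.Prime) (h3 : 3 < p) (h5 : p ≠ 5) (h : p < 199) :
    Zg p 99 17 (-400) (17 * ch1 p) :=
  Small_all_sound 99 17 _ _ _ _ Small_c5 p hp h3 h
    (fun hd => h5 ((Nat.prime_dvd_prime_iff_eq hp (by norm_num)).1 hd))

theorem small24304 (p : ℕ) (hp : p.Prime) (h3 : 3 < p) (h7 : p ≠ 7) (h31 : p ≠ 31) (h : p < 199) :
    Zg p 585 58 (-24304) (58 * ch31 p) :=
  Small_all_sound 585 58 _ _ _ _ Small_c6 p hp h3 h (fun hd => by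
    rcases (Nat.Prime.dvd_mul hp).1 hd with hd | hd
    · exact h7 ((Nat.prime_dvd_prime_iff_eq hp (by norm_num)).1 hd)
    · exact h31 ((Nat.prime_dvd_prime_iff_eq hp (by norm_num)).1 hd))

end Pool.Agent.Lib_helper91.FR
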