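import Pool.Agent.Lib_helper91.FR.PTA

/-! Block TAY: the Frobenius numerators at the CM point are Frobenius pairs.
`Φ_x = x^p`: const `x0^p = x0 + e0`, `dX = p x^{p-1}`, `p x0^{p-1} = p`.
polynomials: HF_add, HF_mul, HF_int give `HF (evP f) (evP (expand f))` (`evP (expand p f) = aeval (x^p) f`).
`Φ_η := η^p E*/(2E^p)` (`E* = ev (Es)`): `Φ_η² = E(x^p)` (mod p²: `E* = 2E^p + p r`), `Φ_η ≡ η^p mod p`; `2Φ_η dX Φ_η = p x^{p-1} E'(x^p)`;
 constant term: `(n0 + e0 η1)² = E(x0) + e0 E'(x0) = E(x0^p)` and `Φ_η(0) ≡ n0^p ≡ n0 mod p`, so they are equal (sum is a unit, `2n0`).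
`Φ_Y := Y^p Ds/(4 E^p D^p)` likewise, with `τ` (constant term `≡ (√D0)^p ≡ χ√D0 mod p`).
`ev (NB b) = 2E^p (Φ_{b0} + Φ_{b1} Φ_η)`, `ev (NA a) = 8E^{2p}D^p (Φ_{a0} + Φ_{a1} Φ_Y)`. -/

namespace Pool.Agent.Lib_helper91.FR

open PowerSeries Finset

section TAY_root

variable (p : ℕ) [Fact p.Prime] (D0 χ : ℤ)

omit [Fact p.Prime] in
theorem TAY_pp : ((p : ℕ) : QK p D0) * (p : QK p D0) = 0 := by
  have h := QK_p_sq p D0
  rw [sq] at h
  exact h

omit [Fact p.Prime] in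
theorem TAY_PP : ((p : ℕ) : PowerSeries (QK p D0)) * (p : PowerSeries (QK p D0)) = 0 := by
  have h := TAY_pp p D0
  rw [← map_natCast (C (R := QK p D0)) p, ← map_mul, h, map_zero]

theorem TAY_unit_add {R : Type} [CommRing R] {q u : R} (hq : q * q = 0) (hu : IsUnit u) (v : R) :
    IsUnit (u + q * v) := by
  have h : (u + q * v) * (u - q * v) = u * u := by
    linear_combination (-(v * v)) * hq
  have h2 : IsUnit ((u + q * v) * (u - q * v)) := by
    rw [h]; exact hu.mul hu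
  exact isUnit_of_mul_isUnit_left h2

theorem TAY_two (hp : 3 < p) : IsUnit (2 : QK p D0) := by
  have hpr : p.Prime := Fact.out
  have h : IsUnit (2 : ZMod (p ^ 2)) := by
    have := (ZMod.isUnit_iff_coprime 2 (p ^ 2)).2 (by
      apply Nat.Coprime.pow_right
      rw [Nat.coprime_primes Nat.prime_two hpr]
      omega)
    exact_mod_cast this
  have h2 := h.map (iK p D0)
  rwa [map_ofNat] at h2

theorem TAY_two' (hp : 3 < p) : IsUnit (2 : PowerSeries (QK p D0)) := by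
  have h := (TAY_two p D0 hp).map (C (R := QK p D0))
  rwa [map_ofNat] at h

omit [Fact p.Prime] in
theorem TAY_tau_int (c : ℤ) : tau p D0 χ (c : QK p D0) = (c : QK p D0) := by
  unfold tau
  ext <;> simp

omit [Fact p.Prime] in
theorem TAY_tau_one : tau p D0 χ 1 = 1 := by
  have h := TAY_tau_int p D0 χ 1
  simpa using h

omit [Fact p.Prime] in
theorem TAY_tau_unit (hχ : χ = 1 ∨ χ = -1) {u : QK p D0} (hu : IsUnit u) : IsUnit (tau p D0 χ u) := by
  obtain ⟨v, hv⟩ := hu.exists_right_inv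
  refine IsUnit.of_mul_eq_one (tau p D0 χ v) ?_
  rw [← tau_mul p D0 χ hχ, hv, TAY_tau_one]

theorem TAY_ann_Z (a : ZMod (p ^ 2)) (h : (p : ZMod (p ^ 2)) * a = 0) : ∃ k, a = (p : ZMod (p ^ 2)) * k := by
  have hpr : p.Prime := Fact.out
  have : NeZero (p ^ 2) := ⟨pow_ne_zero 2 hpr.ne_zero⟩
  have e : ((p * a.val : ℕ) : ZMod (p ^ 2)) = 0 := by
    push_cast
    rw [ZMod.natCast_zmod_val]
    exact h
  rw [ZMod.natCast_eq_zero_iff] at e
  have e' : p * p ∣ p * a.val := (dvd_of_eq (sq p).symm).trans e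
  obtain ⟨k, hk⟩ := Nat.dvd_of_mul_dvd_mul_left hpr.pos e'
  refine ⟨(k : ZMod (p ^ 2)), ?_⟩
  rw [← ZMod.natCast_zmod_val a, hk]
  push_cast
  rfl

theorem TAY_ann (v : QK p D0) (h : (p : QK p D0) * v = 0) : ∃ k, v = (p : QK p D0) * k := by
  have h1 : (p : ZMod (p ^ 2)) * v.re = 0 := by
    have := congrArg QuadraticAlgebra.re h
    simpa using this
  have h2 : (p : ZMod (p ^ 2)) * v.im = 0 := by
    have := congrArg QuadraticAlgebra.im h
    simpa using this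
  obtain ⟨a, ha⟩ := TAY_ann_Z p v.re h1
  obtain ⟨b, hb⟩ := TAY_ann_Z p v.im h2
  refine ⟨⟨a, b⟩, ?_⟩
  ext
  · simp [ha]
  · simp [hb]

/-- the Frobenius pair of a square root -/
theorem TAY_root (hp : 3 < p) (hχ : χ = 1 ∨ χ = -1)
    (hχD : ((D0 : ℤ) : ZMod p) ^ ((p - 1) / 2) = ((χ : ℤ) : ZMod p)) (e0 : ℤ) (he : (p : ℤ) ∣ e0)
    (f Ψ : PowerSeries (QK p D0)) (hu : IsUnit (constantCoeff f)) (hΨ : HF p D0 χ e0 (f * f) Ψ) :
    ∃ Φ, 2 * (f * f) ^ p * Φ = ((f * f) ^ p + Ψ) * f ^ p ∧ HF p D0 χ e0 f Φ := by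
  have hPP := TAY_PP p D0
  have hpp := TAY_pp p D0
  have hfu : IsUnit f := PowerSeries.isUnit_iff_constantCoeff.2 hu
  obtain ⟨fi, hfi⟩ := hfu.exists_right_inv
  obtain ⟨h, hh⟩ := (TAY_two' p D0 hp).exists_right_inv
  obtain ⟨r, hr⟩ := hΨ.c2
  have hfip : f ^ p * fi ^ p = 1 := by rw [← mul_pow, hfi, one_pow]
  have hff : (f * f) ^ p = f ^ p * f ^ p := mul_pow f f p
  obtain ⟨Φ, hΦdef⟩ : ∃ Φ : PowerSeries (QK p D0), Φ = h * fi ^ p * ((f * f) ^ p + Ψ) := ⟨_, rfl⟩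
  obtain ⟨s, hs⟩ : ∃ s : PowerSeries (QK p D0), s = h * fi ^ p * r := ⟨_, rfl⟩
  have hΦ : Φ = f ^ p + (p : PowerSeries (QK p D0)) * s := by
    rw [hΦdef, hr, hff, hs]
    linear_combination (2 * h * f ^ p) * hfip + f ^ p * hh
  have hΦ2 : Φ * Φ = Ψ := by
    rw [hΦ, hr, hff, hs]
    linear_combination (h * fi ^ p * r) ^ 2 * hPP
      + (2 * (p : PowerSeries (QK p D0)) * h * r) * hfip
      + ((p : PowerSeries (QK p D0)) * r) * hh
  have hΦu : IsUnit Φ := by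
    rw [hΦ]
    exact TAY_unit_add hPP (hfu.pow p) s
  obtain ⟨Φi, hΦi⟩ := hΦu.exists_right_inv
  -- constant coefficients
  have hc : (p : QK p D0) * constantCoeff Φ = (p : QK p D0) * tau p D0 χ (constantCoeff f) := by
    rw [← pow_p p D0 χ hp hχD, hΦ, map_add, map_mul, map_pow, map_natCast]
    linear_combination (constantCoeff s) * hpp
  have hd : constantCoeff (dX (f * f)) = constantCoeff (dX f) * constantCoeff f
      + constantCoeff f * constantCoeff (dX f) := by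
    rw [isDer_dX.mul, map_add, map_mul, map_mul]
  refine ⟨Φ, ?_, ?_, ?_, ?_⟩
  · rw [hΦdef, hff]
    linear_combination (2 * h * f ^ p * (f ^ p * f ^ p + Ψ)) * hfip
      + (f ^ p * (f ^ p * f ^ p + Ψ)) * hh
  · -- c0
    have h0 := hΨ.c0
    rw [← hΦ2, hd, map_mul, map_mul, tau_add, tau_mul p D0 χ hχ, tau_mul p D0 χ hχ,
      tau_mul p D0 χ hχ] at h0
    obtain ⟨k, hk⟩ := TAY_ann p D0 (constantCoeff Φ - tau p D0 χ (constantCoeff f)) (by
      rw [mul_sub, hc, sub_self])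
    obtain ⟨e', he'⟩ := he
    have he2 : (e0 : QK p D0) = (p : QK p D0) * (e' : QK p D0) := by
      rw [he']; push_cast; rfl
    have hsum : IsUnit (constantCoeff Φ + (tau p D0 χ (constantCoeff f)
        + (e0 : QK p D0) * tau p D0 χ (constantCoeff (dX f)))) := by
      have e : constantCoeff Φ + (tau p D0 χ (constantCoeff f)
        + (e0 : QK p D0) * tau p D0 χ (constantCoeff (dX f)))
          = 2 * tau p D0 χ (constantCoeff f)
            + (p : QK p D0) * (k + (e' : QK p D0) * tau p D0 χ (constantCoeff (dX f))) := by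
        rw [he2]
        linear_combination hk
      rw [e]
      exact TAY_unit_add hpp ((TAY_two p D0 hp).mul (TAY_tau_unit p D0 χ hχ hu)) _
    have hz : (constantCoeff Φ - (tau p D0 χ (constantCoeff f)
        + (e0 : QK p D0) * tau p D0 χ (constantCoeff (dX f))))
        * (constantCoeff Φ + (tau p D0 χ (constantCoeff f)
        + (e0 : QK p D0) * tau p D0 χ (constantCoeff (dX f)))) = 0 := by
      have hee : (e0 : QK p D0) * (e0 : QK p D0) = 0 := by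
        rw [he2]
        linear_combination ((e' : QK p D0) ^ 2) * hpp
      linear_combination h0 - (tau p D0 χ (constantCoeff (dX f))) ^ 2 * hee
    rw [hsum.mul_left_eq_zero] at hz
    exact sub_eq_zero.1 hz
  · -- c1
    obtain ⟨G, hG, hG0⟩ := hΨ.c1
    refine ⟨h * Φi * G, ?_, ?_⟩
    · have h1 : dX Φ * Φ + Φ * dX Φ = (p : PowerSeries (QK p D0)) * G := by
        rw [← hG, ← hΦ2, isDer_dX.mul]
      linear_combination (h * Φi) * h1 - (2 * h * dX Φ) * hΦi - (dX Φ) * hh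
    · rw [hd, tau_add, tau_mul p D0 χ hχ, tau_mul p D0 χ hχ] at hG0
      have hh0 : 2 * constantCoeff h = 1 := by
        have := congrArg constantCoeff hh
        rwa [map_mul, map_one, map_ofNat] at this
      have hΦi0 : constantCoeff Φ * constantCoeff Φi = 1 := by
        have := congrArg constantCoeff hΦi
        rwa [map_mul, map_one] at this
      rw [map_mul, map_mul]
      linear_combination (constantCoeff h * constantCoeff Φi) * hG0
        - (2 * constantCoeff h * constantCoeff Φi * tau p D0 χ (constantCoeff (dX f))) * hc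
        + (2 * constantCoeff h * (p : QK p D0) * tau p D0 χ (constantCoeff (dX f))) * hΦi0
        + ((p : QK p D0) * tau p D0 χ (constantCoeff (dX f))) * hh0
  · exact ⟨s, hΦ⟩

end TAY_root

namespace MD

variable (M : MD) (p : ℕ) [Fact p.Prime] {x0 n0 m a b s : ℤ}

theorem TAY_e0 (x0 : ℤ) : (p : ℤ) ∣ x0 ^ p - x0 := by
  rw [← ZMod.intCast_zmod_eq_zero_iff_dvd]
  push_cast
  rw [ZMod.pow_card, sub_self]

theorem TAY_px (D0 x0 : ℤ) (hx : ¬ (p : ℤ) ∣ x0) :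
    (p : QK p D0) * (x0 : QK p D0) ^ (p - 1) = (p : QK p D0) := by
  have h : (p : ℤ) ∣ x0 ^ (p - 1) - 1 := by
    rw [← ZMod.intCast_zmod_eq_zero_iff_dvd]
    push_cast
    have h0 : (x0 : ZMod p) ≠ 0 := by
      intro h
      exact hx ((ZMod.intCast_zmod_eq_zero_iff_dvd _ _).1 h)
    rw [ZMod.pow_card_sub_one_eq_one h0, sub_self]
  obtain ⟨k, hk⟩ := h
  have hk' : (x0 : QK p D0) ^ (p - 1) - 1 = (p : QK p D0) * (k : QK p D0) := by
    exact_mod_cast congrArg (Int.cast : ℤ → QK p D0) hk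
  linear_combination (p : QK p D0) * hk' + (k : QK p D0) * TAY_pp p D0

theorem TAY_x (D0 χ x0 : ℤ) (hx : ¬ (p : ℤ) ∣ x0) (x : PowerSeries (QK p D0))
    (hx1 : x = C ((x0 : ℤ) : QK p D0) + X) : HF p D0 χ (x0 ^ p - x0) x (x ^ p) := by
  have hd : dX x = 1 := by
    rw [hx1, isDer_dX.add, dX_C, dX_X, zero_add]
  have hc : constantCoeff x = ((x0 : ℤ) : QK p D0) := by
    rw [hx1, map_add, constantCoeff_C, constantCoeff_X, add_zero]
  refine ⟨?_, ⟨x ^ (p - 1), ?_, ?_⟩, ⟨0, by ring⟩⟩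
  · rw [map_pow, hc, hd, map_one, TAY_tau_one, TAY_tau_int]
    push_cast
    ring
  · rw [isDer_dX.pow, hd, mul_one]
  · rw [map_pow, hc, hd, map_one, TAY_tau_one, mul_one]
    exact TAY_px p D0 x0 hx

theorem TAY_poly (hp : 3 < p) (D0 χ : ℤ) (hχ : χ = 1 ∨ χ = -1) (x0 : ℤ) (hx : ¬ (p : ℤ) ∣ x0)
    (x : PowerSeries (QK p D0))
    (hx1 : x = C ((x0 : ℤ) : QK p D0) + X) (φ : Polynomial ℤ →+* PowerSeries (QK p D0))
    (hφ : φ Polynomial.X = x) (f : Polynomial ℤ) :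
    HF p D0 χ (x0 ^ p - x0) (φ f) (φ (Polynomial.expand ℤ p f)) := by
  have hX := TAY_x p D0 χ x0 hx x hx1
  have he := TAY_e0 p x0
  induction f using Polynomial.induction_on with
  | C a =>
    have e : (Polynomial.C a : Polynomial ℤ) = ((a : ℤ) : Polynomial ℤ) := by simp
    rw [Polynomial.expand_C, e, map_intCast]
    exact HF_int p D0 χ _ a
  | add f g hf hg =>
    rw [map_add, map_add, map_add]
    exact HF_add p D0 χ hp _ _ _ _ _ hf hg
  | monomial n a h =>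
    have e : (Polynomial.C a * Polynomial.X ^ (n + 1) : Polynomial ℤ)
        = (Polynomial.C a * Polynomial.X ^ n) * Polynomial.X := by ring
    have e1 : φ (Polynomial.C a * Polynomial.X ^ (n + 1)) = φ (Polynomial.C a * Polynomial.X ^ n) * x := by
      rw [e, map_mul φ, hφ]
    have e2 : φ (Polynomial.expand ℤ p (Polynomial.C a * Polynomial.X ^ (n + 1)))
        = φ (Polynomial.expand ℤ p (Polynomial.C a * Polynomial.X ^ n)) * x ^ p := by
      rw [e, map_mul, Polynomial.expand_X, map_mul φ, map_pow, hφ]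
    rw [e1, e2]
    exact HF_mul p D0 χ hp hχ _ he _ _ _ _ h hX

theorem TAY_unit_Z (c : ℤ) (h : ¬ (p : ℤ) ∣ c) : IsUnit ((c : ℤ) : ZMod (p ^ 2)) := by
  have hpr : p.Prime := Fact.out
  have h1 : IsCoprime ((p : ℤ) ^ 2) c :=
    ((Nat.prime_iff_prime_int.1 hpr).coprime_iff_not_dvd.2 h).pow_left
  obtain ⟨u, v, huv⟩ := h1
  refine IsUnit.of_mul_eq_one ((v : ℤ) : ZMod (p ^ 2)) ?_
  have h2 := congrArg (Int.cast : ℤ → ZMod (p ^ 2)) huv
  push_cast at h2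
  have h3 : ((p : ZMod (p ^ 2)) ^ 2) = 0 := by
    have := ZMod.natCast_self (p ^ 2)
    exact_mod_cast this
  rw [h3, mul_zero, zero_add, mul_comm] at h2
  exact h2

theorem TAY_evP_X {T : Type} [CommRing T] (P : M.Pt T) : P.evP Polynomial.X = P.x := by
  rw [Pt.evP_apply, Polynomial.aeval_X]

theorem TAY_NB_aux (hp : 3 < p) (hg : M.GoodPt x0 n0 m b p)
    (P : M.PPt p x0 n0) (χ : ℤ) (hχ : χ = 1 ∨ χ = -1)
    (hχD : ((M.evI x0 n0 M.D : ℤ) : ZMod p) ^ ((p - 1) / 2) = ((χ : ℤ) : ZMod p)) (c : M.B) :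
    ∃ Φ, P.toPt.evB (M.NB p c) = P.toPt.evB (2 * M.iP (M.E ^ p)) * Φ ∧
      HF p (M.evI x0 n0 M.D) χ (x0 ^ p - x0) (P.toPt.evB c) Φ := by
  have he := TAY_e0 p x0
  have hpoly := TAY_poly p hp (M.evI x0 n0 M.D) χ hχ x0 hg.hx P.x P.hx P.toPt.evP
    (TAY_evP_X M P.toPt)
  have hE : P.toPt.evP M.E = P.η * P.η := by rw [Pt.evP_E, sq]
  have hηu : IsUnit (constantCoeff P.η) := by
    rw [P.hη0]
    have hn : IsUnit ((n0 : ℤ) : ZMod (p ^ 2)) := TAY_unit_Z p n0 hg.hn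
    have := hn.map (iK p (M.evI x0 n0 M.D))
    rwa [map_intCast] at this
  have hE1 := hpoly M.E
  rw [hE] at hE1
  obtain ⟨Φη, h1, h2⟩ := TAY_root p (M.evI x0 n0 M.D) χ hp hχ hχD (x0 ^ p - x0) he P.η _ hηu hE1
  refine ⟨P.toPt.evP (Polynomial.expand ℤ p c.re) + P.toPt.evP (Polynomial.expand ℤ p c.im) * Φη, ?_, ?_⟩
  · unfold NB Es
    simp only [map_add, map_mul, map_pow, Pt.evB_iP, Pt.evB_eta, map_ofNat, hE]
    linear_combination (-(P.toPt.evP (Polynomial.expand ℤ p c.im))) * h1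
  · rw [Pt.evB_apply]
    exact HF_add p _ χ hp _ _ _ _ _ (hpoly c.re)
      (HF_mul p _ χ hp hχ _ he _ _ _ _ (hpoly c.im) h2)

theorem TAY_NB (hp : 3 < p) (hpt : M.Point x0 n0 m a b s) (hg : M.GoodPt x0 n0 m b p)
    (P : M.PPt p x0 n0) (χ : ℤ) (hχ : χ = 1 ∨ χ = -1)
    (hχD : ((M.evI x0 n0 M.D : ℤ) : ZMod p) ^ ((p - 1) / 2) = ((χ : ℤ) : ZMod p)) (c : M.B) :
    ∃ Φ, P.toPt.evB (M.NB p c) = P.toPt.evB (2 * M.iP (M.E ^ p)) * Φ ∧
      HF p (M.evI x0 n0 M.D) χ (x0 ^ p - x0) (P.toPt.evB c) Φ := by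
  have _ := hpt
  exact TAY_NB_aux M p hp hg P χ hχ hχD c

theorem TAY_NA (hp : 3 < p) (hpt : M.Point x0 n0 m a b s) (hg : M.GoodPt x0 n0 m b p)
    (P : M.PPt p x0 n0) (χ : ℤ) (hχ : χ = 1 ∨ χ = -1)
    (hχD : ((M.evI x0 n0 M.D : ℤ) : ZMod p) ^ ((p - 1) / 2) = ((χ : ℤ) : ZMod p)) (c : M.A) :
    ∃ Φ, P.toPt.ev (M.NA p c) = P.toPt.ev (M.sA p) * Φ ∧
      HF p (M.evI x0 n0 M.D) χ (x0 ^ p - x0) (P.toPt.ev c) Φ := by
  have he := TAY_e0 p x0
  obtain ⟨Φr, hr1, hr2⟩ := TAY_NB M p hp hpt hg P χ hχ hχD c.re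
  obtain ⟨Φi, hi1, hi2⟩ := TAY_NB M p hp hpt hg P χ hχ hχD c.im
  obtain ⟨ΦD, hD1, hD2⟩ := TAY_NB M p hp hpt hg P χ hχ hχD M.D
  have hYu : IsUnit (constantCoeff P.Y) := by
    rw [P.hY0]
    have hn : IsUnit ((M.evI x0 n0 M.D : ℤ) : ZMod (p ^ 2)) := TAY_unit_Z p _ hg.hD
    have h1 := hn.map (iK p (M.evI x0 n0 M.D))
    have h2 : sqD p (M.evI x0 n0 M.D) * sqD p (M.evI x0 n0 M.D)
        = iK p (M.evI x0 n0 M.D) ((M.evI x0 n0 M.D : ℤ) : ZMod (p ^ 2)) := by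
      unfold sqD iK
      ext <;> simp
    rw [← h2] at h1
    exact isUnit_of_mul_isUnit_left h1
  have hD : P.toPt.evB M.D = P.Y * P.Y := by rw [Pt.evB_D, sq]
  rw [hD] at hD2
  obtain ⟨ΦY, h1, h2⟩ := TAY_root p (M.evI x0 n0 M.D) χ hp hχ hχD (x0 ^ p - x0) he P.Y _ hYu hD2
  have h2E : P.toPt.evB (2 * M.iP (M.E ^ p)) = 2 * P.toPt.evP M.E ^ p := by
    rw [map_mul, map_ofNat, Pt.evB_iP, map_pow]
  rw [h2E] at hr1 hi1 hD1
  refine ⟨Φr + Φi * ΦY, ?_, ?_⟩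
  · unfold NA sA Ds
    rw [map_add, map_mul, Pt.ev_iB, Pt.ev_iB, Pt.ev_iB, map_pow, Pt.ev_YY]
    simp only [map_mul, map_add, map_pow, Pt.evB_iP, map_ofNat, hr1, hi1, hD1, hD]
    have e2 : P.toPt.evP M.E ^ (2 * p) = P.toPt.evP M.E ^ p * P.toPt.evP M.E ^ p := by
      rw [two_mul, pow_add]
    rw [e2]
    linear_combination (-(4 * P.toPt.evP M.E ^ p * P.toPt.evP M.E ^ p * Φi)) * h1
  · rw [Pt.ev_apply]
    exact HF_add p _ χ hp _ _ _ _ _ hr2
      (HF_mul p _ χ hp hχ _ he _ _ _ _ hi2 h2)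

end MD

end Pool.Agent.Lib_helper91.FR
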